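import Pool.Agent.K93.SD.Stm

/-!
# (BIG) many big jumps
-/

set_option autoImplicit false

namespace Pool.Agent.K93.SD

open Finset

namespace BIG

variable {k μ j G R T0 D Λ M : ℕ} {T e f : ℕ → ℕ}

lemma inc (h : Walk k μ j R T e f) {n : ℕ} (h1 : 1 ≤ n) (hn : n ≤ R) : T n + 1 ≤ T (n + 1) := by
  have h3 := h.step n h1 hn
  have h4 : 1 ≤ e n * f n := Nat.mul_pos (h.epos n h1 hn) (h.fpos n h1 hn)
  omega

lemma mono (h : Walk k μ j R T e f) {m : ℕ} (hm : 1 ≤ m) : ∀ n, m ≤ n → n ≤ R + 1 → T m ≤ T n := by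
  intro n hn
  induction n, hn using Nat.le_induction with
  | base => intro _; exact le_rfl
  | succ n hn ih =>
    intro hG
    have := ih (by omega)
    have := inc h (hm.trans hn) (by omega : n ≤ R)
    omega

/-- the first time at which `T` is at least `B` -/
lemma first (h : Walk k μ j R T e f) {B : ℕ} (hB : 3 * j * j < B) (hi : B < T (R + 1)) :
    ∃ m, 3 ≤ m ∧ m ≤ R + 1 ∧ B ≤ T m ∧ ∀ n, 1 ≤ n → n < m → T n < B := by
  classical
  have hex : ∃ m, 1 ≤ m ∧ B ≤ T m := ⟨R + 1, by omega, hi.le⟩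
  obtain ⟨m, hm⟩ : ∃ m, m = Nat.find hex := ⟨_, rfl⟩
  have hsp : 1 ≤ m ∧ B ≤ T m := hm ▸ Nat.find_spec hex
  have hmin : ∀ n, 1 ≤ n → n < m → T n < B := by
    intro n h2 hn
    have := Nat.find_min hex (hm ▸ hn)
    by_contra hc
    exact this ⟨h2, not_lt.1 hc⟩
  have hmG : m ≤ R + 1 := by
    by_contra hc
    exact absurd (hmin (R + 1) (by omega) (by omega)) (not_lt.2 hi.le)
  refine ⟨m, ?_, hmG, hsp.2, hmin⟩
  have hR : 1 ≤ R := by
    by_contra hc
    have : R = 0 := by omega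
    rw [this, zero_add, h.start] at hi
    omega
  by_contra hc
  have h12 : m = 1 ∨ m = 2 := by omega
  have h3 := hsp.2
  rcases h12 with h4 | h4
  · rw [h4, h.start] at h3
    omega
  · rw [h4] at h3
    have := h.first hR
    omega

/-- small jumps -/
lemma small (h : Walk k μ j R T e f) {m : ℕ} (hm : 1 ≤ m) : ∀ s, m + s ≤ R + 1 →
    (∀ n, m ≤ n → n < m + s → e n * f n < D) → T (m + s) ≤ T m + D * s := by
  intro s
  induction s with
  | zero => intro _ _; simp
  | succ s ih =>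
    intro hk hD
    have h1 := ih (by omega) (fun n h2 h3 => hD n h2 (by omega))
    have h2 := hD (m + s) (by omega) (by omega)
    have h3 := h.step (m + s) (by omega) (by omega)
    have h4 : D * (s + 1) = D * s + D := by ring
    rw [show m + (s + 1) = m + s + 1 by ring, h4]
    omega

lemma one (h : Walk k μ j R T e f) (hR : R ≤ G) (hΛ : 1 ≤ Λ) {B : ℕ} (hB0 : T0 ≤ B)
    (hj : 3 * j * j < T0) (hD : 2 * G * D ≤ T0)
    (hleap : ∀ n, 1 ≤ n → n ≤ R → 1 ≤ T n → T n < B → e n * f n < Λ * B)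
    (hi : 4 * Λ * B < T (R + 1)) :
    ∃ n ∈ J R T0 D T e f, B ≤ T n ∧ T n < 4 * Λ * B := by
  have hBB : 4 * B ≤ 4 * Λ * B := Nat.mul_le_mul_right _ (by omega)
  obtain ⟨m, hm3, hmG, hm, hmin⟩ := first h (B := B) (by omega) (by omega)
  obtain ⟨m', hm3', hmG', hm', hmin'⟩ := first h (B := 4 * Λ * B) (by omega) hi
  have hup : T m < B + Λ * B := by
    obtain ⟨n, rfl⟩ : ∃ n, m = n + 1 := ⟨m - 1, by omega⟩
    have h5 := hmin n (by omega) (by omega)
    have h6 := h.step n (by omega) (by omega)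
    have h7 : 1 ≤ T n := by
      have h8 := inc h (n := 1) le_rfl (by omega)
      have h9 := mono h (m := 2) (by omega) n (by omega) (by omega)
      rw [h.start] at h8
      have h10 : T (1 + 1) = T 2 := rfl
      omega
    have h8 := hleap n (by omega) (by omega) h7 h5
    omega
  have hmm : m ≤ m' := by
    by_contra hc
    have := hmin m' (by omega) (by omega)
    omega
  by_contra hcon
  have hall : ∀ n, m ≤ n → n < m + (m' - m) → e n * f n < D := by
    intro n hn1 hn2
    by_contra hc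
    refine hcon ⟨n, ?_, ?_, ?_⟩
    · unfold J
      refine mem_filter.2 ⟨mem_Icc.2 ⟨by omega, by omega⟩, ?_, not_lt.1 hc⟩
      exact hB0.trans (hm.trans (mono h (by omega) n hn1 (by omega)))
    · exact hm.trans (mono h (by omega) n hn1 (by omega))
    · exact hmin' n (by omega) (by omega)
  have h5 := small h (by omega : 1 ≤ m) (m' - m) (by omega) hall
  rw [show m + (m' - m) = m' by omega] at h5
  have h6 : D * (m' - m) ≤ D * G := Nat.mul_le_mul_left _ (by omega)
  have h7 : 2 * G * D = 2 * (D * G) := by ring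
  have h8 : 4 * Λ * B = 4 * (Λ * B) := by ring
  have h9 : B ≤ Λ * B := Nat.le_mul_of_pos_left _ hΛ
  omega

end BIG

open BIG in
theorem t_BIG : S_BIG := by
  classical
  intro k μ j G R T0 D Λ M T e f h hR hΛ hj hD hleap hM
  have hpow : ∀ i, T0 ≤ (4 * Λ) ^ i * T0 := fun i =>
    Nat.le_mul_of_pos_left _ (Nat.one_le_pow _ _ (by omega))
  have hmon : ∀ i i', i ≤ i' → (4 * Λ) ^ i * T0 ≤ (4 * Λ) ^ i' * T0 := fun i i' hi =>
    Nat.mul_le_mul_right _ (Nat.pow_le_pow_right (by omega) hi)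
  have hsucc : ∀ i, (4 * Λ) ^ (i + 1) * T0 = 4 * Λ * ((4 * Λ) ^ i * T0) := fun i => by ring
  have hex : ∀ i ∈ range M, ∃ n ∈ J R T0 D T e f,
      (4 * Λ) ^ i * T0 ≤ T n ∧ T n < (4 * Λ) ^ (i + 1) * T0 := by
    intro i hi
    have hi' := mem_range.1 hi
    rw [hsucc]
    refine one h hR hΛ (hpow i) hj hD (fun n h1 h2 h3 h4 => hleap i n hi' h1 h2 h3 h4) ?_
    rw [← hsucc]
    exact lt_of_le_of_lt (hmon _ _ hi') hM
  choose! g hf1 hf2 hf3 using hex
  have hcard := card_le_card_of_injOn (s := range M) (t := J R T0 D T e f) g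
    (fun i hi => hf1 i hi) ?_
  · rwa [card_range] at hcard
  · have key : ∀ i ∈ range M, ∀ l ∈ range M, i < l → g i ≠ g l := by
      intro i hi l hl hil e
      have h4 := hf3 i hi
      have h5 := hf2 l hl
      rw [← e] at h5
      have h6 := hmon (i + 1) l hil
      omega
    intro i hi l hl e
    rcases lt_trichotomy i l with h4 | h4 | h4
    · exact absurd e (key i hi l hl h4)
    · exact h4
    · exact absurd e.symm (key l hl i hi h4)

end Pool.Agent.K93.SD
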