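import Pool.Agent.K93.SD.Stm

/-!
# The union bound for bad runs (project SD), adapted from `N333/GR/Cnt.lean`
-/

set_option autoImplicit false

namespace Pool.Agent.K93.SD

namespace CNT

open Finset

/-- the type of a step: `⟨(n, t), (e, f)⟩` -/
abbrev Stp : Type := Σ (_ : ℕ × ℕ), ℕ × ℕ

/-- the possible steps -/
def Nn (μ j G Ts D P Q t' : ℕ) : Finset Stp :=
  ((Icc 1 G) ×ˢ (Icc t' Ts)).sigma fun y => Pr μ j y.1 P Q D t' y.2

/-- the possible next steps -/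
def Nx (μ j G Y Ts D : ℕ) (x : Prop) [Decidable x] (t' : ℕ) : Finset Stp :=
  if x then Nn μ j G Ts D Y 1 t' else Nn μ j G Ts D 1 G t'

/-- the two congruences of a step -/
def two (y : Stp) (c : List (ℤ × ℕ)) : List (ℤ × ℕ) :=
  ((y.1.1 : ℤ) + 1, y.2.1) :: ((y.1.1 : ℤ) - 1, y.2.2) :: c

/-- there is a continuation of length `k` with the pattern `S` -/
def Cont (μ j G Y Ts D : ℕ) (S : Finset ℕ) (N : ℕ) : ℕ → List (ℤ × ℕ) → ℕ → Prop
  | 0, c, _ => c.Pairwise (fun p q => Nat.gcd p.2 q.2 ≤ 4 * G) ∧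
      ∀ p ∈ c, (p.2 : ℤ) ∣ (N : ℤ) - p.1
  | k + 1, c, t' => ∃ y ∈ Nx μ j G Y Ts D (k ∈ S) t',
      Cont μ j G Y Ts D S N k (two y c) (y.1.2 + y.2.1 * y.2.2)

lemma mem_Nn {μ j G Ts D P Q t' : ℕ} {y : Stp} : y ∈ Nn μ j G Ts D P Q t' ↔
    (1 ≤ y.1.1 ∧ y.1.1 ≤ G) ∧ (t' ≤ y.1.2 ∧ y.1.2 ≤ Ts) ∧
    y.2 ∈ Pr μ j y.1.1 P Q D t' y.1.2 := by
  unfold Nn
  rw [Finset.mem_sigma, Finset.mem_product, Finset.mem_Icc, Finset.mem_Icc, and_assoc]

lemma mem_Pr {μ j n P Q D t' t : ℕ} {x : ℕ × ℕ} : x ∈ Pr μ j n P Q D t' t ↔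
    ((x.1 ∣ AA μ j n t ∧ AA μ j n t ≠ 0) ∧ (x.2 ∣ BB μ j n t ∧ BB μ j n t ≠ 0)) ∧
    D ≤ x.1 * x.2 ∧ P * (t - t') ≤ Q * (x.1 * x.2) := by
  unfold Pr
  rw [Finset.mem_filter, Finset.mem_product, Nat.mem_divisors, Nat.mem_divisors]

lemma Pr_pos {μ j n P Q D t' t : ℕ} {x : ℕ × ℕ} (h : x ∈ Pr μ j n P Q D t' t) :
    0 < x.1 ∧ 0 < x.2 := by
  rw [mem_Pr] at h
  exact ⟨Nat.pos_of_dvd_of_pos h.1.1.1 (Nat.pos_of_ne_zero h.1.1.2),
    Nat.pos_of_dvd_of_pos h.1.2.1 (Nat.pos_of_ne_zero h.1.2.2)⟩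

lemma Pr_card {μ j n P Q D t' t G Ts : ℕ} (hG : 1 ≤ G) (hn : n ≤ G) (hj : j < μ)
    (hμ : μ ≤ 2 * G) (hTs : 4 * G ^ 2 ≤ Ts) (ht : t ≤ Ts) :
    (Pr μ j n P Q D t' t).card ≤ (8 * G * Ts) ^ 2 := by
  unfold Pr
  refine (Finset.card_filter_le _ _).trans ?_
  rw [Finset.card_product]
  have h3 : j * (n * (n + 2)) ≤ 2 * G * (G * (3 * G)) := by
    refine Nat.mul_le_mul (by omega) (Nat.mul_le_mul hn ?_)
    omega
  have h4 : 2 * G * (G * (3 * G)) ≤ 2 * (G * Ts) := by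
    have : G * (4 * G ^ 2) ≤ G * Ts := Nat.mul_le_mul_left G hTs
    nlinarith
  have h5 : μ * t ≤ 2 * G * Ts := Nat.mul_le_mul hμ ht
  have hA : AA μ j n t ≤ 8 * G * Ts := by
    unfold AA
    nlinarith
  have h6 : j * (n * n) ≤ j * (n * (n + 2)) :=
    Nat.mul_le_mul_left j (Nat.mul_le_mul_left n (by omega))
  have hB : BB μ j n t ≤ 8 * G * Ts := by
    unfold BB
    have : μ * t + j * (n * n) ≤ 8 * G * Ts := by nlinarith
    omega
  rw [sq]
  exact Nat.mul_le_mul ((Nat.card_divisors_le_self _).trans hA)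
    ((Nat.card_divisors_le_self _).trans hB)

lemma Nn_card {μ j P Q D t' G Ts : ℕ} (hG : 1 ≤ G) (hj : j < μ)
    (hμ : μ ≤ 2 * G) (hTs : 4 * G ^ 2 ≤ Ts) (ht : 1 ≤ t') :
    (Nn μ j G Ts D P Q t').card ≤ G * Ts * (8 * G * Ts) ^ 2 := by
  unfold Nn
  rw [Finset.card_sigma]
  calc ∑ y ∈ (Icc 1 G) ×ˢ (Icc t' Ts), (Pr μ j y.1 P Q D t' y.2).card
      ≤ ∑ _y ∈ (Icc 1 G) ×ˢ (Icc t' Ts), (8 * G * Ts) ^ 2 := by
        refine Finset.sum_le_sum fun y hy => ?_
        rw [Finset.mem_product, Finset.mem_Icc, Finset.mem_Icc] at hy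
        exact Pr_card hG hy.1.2 hj hμ hTs hy.2.2
    _ = ((Icc 1 G).card * (Icc t' Ts).card) * (8 * G * Ts) ^ 2 := by
        rw [Finset.sum_const, Finset.card_product, smul_eq_mul]
    _ ≤ _ := by
        refine Nat.mul_le_mul_right _ (Nat.mul_le_mul ?_ ?_)
        · rw [Nat.card_Icc, Nat.add_sub_cancel]
        · rw [Nat.card_Icc]
          omega

lemma Nx_card {μ j Y D t' G Ts : ℕ} {x : Prop} [Decidable x] (hG : 1 ≤ G) (hj : j < μ)
    (hμ : μ ≤ 2 * G) (hTs : 4 * G ^ 2 ≤ Ts) (ht : 1 ≤ t') :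
    (Nx μ j G Y Ts D x t').card ≤ G * Ts * (8 * G * Ts) ^ 2 := by
  unfold Nx
  split_ifs
  · exact Nn_card hG hj hμ hTs ht
  · exact Nn_card hG hj hμ hTs ht

lemma Nx_pos {μ j Y D t' G Ts : ℕ} {x : Prop} [Decidable x] {y : Stp}
    (h : y ∈ Nx μ j G Y Ts D x t') : 0 < y.2.1 ∧ 0 < y.2.2 := by
  unfold Nx at h
  split_ifs at h
  · exact Pr_pos (mem_Nn.1 h).2.2
  · exact Pr_pos (mem_Nn.1 h).2.2

/-- the weight of the possible steps -/
lemma Nn_weight (hW : S_WT) {μ j P Q D t' G Ts : ℕ} (hj : j < μ)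
    (hμ : μ ≤ 2 * G) (hTs : 4 * G ^ 2 ≤ Ts) (ht : 1 ≤ t') (hP : 1 ≤ P) (hQ : 1 ≤ Q) (hD : 1 ≤ D)
    (h1 : Q * D ≤ P * Ts) (h2 : 8 * G * Ts * P ^ 2 ≤ Q ^ 2 * D ^ 2) :
    ∑ y ∈ Nn μ j G Ts D P Q t', (1 / ((y.2.1 * y.2.2 : ℕ) : ℝ)) ≤
      G * (64 * G * ((Q : ℝ) / P) * (1 + Real.log (8 * G * Ts)) ^ 17) := by
  unfold Nn
  rw [Finset.sum_sigma, Finset.sum_product]
  calc ∑ n ∈ Icc 1 G, ∑ t ∈ Icc t' Ts, ∑ x ∈ Pr μ j n P Q D t' t, (1 / ((x.1 * x.2 : ℕ) : ℝ))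
      ≤ ∑ _n ∈ Icc 1 G, (64 * G * ((Q : ℝ) / P) * (1 + Real.log (8 * G * Ts)) ^ 17) := by
        refine Finset.sum_le_sum fun n hn => ?_
        rw [Finset.mem_Icc] at hn
        exact hW G μ j n P Q D Ts t' hn.1 hn.2 hj hμ hTs hP hQ hD ht h1 h2
    _ = _ := by
        rw [Finset.sum_const, Nat.card_Icc, Nat.add_sub_cancel, nsmul_eq_mul]

/-- the weight of a step -/
noncomputable def QA (G Ts : ℕ) : ℝ := 64 * (G : ℝ) ^ 3 * (1 + Real.log (8 * G * Ts)) ^ 17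

/-- the number of the steps -/
noncomputable def Bc (G Ts : ℕ) : ℝ := (G : ℝ) * Ts * (8 * G * Ts) ^ 2

lemma log_nn {G Ts : ℕ} (hG : 1 ≤ G) (hTs : 4 * G ^ 2 ≤ Ts) :
    0 ≤ Real.log (8 * (G : ℝ) * Ts) := by
  apply Real.log_nonneg
  have h1 : (1 : ℝ) ≤ G := by exact_mod_cast hG
  have h2 : (1 : ℝ) ≤ Ts := by
    have : 1 ≤ Ts := by nlinarith
    exact_mod_cast this
  nlinarith [mul_le_mul h1 h2 zero_le_one (by linarith)]

lemma QA_one {G Ts : ℕ} (hG : 1 ≤ G) (hTs : 4 * G ^ 2 ≤ Ts) : 1 ≤ QA G Ts := by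
  unfold QA
  have h1 : (1 : ℝ) ≤ G := by exact_mod_cast hG
  have h2 : (1 : ℝ) ≤ (G : ℝ) ^ 3 := one_le_pow₀ h1
  have h3 : (1 : ℝ) ≤ (1 + Real.log (8 * (G : ℝ) * Ts)) ^ 17 :=
    one_le_pow₀ (by linarith [log_nn hG hTs])
  nlinarith [mul_le_mul h2 h3 zero_le_one (by linarith)]

lemma Nx_weight (hW : S_WT) {μ j Y D t' G Ts : ℕ} {x : Prop} [Decidable x] (hG : 1 ≤ G)
    (hj : j < μ) (hμ : μ ≤ 2 * G) (hY : 2 ≤ Y) (hTs : 4 * G ^ 2 ≤ Ts) (ht : 1 ≤ t') (hD : 1 ≤ D)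
    (hGD : G * D ≤ Ts) (hTY : 8 * G * Ts * Y ^ 2 ≤ D ^ 2) :
    ∑ y ∈ Nx μ j G Y Ts D x t', (1 / ((y.2.1 * y.2.2 : ℕ) : ℝ)) ≤
      if x then QA G Ts / Y else QA G Ts := by
  have hG' : (1 : ℝ) ≤ G := by exact_mod_cast hG
  have hY' : (2 : ℝ) ≤ Y := by exact_mod_cast hY
  have hL : 0 ≤ (1 + Real.log (8 * (G : ℝ) * Ts)) ^ 17 :=
    pow_nonneg (by linarith [log_nn hG hTs]) _
  unfold Nx
  by_cases hx : x
  · simp only [hx, if_true]
    refine (Nn_weight hW hj hμ hTs ht (by omega) le_rfl hD ?_ ?_).trans ?_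
    · have h1 : D ≤ G * D := Nat.le_mul_of_pos_left D hG
      have h2 : Ts ≤ Y * Ts := Nat.le_mul_of_pos_left Ts (by omega)
      omega
    · rw [one_pow, one_mul]
      exact hTY
    · unfold QA
      have h3 : (G : ℝ) * (64 * G * (((1 : ℕ) : ℝ) / Y) * (1 + Real.log (8 * G * Ts)) ^ 17) =
          (G : ℝ) ^ 2 * (64 * (1 + Real.log (8 * G * Ts)) ^ 17 / Y) := by
        push_cast
        ring
      have h4 : 64 * (G : ℝ) ^ 3 * (1 + Real.log (8 * G * Ts)) ^ 17 / Y =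
          (G : ℝ) ^ 3 * (64 * (1 + Real.log (8 * G * Ts)) ^ 17 / Y) := by ring
      rw [h3, h4]
      exact mul_le_mul_of_nonneg_right (pow_le_pow_right₀ hG' (by norm_num)) (by positivity)
  · simp only [hx, if_false]
    refine (Nn_weight hW hj hμ hTs ht le_rfl hG hD ?_ ?_).trans ?_
    · omega
    · rw [one_pow, mul_one]
      have h1 : 8 * G * Ts ≤ 8 * G * Ts * Y ^ 2 := Nat.le_mul_of_pos_right _ (by positivity)
      have h2 : D ^ 2 ≤ G ^ 2 * D ^ 2 := Nat.le_mul_of_pos_left _ (by positivity)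
      omega
    · unfold QA
      refine le_of_eq ?_
      push_cast
      ring

open Classical in
theorem claim (hC : S_CRT) (hW : S_WT) (μ j G Y Ts D b X : ℕ) (S : Finset ℕ) (hG : 1 ≤ G)
    (hj : j < μ) (hμ : μ ≤ 2 * G) (hY : 2 ≤ Y) (hTs : 4 * G ^ 2 ≤ Ts) (hD : 1 ≤ D)
    (hGD : G * D ≤ Ts) (hTY : 8 * G * Ts * Y ^ 2 ≤ D ^ 2) :
    ∀ (k : ℕ) (c : List (ℤ × ℕ)) (t' : ℕ), (∀ p ∈ c, 0 < p.2) → c.length + 2 * k ≤ 4 * b →
    1 ≤ t' →
    (((Icc 1 X).filter (fun N : ℕ => Cont μ j G Y Ts D S N k c t')).card : ℝ) ≤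
      (X : ℝ) * (4 * G : ℝ) ^ ((4 * b) ^ 2) / ((c.map Prod.snd).prod : ℕ) *
        (∏ i ∈ range k, (if i ∈ S then QA G Ts / Y else QA G Ts)) + (Bc G Ts) ^ k := by
  have hG' : (1 : ℝ) ≤ G := by exact_mod_cast hG
  have hY' : (2 : ℝ) ≤ Y := by exact_mod_cast hY
  have hQ0 : 0 < QA G Ts := by linarith [QA_one hG hTs]
  have hBc0 : 0 ≤ Bc G Ts := by unfold Bc; positivity
  intro k
  induction k with
  | zero =>
    intro c t' h2 h3 _
    by_cases hp : c.Pairwise (fun p q => Nat.gcd p.2 q.2 ≤ 4 * G)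
    · have h4 := hC (4 * G) X c (by omega) hp h2
      have h5 : (Icc 1 X).filter (fun N : ℕ => Cont μ j G Y Ts D S N 0 c t') =
          (Icc 1 X).filter (fun N : ℕ => ∀ p ∈ c, (p.2 : ℤ) ∣ (N : ℤ) - p.1) := by
        ext N
        rw [Finset.mem_filter, Finset.mem_filter]
        refine and_congr_right fun _ => ?_
        exact ⟨fun h => h.2, fun h => ⟨hp, h⟩⟩
      have h6 : ((((Icc 1 X).filter (fun N : ℕ => Cont μ j G Y Ts D S N 0 c t')).card : ℕ) : ℝ) ≤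
          (X : ℝ) * ((4 * G : ℕ) : ℝ) ^ (c.length ^ 2) / ((c.map Prod.snd).prod : ℕ) + 1 := by
        rw [h5]
        convert h4
      refine h6.trans ?_
      rw [Finset.prod_range_zero, mul_one, pow_zero]
      have h7 : ((4 * G : ℕ) : ℝ) ^ (c.length ^ 2) ≤ (4 * G : ℝ) ^ ((4 * b) ^ 2) := by
        push_cast
        exact pow_le_pow_right₀ (by linarith) (Nat.pow_le_pow_left (by omega) 2)
      gcongr
    · have h5 : (Icc 1 X).filter (fun N : ℕ => Cont μ j G Y Ts D S N 0 c t') = ∅ := by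
        ext N
        simp only [Finset.mem_filter, Finset.notMem_empty, iff_false, not_and]
        intro _ h
        exact hp h.1
      rw [h5, Finset.card_empty, Finset.prod_range_zero, pow_zero, Nat.cast_zero]
      positivity
  | succ k ih =>
    intro c t' h2 h3 h4
    set W : ℝ := ∏ i ∈ range k, (if i ∈ S then QA G Ts / Y else QA G Ts) with hWd
    have hW0 : 0 ≤ W := Finset.prod_nonneg fun i _ => by split_ifs <;> positivity
    set Pc : ℝ := (((c.map Prod.snd).prod : ℕ) : ℝ) with hPc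
    have hPc0 : 0 < Pc := by
      rw [hPc]
      have : 0 < (c.map Prod.snd).prod := by
        apply List.prod_pos
        intro a ha
        obtain ⟨p, hp, rfl⟩ := List.mem_map.1 ha
        exact h2 p hp
      exact_mod_cast this
    set A : ℝ := (X : ℝ) * (4 * G : ℝ) ^ ((4 * b) ^ 2) / Pc * W with hAd
    have hA0 : 0 ≤ A := by positivity
    set B : ℝ := (Bc G Ts) ^ k with hBd
    have hB0 : 0 ≤ B := by positivity
    -- the union
    have hsub : (Icc 1 X).filter (fun N : ℕ => Cont μ j G Y Ts D S N (k + 1) c t') ⊆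
        (Nx μ j G Y Ts D (k ∈ S) t').biUnion fun y => (Icc 1 X).filter
          (fun N : ℕ => Cont μ j G Y Ts D S N k (two y c) (y.1.2 + y.2.1 * y.2.2)) := by
      intro N hN
      obtain ⟨hN1, y, hy, hb⟩ := Finset.mem_filter.1 hN
      rw [Finset.mem_biUnion]
      exact ⟨y, hy, Finset.mem_filter.2 ⟨hN1, hb⟩⟩
    have hone : ∀ y ∈ Nx μ j G Y Ts D (k ∈ S) t',
        ((((Icc 1 X).filter (fun N : ℕ => Cont μ j G Y Ts D S N k (two y c)
          (y.1.2 + y.2.1 * y.2.2))).card : ℕ) : ℝ) ≤ A * (1 / ((y.2.1 * y.2.2 : ℕ) : ℝ)) + B := by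
      intro y hy
      obtain ⟨he, hf⟩ := Nx_pos hy
      have h5 := ih (two y c) (y.1.2 + y.2.1 * y.2.2)
        (by
          intro p hp
          unfold two at hp
          rcases List.mem_cons.1 hp with rfl | hp
          · exact he
          · rcases List.mem_cons.1 hp with rfl | hp
            · exact hf
            · exact h2 p hp)
        (by
          unfold two
          simp only [List.length_cons]
          omega) (by
            have := Nat.mul_pos he hf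
            omega)
      refine h5.trans (le_of_eq ?_)
      unfold two
      rw [List.map_cons, List.prod_cons, List.map_cons, List.prod_cons, hAd, hPc]
      push_cast
      have he1 : (0 : ℝ) < (y.2.1 : ℝ) := by exact_mod_cast he
      have hf1 : (0 : ℝ) < (y.2.2 : ℝ) := by exact_mod_cast hf
      field_simp
    have hcard : ((((Icc 1 X).filter (fun N : ℕ => Cont μ j G Y Ts D S N (k + 1) c t')).card : ℕ) : ℝ)
        ≤ ∑ y ∈ Nx μ j G Y Ts D (k ∈ S) t', (A * (1 / ((y.2.1 * y.2.2 : ℕ) : ℝ)) + B) := by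
      calc ((((Icc 1 X).filter (fun N : ℕ => Cont μ j G Y Ts D S N (k + 1) c t')).card : ℕ) : ℝ)
          ≤ (((Nx μ j G Y Ts D (k ∈ S) t').biUnion fun y => (Icc 1 X).filter
            (fun N : ℕ => Cont μ j G Y Ts D S N k (two y c) (y.1.2 + y.2.1 * y.2.2))).card : ℝ) := by
            exact_mod_cast Finset.card_le_card hsub
        _ ≤ ∑ y ∈ Nx μ j G Y Ts D (k ∈ S) t', ((((Icc 1 X).filter (fun N : ℕ =>
            Cont μ j G Y Ts D S N k (two y c) (y.1.2 + y.2.1 * y.2.2))).card : ℕ) : ℝ) := by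
            exact_mod_cast Finset.card_biUnion_le
        _ ≤ _ := Finset.sum_le_sum fun y hy => hone y hy
    refine hcard.trans ?_
    rw [Finset.sum_add_distrib, ← Finset.mul_sum, Finset.sum_const, nsmul_eq_mul]
    have hwt := Nx_weight (x := (k ∈ S)) hW hG hj hμ hY hTs h4 hD hGD hTY
    have hnc : ((Nx μ j G Y Ts D (k ∈ S) t').card : ℝ) ≤ Bc G Ts := by
      have := Nx_card (Y := Y) (D := D) (x := (k ∈ S)) hG hj hμ hTs h4
      unfold Bc
      exact_mod_cast this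
    have e1 := mul_le_mul_of_nonneg_left hwt hA0
    have e2 := mul_le_mul_of_nonneg_right hnc hB0
    rw [Finset.prod_range_succ, pow_succ]
    calc A * ∑ y ∈ Nx μ j G Y Ts D (k ∈ S) t', (1 / ((y.2.1 * y.2.2 : ℕ) : ℝ)) +
          ((Nx μ j G Y Ts D (k ∈ S) t').card : ℝ) * B
        ≤ A * (if k ∈ S then QA G Ts / Y else QA G Ts) + Bc G Ts * B := by linarith
      _ = _ := by
          rw [hAd, hBd]
          ring

/-- a bad run gives a continuation -/
theorem run_Cont {μ j G Y T0 Ts D r N : ℕ} {S : Finset ℕ} {n t e f : ℕ → ℕ} (hT0 : 1 ≤ T0)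
    (h1 : ∀ i, i < r → 1 ≤ n i ∧ n i ≤ G ∧ T0 ≤ t i ∧ t i ≤ Ts ∧ 1 ≤ e i ∧ 1 ≤ f i ∧
      D ≤ e i * f i ∧ e i ∣ AA μ j (n i) (t i) ∧ f i ∣ BB μ j (n i) (t i) ∧
      (e i : ℤ) ∣ (N : ℤ) - n i - 1 ∧ (f i : ℤ) ∣ (N : ℤ) - n i + 1 ∧ Nat.gcd (e i) (f i) ≤ 4 * G)
    (hAB : ∀ i, i < r → AA μ j (n i) (t i) ≠ 0 ∧ BB μ j (n i) (t i) ≠ 0)
    (hg : ∀ i i', i < i' → i' < r → Nat.gcd (e i) (e i') ≤ 4 * G ∧ Nat.gcd (e i) (f i') ≤ 4 * G ∧
      Nat.gcd (f i) (e i') ≤ 4 * G ∧ Nat.gcd (f i) (f i') ≤ 4 * G)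
    (h2 : ∀ i, i + 1 < r → n i < n (i + 1) ∧ t i + e i * f i ≤ t (i + 1) ∧
      t (i + 1) ≤ t i + e i * f i + G * (e (i + 1) * f (i + 1)))
    (hS : ∀ i k, i + k + 2 = r → k ∈ S →
      Y * (t (i + 1) - (t i + e i * f i)) < e (i + 1) * f (i + 1)) :
    ∀ (k i : ℕ) (c : List (ℤ × ℕ)), i + k + 1 = r →
      (∀ p ∈ c, ∃ i', i' ≤ i ∧ (p.2 = e i' ∨ p.2 = f i')) →
      c.Pairwise (fun p q => Nat.gcd p.2 q.2 ≤ 4 * G) →
      (∀ p ∈ c, (p.2 : ℤ) ∣ (N : ℤ) - p.1) →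
      Cont μ j G Y Ts D S N k c (t i + e i * f i) := by
  intro k
  induction k with
  | zero => intro i c _ _ h h'; exact ⟨h, h'⟩
  | succ k ih =>
    intro i c hi hc1 hc2 hc3
    obtain ⟨a1, a2, a3, a4, a5, a6, a7, a8, a9, a10, a11, a12⟩ := h1 (i + 1) (by omega)
    obtain ⟨b1, b2, b3⟩ := h2 i (by omega)
    obtain ⟨c1, c2⟩ := hAB (i + 1) (by omega)
    refine ⟨⟨(n (i + 1), t (i + 1)), (e (i + 1), f (i + 1))⟩, ?_, ?_⟩
    · unfold Nx
      split_ifs with hk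
      · rw [mem_Nn, mem_Pr]
        refine ⟨⟨a1, a2⟩, ⟨b2, a4⟩, ⟨⟨a8, c1⟩, ⟨a9, c2⟩⟩, a7, ?_⟩
        have := hS i k (by omega) hk
        show Y * (t (i + 1) - (t i + e i * f i)) ≤ 1 * (e (i + 1) * f (i + 1))
        omega
      · rw [mem_Nn, mem_Pr]
        refine ⟨⟨a1, a2⟩, ⟨b2, a4⟩, ⟨⟨a8, c1⟩, ⟨a9, c2⟩⟩, a7, ?_⟩
        show 1 * (t (i + 1) - (t i + e i * f i)) ≤ G * (e (i + 1) * f (i + 1))
        omega
    · refine ih (i + 1) _ (by omega) ?_ ?_ ?_
      · intro p hp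
        unfold two at hp
        rcases List.mem_cons.1 hp with rfl | hp
        · exact ⟨i + 1, le_rfl, Or.inl rfl⟩
        · rcases List.mem_cons.1 hp with rfl | hp
          · exact ⟨i + 1, le_rfl, Or.inr rfl⟩
          · obtain ⟨i', h, h'⟩ := hc1 p hp
            exact ⟨i', by omega, h'⟩
      · unfold two
        have hge : ∀ p ∈ c, Nat.gcd (e (i + 1)) p.2 ≤ 4 * G ∧ Nat.gcd (f (i + 1)) p.2 ≤ 4 * G := by
          intro p hp
          obtain ⟨i', h, h'⟩ := hc1 p hp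
          obtain ⟨g1, g2, g3, g4⟩ := hg i' (i + 1) (by omega) (by omega)
          rcases h' with h' | h'
          · rw [h', Nat.gcd_comm, Nat.gcd_comm (f (i + 1))]
            exact ⟨g1, g2⟩
          · rw [h', Nat.gcd_comm, Nat.gcd_comm (f (i + 1))]
            exact ⟨g3, g4⟩
        rw [List.pairwise_cons]
        refine ⟨?_, ?_⟩
        · intro p hp
          rcases List.mem_cons.1 hp with rfl | hp
          · exact a12
          · exact (hge p hp).1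
        · rw [List.pairwise_cons]
          exact ⟨fun p hp => (hge p hp).2, hc2⟩
      · intro p hp
        unfold two at hp
        rcases List.mem_cons.1 hp with rfl | hp
        · have : (N : ℤ) - ((n (i + 1) : ℤ) + 1) = (N : ℤ) - n (i + 1) - 1 := by ring
          show (e (i + 1) : ℤ) ∣ (N : ℤ) - ((n (i + 1) : ℤ) + 1)
          rw [this]
          exact a10
        · rcases List.mem_cons.1 hp with rfl | hp
          · have : (N : ℤ) - ((n (i + 1) : ℤ) - 1) = (N : ℤ) - n (i + 1) + 1 := by ring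
            show (f (i + 1) : ℤ) ∣ (N : ℤ) - ((n (i + 1) : ℤ) - 1)
            rw [this]
            exact a11
          · exact hc3 p hp

end CNT

open Finset CNT

open Classical in
theorem t_CNT (hC : S_CRT) (hW : S_WT) : S_CNT := by
  intro μ j G Y T0 Ts D b X hG hj hμ hY hT0 hTs hD hb hGD hTY
  have hG' : (1 : ℝ) ≤ G := by exact_mod_cast hG
  have hY' : (2 : ℝ) ≤ Y := by exact_mod_cast hY
  have hQ1 : 1 ≤ QA G Ts := QA_one hG hTs
  have hQ0 : 0 < QA G Ts := by linarith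
  have hBc0 : 0 ≤ Bc G Ts := by unfold Bc; positivity
  set PP : Finset (Finset ℕ) := ((range (2 * b - 1)).powerset).filter (fun S => b ≤ S.card) with hPP
  have hAB0 : ∀ n t, 1 ≤ n → 1 ≤ t → AA μ j n t ≠ 0 ∧ BB μ j n t ≠ 0 := by
    intro n t hn ht
    have hμt : μ ≤ μ * t := Nat.le_mul_of_pos_right μ ht
    constructor
    · unfold AA
      omega
    · unfold BB
      have h1 : 2 * j * n < μ * t + j * (n * n) := by
        have h2 : j + 1 ≤ μ := hj
        have h3 : 2 * j * n ≤ j + j * (n * n) := by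
          obtain ⟨m, rfl⟩ : ∃ m, n = m + 1 := ⟨n - 1, by omega⟩
          nlinarith [Nat.zero_le (j * (m * m))]
        omega
      omega
  have hsub : (Icc 1 X).filter (fun N : ℕ => BadRun μ j G Y T0 Ts D (2 * b) N) ⊆
      PP.biUnion fun S => (Nn μ j G Ts D 0 0 1).biUnion fun y => (Icc 1 X).filter
        (fun N : ℕ => Cont μ j G Y Ts D S N (2 * b - 1) (two y []) (y.1.2 + y.2.1 * y.2.2)) := by
    intro N hN
    obtain ⟨hN1, n, t, e, f, h1, hg, h2, h3⟩ := Finset.mem_filter.1 hN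
    set S : Finset ℕ := (range (2 * b - 1)).filter (fun k =>
      Y * (t (2 * b - 1 - 1 - k + 1) - (t (2 * b - 1 - 1 - k) +
        e (2 * b - 1 - 1 - k) * f (2 * b - 1 - 1 - k))) <
        e (2 * b - 1 - 1 - k + 1) * f (2 * b - 1 - 1 - k + 1)) with hS
    have hSc : b ≤ S.card := by
      have e1 : S.card = ((range (2 * b - 1)).filter
          (fun i => Y * (t (i + 1) - (t i + e i * f i)) < e (i + 1) * f (i + 1))).card := by
        rw [hS, Finset.card_filter, Finset.card_filter]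
        exact Finset.sum_range_reflect (fun i => if Y * (t (i + 1) - (t i + e i * f i)) <
          e (i + 1) * f (i + 1) then 1 else 0) (2 * b - 1)
      have e2 : 2 * b ≤ 2 * ((range (2 * b - 1)).filter
          (fun i => Y * (t (i + 1) - (t i + e i * f i)) < e (i + 1) * f (i + 1))).card := by
        convert h3
      omega
    rw [Finset.mem_biUnion]
    refine ⟨S, Finset.mem_filter.2 ⟨Finset.mem_powerset.2 (Finset.filter_subset _ _), hSc⟩, ?_⟩
    obtain ⟨a1, a2, a3, a4, a5, a6, a7, a8, a9, a10, a11, a12⟩ := h1 0 (by omega)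
    have hAB : ∀ i, i < 2 * b → AA μ j (n i) (t i) ≠ 0 ∧ BB μ j (n i) (t i) ≠ 0 := by
      intro i hi
      obtain ⟨b1, _, b3, _⟩ := h1 i hi
      exact hAB0 _ _ b1 (by omega)
    obtain ⟨c1, c2⟩ := hAB 0 (by omega)
    rw [Finset.mem_biUnion]
    refine ⟨⟨(n 0, t 0), (e 0, f 0)⟩, ?_, Finset.mem_filter.2 ⟨hN1, ?_⟩⟩
    · rw [mem_Nn, mem_Pr]
      refine ⟨⟨a1, a2⟩, ⟨by show 1 ≤ t 0; omega, a4⟩, ⟨⟨a8, c1⟩, ⟨a9, c2⟩⟩, a7, ?_⟩
      rw [zero_mul, zero_mul]
    refine run_Cont hT0 h1 hAB hg h2 ?_ (2 * b - 1) 0 _ (by omega) ?_ ?_ ?_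
    · intro i k hik hk
      have := (Finset.mem_filter.1 hk).2
      have e : 2 * b - 1 - 1 - k = i := by omega
      rw [e] at this
      exact this
    · intro p hp
      unfold two at hp
      rcases List.mem_cons.1 hp with rfl | hp
      · exact ⟨0, le_rfl, Or.inl rfl⟩
      · rw [List.mem_singleton] at hp
        subst hp
        exact ⟨0, le_rfl, Or.inr rfl⟩
    · unfold two
      rw [List.pairwise_cons]
      refine ⟨?_, List.pairwise_singleton _ _⟩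
      intro p hp
      rw [List.mem_singleton] at hp
      subst hp
      exact a12
    · intro p hp
      unfold two at hp
      rcases List.mem_cons.1 hp with rfl | hp
      · have : (N : ℤ) - ((n 0 : ℤ) + 1) = (N : ℤ) - n 0 - 1 := by ring
        show (e 0 : ℤ) ∣ (N : ℤ) - ((n 0 : ℤ) + 1)
        rw [this]
        exact a10
      · rw [List.mem_singleton] at hp
        subst hp
        have : (N : ℤ) - ((n 0 : ℤ) - 1) = (N : ℤ) - n 0 + 1 := by ring
        show (f 0 : ℤ) ∣ (N : ℤ) - ((n 0 : ℤ) - 1)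
        rw [this]
        exact a11
  set Z : ℝ := (X : ℝ) * (4 * G : ℝ) ^ ((4 * b) ^ 2) * (QA G Ts) ^ (2 * b) / (Y : ℝ) ^ b +
    (Bc G Ts) ^ (2 * b - 1) with hZ
  have hZ0 : 0 ≤ Z := by positivity
  have hone : ∀ S ∈ PP, ∀ y ∈ Nn μ j G Ts D 0 0 1,
      ((((Icc 1 X).filter (fun N : ℕ => Cont μ j G Y Ts D S N (2 * b - 1) (two y [])
        (y.1.2 + y.2.1 * y.2.2))).card : ℕ) : ℝ) ≤ Z := by
    intro S hS y hy
    rw [hPP, Finset.mem_filter, Finset.mem_powerset] at hS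
    obtain ⟨he, hf⟩ := Pr_pos (mem_Nn.1 hy).2.2
    have h1 := claim hC hW μ j G Y Ts D b X S hG hj hμ hY hTs hD hGD hTY (2 * b - 1) (two y [])
      (y.1.2 + y.2.1 * y.2.2) (by
        intro p hp
        unfold two at hp
        rcases List.mem_cons.1 hp with rfl | hp
        · exact he
        · rw [List.mem_singleton] at hp
          subst hp
          exact hf) (by
            unfold two
            simp only [List.length_cons, List.length_nil]
            omega) (by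
              have := Nat.mul_pos he hf
              omega)
    refine h1.trans ?_
    rw [hZ]
    have h2 : ∏ i ∈ range (2 * b - 1), (if i ∈ S then QA G Ts / Y else QA G Ts) ≤
        (QA G Ts) ^ (2 * b) / (Y : ℝ) ^ b := by
      have e1 : ∏ i ∈ range (2 * b - 1), (if i ∈ S then QA G Ts / Y else QA G Ts) =
          ∏ i ∈ range (2 * b - 1), (QA G Ts * (if i ∈ S then (1 / (Y : ℝ)) else 1)) := by
        refine Finset.prod_congr rfl fun i _ => ?_
        split_ifs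
        · ring
        · ring
      have e2 : ∏ i ∈ range (2 * b - 1), (if i ∈ S then (1 / (Y : ℝ)) else 1) =
          (1 / (Y : ℝ)) ^ S.card := by
        rw [Finset.prod_ite_mem, Finset.inter_eq_right.2 hS.1, Finset.prod_const]
      rw [e1, Finset.prod_mul_distrib, Finset.prod_const, Finset.card_range, e2]
      have e3 : (QA G Ts) ^ (2 * b - 1) ≤ (QA G Ts) ^ (2 * b) := pow_le_pow_right₀ hQ1 (by omega)
      have e4 : (1 / (Y : ℝ)) ^ S.card ≤ (1 / (Y : ℝ)) ^ b :=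
        pow_le_pow_of_le_one (by positivity) (by rw [div_le_one (by linarith)]; linarith) hS.2
      calc (QA G Ts) ^ (2 * b - 1) * (1 / (Y : ℝ)) ^ S.card ≤
          (QA G Ts) ^ (2 * b) * (1 / (Y : ℝ)) ^ b :=
            mul_le_mul e3 e4 (by positivity) (by positivity)
        _ = _ := by rw [one_div, inv_pow, div_eq_mul_inv]
    have h3 : (X : ℝ) * (4 * G : ℝ) ^ ((4 * b) ^ 2) /
        (((two y []).map Prod.snd).prod : ℕ) ≤ (X : ℝ) * (4 * G : ℝ) ^ ((4 * b) ^ 2) := by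
      apply div_le_self (by positivity)
      unfold two
      simp only [List.map_cons, List.map_nil, List.prod_cons, List.prod_nil, mul_one]
      have := Nat.mul_pos he hf
      exact_mod_cast this
    have h4 := mul_le_mul h3 h2 (Finset.prod_nonneg fun i _ => by split_ifs <;> positivity)
      (by positivity)
    have h5 : (X : ℝ) * (4 * G : ℝ) ^ ((4 * b) ^ 2) * ((QA G Ts) ^ (2 * b) / (Y : ℝ) ^ b) =
        (X : ℝ) * (4 * G : ℝ) ^ ((4 * b) ^ 2) * (QA G Ts) ^ (2 * b) / (Y : ℝ) ^ b := by ring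
    linarith
  have hPPc : (PP.card : ℝ) ≤ 4 ^ b := by
    have h1 : PP.card ≤ 2 ^ (2 * b - 1) := by
      refine (Finset.card_filter_le _ _).trans ?_
      rw [Finset.card_powerset, Finset.card_range]
    have h2 : 2 ^ (2 * b - 1) ≤ 4 ^ b := by
      calc 2 ^ (2 * b - 1) ≤ 2 ^ (2 * b) := Nat.pow_le_pow_right (by norm_num) (by omega)
        _ = 4 ^ b := by rw [pow_mul]; norm_num
    exact_mod_cast h1.trans h2
  have hnc : ((Nn μ j G Ts D 0 0 1).card : ℝ) ≤ Bc G Ts := by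
    have := Nn_card (P := 0) (Q := 0) (D := D) (t' := 1) hG hj hμ hTs le_rfl
    unfold Bc
    exact_mod_cast this
  have hmain : ((((Icc 1 X).filter (fun N : ℕ => BadRun μ j G Y T0 Ts D (2 * b) N)).card : ℕ) : ℝ) ≤
      4 ^ b * (Bc G Ts * Z) := by
    calc ((((Icc 1 X).filter (fun N : ℕ => BadRun μ j G Y T0 Ts D (2 * b) N)).card : ℕ) : ℝ)
        ≤ ((PP.biUnion fun S => (Nn μ j G Ts D 0 0 1).biUnion fun y => (Icc 1 X).filter
          (fun N : ℕ => Cont μ j G Y Ts D S N (2 * b - 1) (two y [])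
            (y.1.2 + y.2.1 * y.2.2))).card : ℝ) := by
          exact_mod_cast Finset.card_le_card hsub
      _ ≤ ∑ S ∈ PP, (((Nn μ j G Ts D 0 0 1).biUnion fun y => (Icc 1 X).filter
          (fun N : ℕ => Cont μ j G Y Ts D S N (2 * b - 1) (two y [])
            (y.1.2 + y.2.1 * y.2.2))).card : ℝ) := by
          exact_mod_cast Finset.card_biUnion_le
      _ ≤ ∑ S ∈ PP, (Bc G Ts * Z) := by
          refine Finset.sum_le_sum fun S hS => ?_
          calc (((Nn μ j G Ts D 0 0 1).biUnion fun y => (Icc 1 X).filter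
              (fun N : ℕ => Cont μ j G Y Ts D S N (2 * b - 1) (two y [])
                (y.1.2 + y.2.1 * y.2.2))).card : ℝ)
              ≤ ∑ y ∈ Nn μ j G Ts D 0 0 1, ((((Icc 1 X).filter
              (fun N : ℕ => Cont μ j G Y Ts D S N (2 * b - 1) (two y [])
                (y.1.2 + y.2.1 * y.2.2))).card : ℕ) : ℝ) := by
                exact_mod_cast Finset.card_biUnion_le
            _ ≤ ∑ _y ∈ Nn μ j G Ts D 0 0 1, Z := Finset.sum_le_sum fun y hy => hone S hS y hy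
            _ = ((Nn μ j G Ts D 0 0 1).card : ℝ) * Z := by rw [Finset.sum_const, nsmul_eq_mul]
            _ ≤ Bc G Ts * Z := mul_le_mul_of_nonneg_right hnc hZ0
      _ = (PP.card : ℝ) * (Bc G Ts * Z) := by
          rw [Finset.sum_const, nsmul_eq_mul]
      _ ≤ 4 ^ b * (Bc G Ts * Z) :=
          mul_le_mul_of_nonneg_right hPPc (by positivity)
  refine hmain.trans (le_of_eq ?_)
  have hp : (Bc G Ts) ^ (2 * b) = (Bc G Ts) ^ (2 * b - 1) * Bc G Ts := by
    rw [← pow_succ]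
    congr 1
    omega
  have e1 : ((G : ℝ) * Ts * (8 * G * Ts) ^ 2) = Bc G Ts := rfl
  have e2 : (64 * (G : ℝ) ^ 3 * (1 + Real.log (8 * G * Ts)) ^ 17) = QA G Ts := rfl
  rw [e1, e2, hp, hZ]
  ring

end Pool.Agent.K93.SD
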