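import Pool.Agent.K93.SD.Stm

/-!
# SD/CRT: counting the `k ≤ X` with prescribed divisors of `k - ρ` (adapted from `N333/GR/Crt.lean`)
-/

set_option autoImplicit false

namespace Pool.Agent.K93.SD

open Finset

namespace CRT

theorem dvd_lc (l : List ℕ) (d : ℕ) (h : d ∈ l) : d ∣ l.foldr Nat.lcm 1 := by
  induction l with
  | nil => simp at h
  | cons e l ih =>
    simp only [List.foldr_cons]
    rcases List.mem_cons.1 h with h | h
    · subst h; exact Nat.dvd_lcm_left _ _
    · exact (ih h).trans (Nat.dvd_lcm_right _ _)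

theorem lc_dvd (l : List ℕ) (m : ℕ) (h : ∀ d ∈ l, d ∣ m) : l.foldr Nat.lcm 1 ∣ m := by
  induction l with
  | nil => simp
  | cons e l ih =>
    simp only [List.foldr_cons]
    exact Nat.lcm_dvd (h e (by simp)) (ih (fun d hd => h d (by simp [hd])))

theorem lc_pos (l : List ℕ) (h : ∀ d ∈ l, 0 < d) : 0 < l.foldr Nat.lcm 1 := by
  induction l with
  | nil => simp
  | cons e l ih =>
    simp only [List.foldr_cons]
    exact Nat.lcm_pos (h e (by simp)) (ih (fun d hd => h d (by simp [hd])))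

theorem gcd_lc_le (d G : ℕ) (hG : 1 ≤ G) (l : List ℕ)
    (h : ∀ e ∈ l, 0 < e ∧ Nat.gcd d e ≤ G) :
    Nat.gcd d (l.foldr Nat.lcm 1) ≤ G ^ l.length := by
  induction l with
  | nil => simp
  | cons e l ih =>
    simp only [List.foldr_cons, List.length_cons]
    have hl := ih (fun x hx => h x (by simp [hx]))
    have he := h e (by simp)
    have hL : 0 < l.foldr Nat.lcm 1 := lc_pos l (fun x hx => (h x (by simp [hx])).1)
    have h1 : Nat.gcd d (Nat.lcm e (l.foldr Nat.lcm 1)) ∣
        Nat.gcd d e * Nat.gcd d (l.foldr Nat.lcm 1) :=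
      (Nat.gcd_dvd_gcd_of_dvd_right d (Nat.lcm_dvd_mul _ _)).trans
        (Nat.gcd_mul_right_dvd_mul_gcd d e _)
    have h2 : 0 < Nat.gcd d e * Nat.gcd d (l.foldr Nat.lcm 1) :=
      Nat.mul_pos (Nat.gcd_pos_of_pos_right _ he.1) (Nat.gcd_pos_of_pos_right _ hL)
    calc Nat.gcd d (Nat.lcm e (l.foldr Nat.lcm 1))
        ≤ Nat.gcd d e * Nat.gcd d (l.foldr Nat.lcm 1) := Nat.le_of_dvd h2 h1
      _ ≤ G * G ^ l.length := Nat.mul_le_mul he.2 hl
      _ = G ^ (l.length + 1) := by ring

theorem prod_le (G : ℕ) (hG : 1 ≤ G) (l : List ℕ) (hpos : ∀ d ∈ l, 0 < d)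
    (h : l.Pairwise (fun d e => Nat.gcd d e ≤ G)) :
    l.prod ≤ l.foldr Nat.lcm 1 * G ^ (l.length ^ 2) := by
  induction l with
  | nil => simp
  | cons d l ih =>
    rw [List.pairwise_cons] at h
    have hl := ih (fun x hx => hpos x (by simp [hx])) h.2
    have hg := gcd_lc_le d G hG l (fun e he => ⟨hpos e (by simp [he]), h.1 e he⟩)
    simp only [List.foldr_cons, List.length_cons, List.prod_cons]
    set L := l.foldr Nat.lcm 1 with hL
    calc d * l.prod ≤ d * (L * G ^ (l.length ^ 2)) := Nat.mul_le_mul_left _ hl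
      _ = (Nat.gcd d L * Nat.lcm d L) * G ^ (l.length ^ 2) := by rw [Nat.gcd_mul_lcm]; ring
      _ ≤ (G ^ l.length * Nat.lcm d L) * G ^ (l.length ^ 2) := by gcongr
      _ = Nat.lcm d L * G ^ (l.length + l.length ^ 2) := by rw [pow_add]; ring
      _ ≤ Nat.lcm d L * G ^ ((l.length + 1) ^ 2) := by
          apply Nat.mul_le_mul_left
          apply Nat.pow_le_pow_right hG
          nlinarith

end CRT

open CRT in
theorem t_CRT : S_CRT := by
  intro H X c hH hpw hc
  classical
  set S := (Icc 1 X).filter (fun k : ℕ => ∀ p ∈ c, (p.2 : ℤ) ∣ (k : ℤ) - p.1) with hS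
  have hPpos : 0 < (c.map Prod.snd).prod := by
    apply List.prod_pos
    intro d hd
    obtain ⟨p, hp, rfl⟩ := List.mem_map.1 hd
    exact hc p hp
  set l := c.map Prod.snd with hl
  have hlpos : ∀ d ∈ l, 0 < d := by
    intro d hd
    obtain ⟨p, hp, rfl⟩ := List.mem_map.1 hd
    exact hc p hp
  set L := l.foldr Nat.lcm 1 with hL
  have hLpos : 0 < L := lc_pos l hlpos
  have hpair : l.Pairwise (fun d e => Nat.gcd d e ≤ H) := by
    rw [hl, List.pairwise_map]
    exact hpw
  have hP := prod_le H hH l hlpos hpair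
  have hlen : l.length = c.length := by simp [hl]
  rw [hlen] at hP
  have hinj : ∀ N ∈ S, ∀ N' ∈ S, N / L = N' / L → N ≤ N' → N = N' := by
    intro N hN N' hN' hdiv hle
    rw [hS, mem_filter] at hN hN'
    have h1 : L ∣ N' - N := by
      apply lc_dvd
      intro d hd
      obtain ⟨p, hp, rfl⟩ := List.mem_map.1 hd
      have h2 := dvd_sub (hN'.2 p hp) (hN.2 p hp)
      have he : (N' : ℤ) - p.1 - ((N : ℤ) - p.1) = ((N' - N : ℕ) : ℤ) := by
        push_cast [Nat.cast_sub hle]; ring
      rw [he] at h2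
      exact Int.natCast_dvd_natCast.1 h2
    obtain ⟨k, hk⟩ := h1
    have h2 : N' = N + L * k := by omega
    have h3 : N' / L = N / L + k := by
      rw [h2, Nat.add_mul_div_left _ _ hLpos]
    have h4 : k = 0 := by omega
    rw [h2, h4]; simp
  have hcard : S.card ≤ X / L + 1 := by
    have h1 : S.card ≤ (range (X / L + 1)).card := by
      apply Finset.card_le_card_of_injOn (fun N => N / L)
      · intro N hN
        have hN' : N ∈ S := hN
        rw [hS, mem_filter, mem_Icc] at hN'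
        have : N / L ≤ X / L := Nat.div_le_div_right hN'.1.2
        simp only [coe_range, Set.mem_Iio]
        omega
      · intro N hN N' hN' he
        have he' : N / L = N' / L := he
        rcases le_total N N' with h | h
        · exact hinj N hN N' hN' he' h
        · exact (hinj N' hN' N hN he'.symm h).symm
    simpa using h1
  have hLr : (0 : ℝ) < L := by exact_mod_cast hLpos
  have hPr : (0 : ℝ) < ((l.prod : ℕ) : ℝ) := by exact_mod_cast hPpos
  have hP' : ((l.prod : ℕ) : ℝ) ≤ (L : ℝ) * (H : ℝ) ^ (c.length ^ 2) := by exact_mod_cast hP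
  calc (S.card : ℝ) ≤ ((X / L + 1 : ℕ) : ℝ) := by exact_mod_cast hcard
    _ = ((X / L : ℕ) : ℝ) + 1 := by push_cast; ring
    _ ≤ (X : ℝ) / L + 1 := by
        have := @Nat.cast_div_le ℝ _ _ _ X L
        linarith
    _ ≤ (X : ℝ) * (H : ℝ) ^ (c.length ^ 2) / ((l.prod : ℕ) : ℝ) + 1 := by
        have h1 : (X : ℝ) / L ≤ (X : ℝ) * (H : ℝ) ^ (c.length ^ 2) / ((l.prod : ℕ) : ℝ) := by
          rw [div_le_div_iff₀ hLr hPr]
          calc (X : ℝ) * ((l.prod : ℕ) : ℝ) ≤ X * ((L : ℝ) * (H : ℝ) ^ (c.length ^ 2)) := by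
                gcongr
            _ = _ := by ring
        linarith

end Pool.Agent.K93.SD
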