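import Pool.Agent.K93.SD.Stm

/-! (EXC) the exceptional set (helper54). -/

set_option autoImplicit false

namespace Pool.Agent.K93.SD

open Finset

namespace EXC

theorem p2 {a b : ℕ} (h : a ≤ b) : 2 ^ a ≤ 2 ^ b := Nat.pow_le_pow_right (by norm_num) h

theorem uu_ge (h : ℕ) (hh : 1 ≤ h) : 100000 * h ≤ uu h := by
  unfold uu
  nlinarith

theorem walk_mono {k μ j R R' : ℕ} {T e f : ℕ → ℕ} (hR : R' ≤ R) (h : Walk k μ j R T e f) :
    Walk k μ j R' T e f where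
  start := h.start
  first := fun h1 => h.first (h1.trans hR)
  epos := fun n h1 h2 => h.epos n h1 (h2.trans hR)
  fpos := fun n h1 h2 => h.fpos n h1 (h2.trans hR)
  step := fun n h1 h2 => h.step n h1 (h2.trans hR)
  eT := fun n h1 h2 => h.eT n h1 (h2.trans hR)
  fT := fun n h1 h2 => h.fT n h1 (h2.trans hR)
  eK := fun n h1 h2 => h.eK n h1 (h2.trans hR)
  fK := fun n h1 h2 => h.fK n h1 (h2.trans hR)

/-- the levels are at most `Ts` -/
theorem lev (h m : ℕ) (hh : 1 ≤ h) (hm : m ≤ 64 * em h) : (4 * La h) ^ m * Tz h ≤ Ts h := by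
  have hu := uu_ge h hh
  have e1 : 4 * La h = 2 ^ (20 * h + 2) := by
    unfold La
    rw [pow_add]
    ring
  rw [e1, ← pow_mul]
  unfold Tz Ts
  rw [← pow_add]
  apply p2
  have h1 : (20 * h + 2) * m ≤ (20 * h + 2) * (64 * em h) := Nat.mul_le_mul_left _ hm
  have h2 : (20 * h + 2) * 64 ≤ 2 * uu h := by omega
  calc (20 * h + 2) * m + 6 * em h * uu h ≤ (20 * h + 2) * (64 * em h) + 6 * em h * uu h := by
        omega
    _ = ((20 * h + 2) * 64) * em h + 6 * em h * uu h := by ring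
    _ ≤ (2 * uu h) * em h + 6 * em h * uu h := by gcongr
    _ = 8 * em h * uu h := by ring

theorem Tz_ge (h : ℕ) (hh : 1 ≤ h) : 2 ^ (2 * h + 4) < Tz h := by
  have hu := uu_ge h hh
  unfold Tz
  apply Nat.pow_lt_pow_right (by norm_num)
  have h1 : 1 ≤ em h := by unfold em; omega
  have h2 : uu h ≤ 6 * em h * uu h := by nlinarith
  omega

open Classical in
/-- the exceptional set -/
noncomputable def E (h X : ℕ) : Finset ℕ :=
  (Icc 1 (2 * 2 ^ h) ×ˢ range (2 * 2 ^ h)).biUnion fun p => if p.2 < p.1 then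
    ((Icc 1 (2 ^ h) ×ˢ range (64 * em h)).biUnion fun q =>
      (Icc 1 X).filter fun k => Leap p.1 p.2 q.1 ((4 * La h) ^ q.2 * Tz h) (La h) k) ∪
    ((range (6 * h)).biUnion fun i =>
      (Icc 1 X).filter fun k => BadRun p.1 p.2 (2 ^ h) (Yy h) (Tz h) (Ts h) (Dk h i)
        (2 * (32 * em h)) k) else ∅

open Classical in
theorem leap_card (hL : S_LEAP) (h X μ j n m : ℕ) (hh : 1 ≤ h) (hn : 1 ≤ n) (hn2 : n ≤ 2 ^ h)
    (hj : j < μ) (hμ : μ ≤ 2 * 2 ^ h) (hm : m < 64 * em h) :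
    (((Icc 1 X).filter fun k => Leap μ j n ((4 * La h) ^ m * Tz h) (La h) k).card : ℝ) ≤
      256 * 2 ^ h * X * (1 + Real.log (8 * 2 ^ h * Ts h)) ^ 16 / La h +
      16 * 2 ^ h * Ts h * (1 + Real.log (8 * 2 ^ h * Ts h)) ^ 16 := by
  have hB := lev h m hh hm.le
  have hTz := Tz_ge h hh
  have hLa : 1 ≤ La h := Nat.one_le_two_pow
  have h4 : 1 ≤ (4 * La h) ^ m := Nat.one_le_pow _ _ (by omega)
  have hBz : Tz h ≤ (4 * La h) ^ m * Tz h := Nat.le_mul_of_pos_left _ h4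
  have h8 : 8 * (2 ^ h) ^ 2 ≤ (4 * La h) ^ m * Tz h := by
    have : 8 * (2 ^ h) ^ 2 ≤ 2 ^ (2 * h + 4) := by
      rw [← pow_mul, show 2 ^ (2 * h + 4) = 2 ^ (h * 2) * 16 by
        rw [pow_add]; ring_nf]
      have : 0 < 2 ^ (h * 2) := by positivity
      omega
    omega
  have key := hL (2 ^ h) μ j n ((4 * La h) ^ m * Tz h) (La h) X hn hn2 hj hμ h8 hLa
  set B := (4 * La h) ^ m * Tz h with hBd
  refine key.trans ?_
  have hB1 : 1 ≤ B := (lt_of_le_of_lt (Nat.zero_le _) hTz).trans_le hBz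
  have hBR : (1 : ℝ) ≤ B := by exact_mod_cast hB1
  have hBT : (B : ℝ) ≤ Ts h := by exact_mod_cast hB
  have h2h : (1 : ℝ) ≤ 2 ^ h := one_le_pow₀ (by norm_num)
  have hlog0 : 0 ≤ Real.log (8 * ((2 ^ h : ℕ) : ℝ) * (B : ℝ)) := by
    apply Real.log_nonneg
    push_cast
    nlinarith [mul_le_mul h2h hBR (by norm_num) (by positivity)]
  have hlog1 : Real.log (8 * ((2 ^ h : ℕ) : ℝ) * (B : ℝ)) ≤ Real.log (8 * 2 ^ h * Ts h) := by
    apply Real.log_le_log
    · positivity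
    · push_cast
      gcongr
  have hLaR : (0 : ℝ) < La h := by exact_mod_cast hLa
  have hp : (1 + Real.log (8 * ((2 ^ h : ℕ) : ℝ) * (B : ℝ))) ^ 16 ≤
      (1 + Real.log (8 * 2 ^ h * Ts h)) ^ 16 := by gcongr
  have hp0 : 0 ≤ (1 + Real.log (8 * ((2 ^ h : ℕ) : ℝ) * (B : ℝ))) ^ 16 := by positivity
  push_cast at hp hp0 ⊢
  gcongr

open Classical in
theorem run_card (hC : S_CNT) (h X μ j i : ℕ) (hh : 1 ≤ h)
    (hj : j < μ) (hμ : μ ≤ 2 * 2 ^ h) (hi : i < 6 * h) :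
    (((Icc 1 X).filter fun k => BadRun μ j (2 ^ h) (Yy h) (Tz h) (Ts h) (Dk h i)
        (2 * (32 * em h)) k).card : ℝ) ≤
      4 ^ (32 * em h) * ((X : ℝ) * (4 * 2 ^ h : ℝ) ^ ((4 * (32 * em h)) ^ 2) *
      (2 ^ h * Ts h * (8 * 2 ^ h * Ts h) ^ 2) *
      (64 * ((2 : ℝ) ^ h) ^ 3 * (1 + Real.log (8 * 2 ^ h * Ts h)) ^ 17) ^ (2 * (32 * em h)) /
        (Yy h : ℝ) ^ (32 * em h) +
      (2 ^ h * Ts h * (8 * 2 ^ h * Ts h) ^ 2) ^ (2 * (32 * em h))) := by
  have hu := uu_ge h hh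
  have he : em h = 6 * h + 4 := rfl
  have key := hC μ j (2 ^ h) (Yy h) (Tz h) (Ts h) (Dk h i) (32 * em h) X Nat.one_le_two_pow hj hμ
    ?_ Nat.one_le_two_pow ?_ Nat.one_le_two_pow (by omega) ?_ ?_
  · refine key.trans (le_of_eq ?_)
    push_cast
    rfl
  · -- `2 ≤ Yy`
    calc 2 = 2 ^ 1 := by norm_num
      _ ≤ Yy h := p2 (by omega)
  · -- `4 G² ≤ Ts`
    have h1 : uu h ≤ 8 * em h * uu h := by nlinarith
    calc 4 * (2 ^ h) ^ 2 = 2 ^ (2 + h * 2) := by rw [pow_add, pow_mul]; norm_num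
      _ ≤ Ts h := p2 (by omega)
  · -- `G D ≤ Ts`
    unfold Dk Ts
    rw [← pow_add]
    apply p2
    have h1 : (6 * em h - 2 - i) * uu h ≤ (6 * em h) * uu h := Nat.mul_le_mul_right _ (by omega)
    have h2 : h ≤ 2 * em h * uu h := by nlinarith
    calc h + (6 * em h - 2 - i) * uu h ≤ 2 * em h * uu h + 6 * em h * uu h := by omega
      _ = 8 * em h * uu h := by ring
  · -- `8 G Ts Y² ≤ D²`
    unfold Dk Ts Yy
    have e : 8 * 2 ^ h * 2 ^ (8 * em h * uu h) * (2 ^ (uu h - h - 2)) ^ 2 =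
        2 ^ (3 + h + 8 * em h * uu h + (uu h - h - 2) * 2) := by
      rw [pow_add, pow_add, pow_add, pow_mul _ (uu h - h - 2) 2]
      norm_num
    rw [e, ← pow_mul]
    apply p2
    have h1 : (30 * h + 23) * uu h ≤ (6 * em h - 2 - i) * uu h :=
      Nat.mul_le_mul_right _ (by omega)
    have h2 : 8 * em h * uu h = (48 * h + 32) * uu h := by rw [he]; ring
    have h3 : (48 * h + 32) * uu h + 2 * uu h = (48 * h + 34) * uu h := by ring
    have h4 : (48 * h + 34) * uu h ≤ (30 * h + 23) * uu h * 2 := by nlinarith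
    omega

theorem nnB (X T Y L : ℝ) (hX : 0 ≤ X) (hT : 0 ≤ T) (hY : 0 ≤ Y) (hL : 0 ≤ L) (h q r : ℕ) :
    0 ≤ 4 ^ q * (X * (4 * 2 ^ h : ℝ) ^ r * (2 ^ h * T * (8 * 2 ^ h * T) ^ 2) *
      (64 * ((2 : ℝ) ^ h) ^ 3 * (1 + L) ^ 17) ^ (2 * q) / Y ^ q +
      (2 ^ h * T * (8 * 2 ^ h * T) ^ 2) ^ (2 * q)) := by
  positivity

theorem nnC (h m : ℕ) (A B : ℝ) (hA : 0 ≤ A) (hB : 0 ≤ B) :
    0 ≤ 2 ^ h * (64 * (m : ℝ)) * A + (6 * (h : ℝ)) * B := by
  positivity

open Classical in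
theorem E_card (hL : S_LEAP) (hC : S_CNT) (h X : ℕ) (hh : 1 ≤ h) :
    ((E h X).card : ℝ) ≤ (2 * 2 ^ h : ℝ) ^ 2 * (2 ^ h * (64 * em h) *
      (256 * 2 ^ h * X * (1 + Real.log (8 * 2 ^ h * Ts h)) ^ 16 / La h +
      16 * 2 ^ h * Ts h * (1 + Real.log (8 * 2 ^ h * Ts h)) ^ 16) +
    (6 * h) * (4 ^ (32 * em h) * ((X : ℝ) * (4 * 2 ^ h : ℝ) ^ ((4 * (32 * em h)) ^ 2) *
      (2 ^ h * Ts h * (8 * 2 ^ h * Ts h) ^ 2) *
      (64 * ((2 : ℝ) ^ h) ^ 3 * (1 + Real.log (8 * 2 ^ h * Ts h)) ^ 17) ^ (2 * (32 * em h)) /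
        (Yy h : ℝ) ^ (32 * em h) +
      (2 ^ h * Ts h * (8 * 2 ^ h * Ts h) ^ 2) ^ (2 * (32 * em h))))) := by
  set A : ℝ := 256 * 2 ^ h * X * (1 + Real.log (8 * 2 ^ h * Ts h)) ^ 16 / La h +
      16 * 2 ^ h * Ts h * (1 + Real.log (8 * 2 ^ h * Ts h)) ^ 16 with hA
  set B : ℝ := 4 ^ (32 * em h) * ((X : ℝ) * (4 * 2 ^ h : ℝ) ^ ((4 * (32 * em h)) ^ 2) *
      (2 ^ h * Ts h * (8 * 2 ^ h * Ts h) ^ 2) *
      (64 * ((2 : ℝ) ^ h) ^ 3 * (1 + Real.log (8 * 2 ^ h * Ts h)) ^ 17) ^ (2 * (32 * em h)) /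
        (Yy h : ℝ) ^ (32 * em h) +
      (2 ^ h * Ts h * (8 * 2 ^ h * Ts h) ^ 2) ^ (2 * (32 * em h))) with hB
  have hTs1 : (1 : ℝ) ≤ Ts h := by exact_mod_cast (Nat.one_le_two_pow : 1 ≤ Ts h)
  have h2h : (1 : ℝ) ≤ 2 ^ h := one_le_pow₀ (by norm_num)
  have hlog0 : 0 ≤ Real.log (8 * 2 ^ h * (Ts h : ℝ)) := by
    apply Real.log_nonneg
    nlinarith [mul_le_mul h2h hTs1 (by norm_num) (by positivity)]
  have hA0 : 0 ≤ A := by rw [hA]; positivity
  have hB0 : 0 ≤ B := nnB X (Ts h) (Yy h) (Real.log (8 * 2 ^ h * (Ts h : ℝ))) (Nat.cast_nonneg _)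
    (Nat.cast_nonneg _) (Nat.cast_nonneg _) hlog0 h (32 * em h) ((4 * (32 * em h)) ^ 2)
  have hE : ((E h X).card : ℝ) ≤ ∑ p ∈ (Icc 1 (2 * 2 ^ h) ×ˢ range (2 * 2 ^ h)),
      (2 ^ h * (64 * em h) * A + (6 * h) * B : ℝ) := by
    unfold E
    refine (Nat.cast_le.2 Finset.card_biUnion_le).trans ?_
    rw [Nat.cast_sum]
    refine Finset.sum_le_sum fun p hp => ?_
    rw [mem_product, mem_Icc, mem_range] at hp
    split_ifs with hlt
    · refine (Nat.cast_le.2 (Finset.card_union_le _ _)).trans ?_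
      rw [Nat.cast_add]
      refine add_le_add ?_ ?_
      · refine (Nat.cast_le.2 Finset.card_biUnion_le).trans ?_
        rw [Nat.cast_sum]
        calc _ ≤ ∑ q ∈ (Icc 1 (2 ^ h) ×ˢ range (64 * em h)), A := by
              refine Finset.sum_le_sum fun q hq => ?_
              rw [mem_product, mem_Icc, mem_range] at hq
              exact leap_card hL h X p.1 p.2 q.1 q.2 hh hq.1.1 hq.1.2 hlt hp.1.2 hq.2
          _ = 2 ^ h * (64 * em h) * A := by
              rw [Finset.sum_const, Finset.card_product, Nat.card_Icc, card_range, nsmul_eq_mul,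
                Nat.add_sub_cancel]
              push_cast
              ring
      · refine (Nat.cast_le.2 Finset.card_biUnion_le).trans ?_
        rw [Nat.cast_sum]
        calc _ ≤ ∑ i ∈ range (6 * h), B := by
              refine Finset.sum_le_sum fun i hi => ?_
              exact run_card hC h X p.1 p.2 i hh hlt hp.1.2 (mem_range.1 hi)
          _ = (6 * h) * B := by
              rw [Finset.sum_const, card_range, nsmul_eq_mul]
              push_cast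
              ring
    · rw [card_empty, Nat.cast_zero]
      exact nnC h (em h) A B hA0 hB0
  refine hE.trans (le_of_eq ?_)
  rw [Finset.sum_const, Finset.card_product, Nat.card_Icc, card_range, nsmul_eq_mul,
    Nat.add_sub_cancel]
  push_cast
  ring

end EXC

theorem t_EXC (hL : S_LEAP) (hC : S_CNT) (hB : S_BIG) (hR : S_RUN) (hP : S_PAR) : S_EXC := by
  classical
  obtain ⟨h₀, hh₀, hP⟩ := hP
  refine ⟨h₀, hh₀, fun h X hh hX => ⟨EXC.E h X, (EXC.E_card hL hC h X (hh₀.trans hh)).trans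
    (hP h X hh hX), ?_⟩⟩
  have hh1 : 1 ≤ h := hh₀.trans hh
  have hu := EXC.uu_ge h hh1
  have he : em h = 6 * h + 4 := rfl
  intro k hk1 hkX hkE μ j R T e f hj1 hjμ hμ hRG hW
  -- no leaps
  have hnl : ∀ n m, 1 ≤ n → n ≤ 2 ^ h → m < 64 * em h →
      ¬ Leap μ j n ((4 * La h) ^ m * Tz h) (La h) k := by
    intro n m h1 h2 h3 hcon
    apply hkE
    unfold EXC.E
    rw [mem_biUnion]
    refine ⟨(μ, j), ?_, ?_⟩
    · rw [mem_product, mem_Icc, mem_range]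
      exact ⟨⟨by simp only; omega, hμ⟩, by simp only; omega⟩
    · simp only
      rw [if_pos hjμ, mem_union]
      left
      rw [mem_biUnion]
      refine ⟨(n, m), ?_, ?_⟩
      · rw [mem_product, mem_Icc, mem_range]
        exact ⟨⟨h1, h2⟩, h3⟩
      · rw [mem_filter, mem_Icc]
        exact ⟨⟨hk1, hkX⟩, hcon⟩
  -- no bad runs
  have hnb : ∀ i, i < 6 * h → ¬ BadRun μ j (2 ^ h) (Yy h) (Tz h) (Ts h) (Dk h i)
      (2 * (32 * em h)) k := by
    intro i hi hcon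
    apply hkE
    unfold EXC.E
    rw [mem_biUnion]
    refine ⟨(μ, j), ?_, ?_⟩
    · rw [mem_product, mem_Icc, mem_range]
      exact ⟨⟨by simp only; omega, hμ⟩, by simp only; omega⟩
    · simp only
      rw [if_pos hjμ, mem_union]
      right
      rw [mem_biUnion]
      refine ⟨i, mem_range.2 hi, ?_⟩
      rw [mem_filter, mem_Icc]
      exact ⟨⟨hk1, hkX⟩, hcon⟩
  by_contra hcon
  push Not at hcon
  have hex : ∃ r, Ts h < T (r + 1) := ⟨R, hcon⟩
  set R' := Nat.find hex with hR'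
  have hRT : Ts h < T (R' + 1) := Nat.find_spec hex
  have hR'R : R' ≤ R := Nat.find_min' hex hcon
  have hmin : ∀ n, 1 ≤ n → n ≤ R' → T n ≤ Ts h := by
    intro n h1 h2
    have := Nat.find_min hex (m := n - 1) (by omega)
    rw [Nat.sub_add_cancel h1] at this
    exact not_lt.1 this
  have hW' := EXC.walk_mono hR'R hW
  have hTz := EXC.Tz_ge h hh1
  have hbig : 64 * em h ≤ (J R' (Tz h) (Dk h 0) T e f).card := by
    refine hB k μ j (2 ^ h) R' (Tz h) (Dk h 0) (La h) (64 * em h) T e f hW' (hR'R.trans hRG)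
      Nat.one_le_two_pow ?_ ?_ ?_ ?_
    · refine lt_of_le_of_lt ?_ hTz
      have h1 : j ≤ 2 * 2 ^ h := by omega
      calc 3 * j * j ≤ 3 * (2 * 2 ^ h) * (2 * 2 ^ h) := by gcongr
        _ = 12 * 2 ^ (2 * h) := by rw [two_mul h, pow_add]; ring
        _ ≤ 2 ^ (2 * h + 4) := by
            rw [pow_add]
            have : 0 < 2 ^ (2 * h) := by positivity
            omega
    · unfold Dk Tz
      rw [show 2 * 2 ^ h * 2 ^ ((6 * em h - 2 - 0) * uu h) =
        2 ^ (1 + h + (6 * em h - 2 - 0) * uu h) by rw [pow_add, pow_add, pow_one]]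
      apply EXC.p2
      obtain ⟨q, hq⟩ : ∃ q, 6 * em h = q + 2 := ⟨6 * em h - 2, by omega⟩
      rw [hq, Nat.add_sub_cancel, Nat.sub_zero]
      have : (q + 2) * uu h = q * uu h + 2 * uu h := by ring
      omega
    · intro m n hm h1 h2 h3 h4
      by_contra hc
      push Not at hc
      exact hnl n m h1 (h2.trans (hR'R.trans hRG)) hm
        ⟨T n, e n, f n, h3, h4, hW'.epos n h1 h2, hW'.fpos n h1 h2, hc, hW'.eT n h1 h2,
          hW'.fT n h1 h2, hW'.eK n h1 h2, hW'.fK n h1 h2⟩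
    · exact lt_of_le_of_lt (EXC.lev h (64 * em h) hh1 le_rfl) hRT
  have hrun := hR k μ j (2 ^ h) R' (Yy h) (Tz h) (Ts h) (2 * (32 * em h)) (6 * h) T e f (Dk h) hW'
    (hR'R.trans hRG) (by omega) hμ hmin (by omega) Nat.one_le_two_pow Nat.one_le_two_pow
    (by
      intro i hi
      unfold Dk
      apply Nat.pow_lt_pow_right (by norm_num)
      have h1 : 1 * uu h ≤ (6 * em h - 2 - i) * uu h := Nat.mul_le_mul_right _ (by omega)
      omega)
    (by
      intro i hi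
      unfold Dk Yy
      rw [show 2 * 2 ^ h * 2 ^ (uu h - h - 2) * 2 ^ ((6 * em h - 2 - (i + 1)) * uu h) =
        2 ^ (1 + h + (uu h - h - 2) + (6 * em h - 2 - (i + 1)) * uu h) by
          rw [pow_add, pow_add, pow_add, pow_one]]
      apply EXC.p2
      obtain ⟨q, hq⟩ : ∃ q, 6 * em h - 2 - i = q + 1 := ⟨6 * em h - 2 - i - 1, by omega⟩
      have hq2 : 6 * em h - 2 - (i + 1) = q := by omega
      rw [hq, hq2]
      have : (q + 1) * uu h = q * uu h + uu h := by ring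
      omega)
    hnb (by omega)
  -- the contradiction
  have hc : 1 ≤ (J R' (Tz h) (Dk h 0) T e f).card := by omega
  have h1 : 9 ^ (6 * h) ≤ 8 ^ (6 * h) * 2 ^ h :=
    (Nat.le_mul_of_pos_right _ hc).trans hrun
  rw [pow_mul, pow_mul, ← mul_pow] at h1
  have h2 : (8 ^ 6 * 2) ^ h < (9 ^ 6) ^ h := Nat.pow_lt_pow_left (by norm_num) (by omega)
  omega

end Pool.Agent.K93.SD
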