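import Pool.Agent.K93.SD.Stm

/-!
# LEAP: leaps are rare
-/

set_option autoImplicit false

namespace Pool.Agent.K93.SD

open Finset

namespace LEAP

theorem AA_pos {μ j n t : ℕ} (hj : j < μ) (ht : 1 ≤ t) : 0 < AA μ j n t := by
  unfold AA
  have : 0 < μ * t := Nat.mul_pos (by omega) (by omega)
  omega

theorem BB_pos {μ j n t : ℕ} (hj : j < μ) (ht : 1 ≤ t) : 0 < BB μ j n t := by
  unfold BB
  have h1 : μ ≤ μ * t := Nat.le_mul_of_pos_right _ ht
  have h2 : 2 * n ≤ n * n + 1 := by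
    rcases n with _ | m
    · omega
    · have e : (m + 1) * (m + 1) = m * m + 2 * m + 1 := by ring
      rw [e]
      have := Nat.zero_le (m * m)
      omega
  have h3 : j * (2 * n) ≤ j * (n * n + 1) := Nat.mul_le_mul_left j h2
  have h4 : j * (n * n + 1) = j * (n * n) + j := by ring
  have h5 : j * (2 * n) = 2 * j * n := by ring
  rw [h4, h5] at h3
  omega

open Classical in
theorem cell (hC : S_CRT) (n e f X : ℕ) (he : 1 ≤ e) (hf : 1 ≤ f) :
    (((Icc 1 X).filter (fun k : ℕ => (e : ℤ) ∣ (k : ℤ) - n - 1 ∧ (f : ℤ) ∣ (k : ℤ) - n + 1)).card : ℝ) ≤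
      16 * X / ((e * f : ℕ) : ℝ) + 1 := by
  by_cases hg : Nat.gcd e f ≤ 2
  · have h := hC 2 X [((n : ℤ) + 1, e), ((n : ℤ) - 1, f)] (by norm_num)
      (by simpa using hg) (by
        intro p hp
        simp only [List.mem_cons, List.not_mem_nil, or_false] at hp
        rcases hp with rfl | rfl
        · exact he
        · exact hf)
    have e1 : (Icc 1 X).filter (fun k : ℕ => (e : ℤ) ∣ (k : ℤ) - n - 1 ∧ (f : ℤ) ∣ (k : ℤ) - n + 1) =
        (Icc 1 X).filter (fun k : ℕ => ∀ p ∈ [((n : ℤ) + 1, e), ((n : ℤ) - 1, f)], (p.2 : ℤ) ∣ (k : ℤ) - p.1) := by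
      refine Finset.filter_congr fun k _ => ?_
      simp only [List.mem_cons, List.not_mem_nil, or_false, forall_eq_or_imp, forall_eq]
      have a1 : (k : ℤ) - (n + 1) = k - n - 1 := by ring
      have a2 : (k : ℤ) - (n - 1) = k - n + 1 := by ring
      rw [a1, a2]
    rw [e1]
    refine h.trans (le_of_eq ?_)
    have e2 : (([((n : ℤ) + 1, e), ((n : ℤ) - 1, f)] : List (ℤ × ℕ)).map Prod.snd).prod = e * f := by simp
    have e3 : ([((n : ℤ) + 1, e), ((n : ℤ) - 1, f)] : List (ℤ × ℕ)).length = 2 := rfl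
    rw [e2, e3]
    have e4 : (((2 : ℕ) : ℝ)) ^ (2 ^ 2) = 16 := by norm_num
    rw [e4, mul_comm (X : ℝ) 16]
  · have e1 : (Icc 1 X).filter (fun k : ℕ => (e : ℤ) ∣ (k : ℤ) - n - 1 ∧ (f : ℤ) ∣ (k : ℤ) - n + 1) = ∅ := by
      refine Finset.filter_eq_empty_iff.2 fun k _ hk => hg ?_
      have h1 : ((Nat.gcd e f : ℕ) : ℤ) ∣ (k : ℤ) - n - 1 :=
        (Int.natCast_dvd_natCast.2 (Nat.gcd_dvd_left e f)).trans hk.1
      have h2 : ((Nat.gcd e f : ℕ) : ℤ) ∣ (k : ℤ) - n + 1 :=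
        (Int.natCast_dvd_natCast.2 (Nat.gcd_dvd_right e f)).trans hk.2
      have h3 : ((Nat.gcd e f : ℕ) : ℤ) ∣ ((2 : ℕ) : ℤ) := by
        have h4 := dvd_sub h2 h1
        have e5 : (k : ℤ) - n + 1 - (k - n - 1) = ((2 : ℕ) : ℤ) := by push_cast; ring
        rwa [e5] at h4
      exact Nat.le_of_dvd (by norm_num) (Int.natCast_dvd_natCast.1 h3)
    rw [e1]
    simp only [Finset.card_empty, Nat.cast_zero]
    positivity

/-- the pairs of divisors with a large product -/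
def Q (μ j n M t : ℕ) : Finset (ℕ × ℕ) :=
  ((AA μ j n t).divisors ×ˢ (BB μ j n t).divisors).filter (fun x => M ≤ x.1 * x.2)

theorem card_Q (μ j n M t : ℕ) : ((Q μ j n M t).card : ℝ) ≤ (tau (AA μ j n t) : ℝ) * tau (BB μ j n t) := by
  have h : (Q μ j n M t).card ≤ tau (AA μ j n t) * tau (BB μ j n t) := by
    refine (Finset.card_filter_le _ _).trans ?_
    rw [Finset.card_product]
    exact le_rfl
  exact_mod_cast h

end LEAP

open LEAP

theorem t_LEAP (hA : S_AB) (hC : S_CRT) : S_LEAP := by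
  classical
  intro G μ j n B Λ X hn hnG hj hμ hB hΛ
  have hG : 1 ≤ G := hn.trans hnG
  have hGG : G ≤ G ^ 2 := by nlinarith
  have hB1 : 1 ≤ B := by omega
  have hsum := hA G μ j n B 1 B hn hnG hj hμ (by omega) le_rfl hB1 (by omega) (by
    rw [sq B]
    exact Nat.mul_le_mul_right B (by omega))
  set L : ℝ := 1 + Real.log (8 * G * B) with hL
  have hBR : (0 : ℝ) < B := by exact_mod_cast hB1
  have hΛR : (0 : ℝ) < Λ := by exact_mod_cast hΛ
  have hsub : (Icc 1 X).filter (fun k : ℕ => Leap μ j n B Λ k) ⊆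
      (Ico 1 B).biUnion (fun t => (Q μ j n (Λ * B) t).biUnion (fun x =>
        (Icc 1 X).filter (fun k : ℕ => (x.1 : ℤ) ∣ (k : ℤ) - n - 1 ∧ (x.2 : ℤ) ∣ (k : ℤ) - n + 1))) := by
    intro k hk
    obtain ⟨hk1, t, e, f, ht1, htB, he, hf, hef, heA, hfB, hek, hfk⟩ := Finset.mem_filter.1 hk
    refine Finset.mem_biUnion.2 ⟨t, Finset.mem_Ico.2 ⟨ht1, htB⟩, Finset.mem_biUnion.2 ⟨(e, f), ?_, ?_⟩⟩
    · refine Finset.mem_filter.2 ⟨Finset.mem_product.2 ⟨Nat.mem_divisors.2 ⟨heA, (AA_pos hj ht1).ne'⟩,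
        Nat.mem_divisors.2 ⟨hfB, (BB_pos hj ht1).ne'⟩⟩, hef⟩
    · exact Finset.mem_filter.2 ⟨hk1, hek, hfk⟩
  have hcell : ∀ t, ∀ x ∈ Q μ j n (Λ * B) t,
      (((Icc 1 X).filter (fun k : ℕ => (x.1 : ℤ) ∣ (k : ℤ) - n - 1 ∧ (x.2 : ℤ) ∣ (k : ℤ) - n + 1)).card : ℝ) ≤
        16 * X / (Λ * B) + 1 := by
    intro t x hx
    obtain ⟨hx1, hx2⟩ := Finset.mem_filter.1 hx
    obtain ⟨hx3, hx4⟩ := Finset.mem_product.1 hx1
    have p1 : 1 ≤ x.1 := Nat.pos_of_mem_divisors hx3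
    have p2 : 1 ≤ x.2 := Nat.pos_of_mem_divisors hx4
    refine (cell hC n x.1 x.2 X p1 p2).trans ?_
    have h1 : (Λ : ℝ) * B ≤ ((x.1 * x.2 : ℕ) : ℝ) := by exact_mod_cast hx2
    have h2 : 16 * (X : ℝ) / ((x.1 * x.2 : ℕ) : ℝ) ≤ 16 * X / (Λ * B) :=
      div_le_div_of_nonneg_left (by positivity) (by positivity) h1
    linarith
  have hK : (0 : ℝ) ≤ 16 * X / (Λ * B) + 1 := by positivity
  have hcard : (((Icc 1 X).filter (fun k : ℕ => Leap μ j n B Λ k)).card : ℝ) ≤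
      ∑ t ∈ Ico 1 B, (tau (AA μ j n t) : ℝ) * tau (BB μ j n t) * (16 * X / (Λ * B) + 1) := by
    have c1 : (((Icc 1 X).filter (fun k : ℕ => Leap μ j n B Λ k)).card : ℝ) ≤
        ∑ t ∈ Ico 1 B, ∑ x ∈ Q μ j n (Λ * B) t, (((Icc 1 X).filter (fun k : ℕ =>
          (x.1 : ℤ) ∣ (k : ℤ) - n - 1 ∧ (x.2 : ℤ) ∣ (k : ℤ) - n + 1)).card : ℝ) := by
      have c2 := (Finset.card_le_card hsub).trans (Finset.card_biUnion_le.trans
        (Finset.sum_le_sum fun t _ => Finset.card_biUnion_le))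
      exact_mod_cast c2
    refine c1.trans (Finset.sum_le_sum fun t _ => ?_)
    refine (Finset.sum_le_sum (hcell t)).trans ?_
    rw [Finset.sum_const, nsmul_eq_mul]
    exact mul_le_mul_of_nonneg_right (card_Q μ j n (Λ * B) t) hK
  have hle : ∑ t ∈ Ico 1 B, (tau (AA μ j n t) : ℝ) * tau (BB μ j n t) ≤ 16 * G * B * L ^ 16 := by
    refine le_trans (Finset.sum_le_sum_of_subset_of_nonneg ?_ fun t _ _ => by positivity) hsum
    exact Finset.Ico_subset_Ico_right (by omega)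
  rw [← Finset.sum_mul] at hcard
  refine hcard.trans ((mul_le_mul_of_nonneg_right hle hK).trans (le_of_eq ?_))
  field_simp
  ring

end Pool.Agent.K93.SD
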