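import Pool.Agent.K93.SD.Stm

/-!
# Project SD: the inequality between the parameters (`t_PAR : S_PAR`)
-/

set_option autoImplicit false

namespace Pool.Agent.K93.SD.PAR

open Finset

theorem em_le (h : ℕ) (hh : 1024 ≤ h) : em h ≤ 10 * h := by unfold em; omega

theorem em_ge (h : ℕ) : 6 * h ≤ em h := by unfold em; omega

/-- `64 (10^7 h^3)^17 ≤ 2^h` -/
theorem poly_le (h : ℕ) (hh : 1024 ≤ h) : 64 * (10 ^ 7 * h ^ 3) ^ 17 ≤ 2 ^ h := by
  have key : ∀ n : ℕ, 1024 ≤ n → 64 * 10 ^ 119 * n ^ 51 ≤ 2 ^ n := by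
    intro n hn
    induction n, hn using Nat.le_induction with
    | base =>
      have e : (2 : ℕ) ^ 1024 = (2 ^ 256) ^ 4 := by rw [← pow_mul]
      rw [e]
      norm_num
    | succ n hn ih =>
      have h1 : 1024 * (n + 1) ≤ 1025 * n := by omega
      have h2 : (1024 * (n + 1)) ^ 51 ≤ (1025 * n) ^ 51 := Nat.pow_le_pow_left h1 51
      rw [mul_pow, mul_pow] at h2
      have h3 : 1025 ^ 51 ≤ 2 * 1024 ^ 51 := by norm_num
      have h4 : 1024 ^ 51 * (n + 1) ^ 51 ≤ 1024 ^ 51 * (2 * n ^ 51) := by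
        calc 1024 ^ 51 * (n + 1) ^ 51 ≤ 1025 ^ 51 * n ^ 51 := h2
          _ ≤ (2 * 1024 ^ 51) * n ^ 51 := Nat.mul_le_mul_right _ h3
          _ = 1024 ^ 51 * (2 * n ^ 51) := by ring
      have h5 : (n + 1) ^ 51 ≤ 2 * n ^ 51 := Nat.le_of_mul_le_mul_left h4 (by positivity)
      calc 64 * 10 ^ 119 * (n + 1) ^ 51 ≤ 64 * 10 ^ 119 * (2 * n ^ 51) := Nat.mul_le_mul_left _ h5
        _ = 2 * (64 * 10 ^ 119 * n ^ 51) := by ring
        _ ≤ 2 * 2 ^ n := Nat.mul_le_mul_left _ ih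
        _ = 2 ^ (n + 1) := by ring
  calc 64 * (10 ^ 7 * h ^ 3) ^ 17 = 64 * 10 ^ 119 * h ^ 51 := by ring
    _ ≤ 2 ^ h := key h hh

theorem ten_le (h : ℕ) (hh : 1024 ≤ h) : 10 * h ≤ 2 ^ h := by
  refine le_trans ?_ (poly_le h hh)
  have h1 : 1 ≤ h := by omega
  have h2 : h ≤ 10 ^ 7 * h ^ 3 := by
    calc h = 1 * h ^ 1 := by ring
      _ ≤ 10 ^ 7 * h ^ 3 := Nat.mul_le_mul (by norm_num) (Nat.pow_le_pow_right h1 (by norm_num))
  have h3 : 10 ^ 7 * h ^ 3 ≤ (10 ^ 7 * h ^ 3) ^ 17 := by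
    exact Nat.le_self_pow (by norm_num) _
  omega

/-- the logarithm -/
noncomputable def LL (h : ℕ) : ℝ := 1 + Real.log (8 * 2 ^ h * Ts h)

theorem arg_eq (h : ℕ) : (8 * 2 ^ h * Ts h : ℝ) = 2 ^ (3 + h + 8 * em h * uu h) := by
  unfold Ts
  push_cast
  rw [show (8 : ℝ) = 2 ^ 3 by norm_num, ← pow_add, ← pow_add]

theorem LL_ge (h : ℕ) : 1 ≤ LL h := by
  unfold LL
  have : 0 ≤ Real.log (8 * 2 ^ h * Ts h) := by
    rw [arg_eq]
    exact Real.log_nonneg (one_le_pow₀ (by norm_num))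
  linarith

theorem LL_le (h : ℕ) (hh : 1024 ≤ h) : LL h ≤ 10 ^ 7 * (h : ℝ) ^ 3 := by
  unfold LL
  rw [arg_eq, Real.log_pow]
  have h1 : Real.log 2 ≤ 1 := by
    have := Real.log_two_lt_d9
    linarith
  have h2 : ((3 + h + 8 * em h * uu h : ℕ) : ℝ) * Real.log 2 ≤ ((3 + h + 8 * em h * uu h : ℕ) : ℝ) := by
    have : (0 : ℝ) ≤ ((3 + h + 8 * em h * uu h : ℕ) : ℝ) := Nat.cast_nonneg _
    nlinarith
  have h3 : 1 + (3 + h + 8 * em h * uu h) ≤ 10 ^ 7 * h ^ 3 := by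
    have h4 := em_le h hh
    have h5 : 8 * em h * uu h ≤ 8 * (10 * h) * (100000 * h ^ 2) := by
      unfold uu
      gcongr
    have h6 : 8 * (10 * h) * (100000 * h ^ 2) = 8000000 * h ^ 3 := by ring
    have h7 : h ^ 1 ≤ h ^ 3 := Nat.pow_le_pow_right (by omega) (by norm_num)
    rw [h6] at h5
    rw [pow_one] at h7
    omega
  have h4 : (1 : ℝ) + ((3 + h + 8 * em h * uu h : ℕ) : ℝ) ≤ 10 ^ 7 * (h : ℝ) ^ 3 := by
    exact_mod_cast h3
  linarith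

theorem LL17 (h : ℕ) (hh : 1024 ≤ h) : 64 * LL h ^ 17 ≤ 2 ^ h := by
  have h0 := LL_ge h
  have h1 := LL_le h hh
  have h2 : (64 : ℝ) * (10 ^ 7 * (h : ℝ) ^ 3) ^ 17 ≤ 2 ^ h := by exact_mod_cast poly_le h hh
  have h3 : LL h ^ 17 ≤ (10 ^ 7 * (h : ℝ) ^ 3) ^ 17 := pow_le_pow_left₀ (by linarith) h1 17
  linarith

theorem LL16 (h : ℕ) (hh : 1024 ≤ h) : LL h ^ 16 ≤ 2 ^ h := by
  have h0 := LL_ge h
  have h1 := LL17 h hh
  have h2 : LL h ^ 16 ≤ LL h ^ 17 := pow_le_pow_right₀ h0 (by norm_num)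
  have h3 : (0 : ℝ) ≤ LL h ^ 17 := by positivity
  linarith

theorem cube (h : ℕ) : (2 : ℝ) ^ (3 * h) = (2 ^ h) ^ 3 := by
  rw [← pow_mul]
  congr 1
  ring

theorem term1 (h : ℕ) (hh : 1024 ≤ h) (X : ℝ) (hX : 0 ≤ X) :
    (2 * 2 ^ h : ℝ) ^ 2 * (2 ^ h * (64 * em h) * (256 * 2 ^ h * X * LL h ^ 16 / La h)) ≤ X / (4 * 2 ^ (3 * h)) := by
  have h1 := LL16 h hh
  have h2 : (em h : ℝ) ≤ 2 ^ h := by exact_mod_cast (em_le h hh).trans (ten_le h hh)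
  have h3 : (2 : ℝ) ^ 18 ≤ 2 ^ h := pow_le_pow_right₀ (by norm_num) (by omega)
  have h4 : (La h : ℝ) = (2 ^ h) ^ 20 := by
    unfold La
    push_cast
    rw [← pow_mul]
    congr 1
    ring
  have h5 : 0 ≤ LL h := by linarith [LL_ge h]
  rw [h4, cube]
  generalize LL h = L at h1 h5
  have hg : (0 : ℝ) < 2 ^ h := by positivity
  generalize (2 : ℝ) ^ h = g at h1 h2 h3 hg
  have e1 : (2 * g) ^ 2 * (g * (64 * (em h : ℝ)) * (256 * g * X * L ^ 16 / g ^ 20)) ≤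
      (2 * g) ^ 2 * (g * (64 * g) * (256 * g * X * g / g ^ 20)) := by
    gcongr
  refine e1.trans ?_
  have e2 : (2 * g) ^ 2 * (g * (64 * g) * (256 * g * X * g / g ^ 20)) = 65536 * g ^ 6 * X / g ^ 20 := by
    ring
  rw [e2, div_le_div_iff₀ (by positivity) (by positivity)]
  have e3 : (1 : ℝ) ≤ g := le_trans (by norm_num) h3
  have e4 : 262144 * g ^ 9 ≤ g ^ 20 := by
    calc 262144 * g ^ 9 ≤ g * g ^ 9 := by
          apply mul_le_mul_of_nonneg_right _ (by positivity)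
          exact le_trans (by norm_num) h3
      _ = g ^ 10 := by ring
      _ ≤ g ^ 20 := pow_le_pow_right₀ e3 (by norm_num)
  calc 65536 * g ^ 6 * X * (4 * g ^ 3) = X * (262144 * g ^ 9) := by ring
    _ ≤ X * g ^ 20 := mul_le_mul_of_nonneg_left e4 hX

theorem term2 (h : ℕ) (hh : 1024 ≤ h) (X : ℝ) (hX : 2 ^ xx h ≤ X) :
    (2 * 2 ^ h : ℝ) ^ 2 * (2 ^ h * (64 * em h) * (16 * 2 ^ h * Ts h * LL h ^ 16)) ≤ X / (4 * 2 ^ (3 * h)) := by
  have h1 := LL16 h hh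
  have h2 : (em h : ℝ) ≤ 2 ^ h := by exact_mod_cast (em_le h hh).trans (ten_le h hh)
  have h3 : (2 : ℝ) ^ 18 ≤ 2 ^ h := pow_le_pow_right₀ (by norm_num) (by omega)
  have h5 : 0 ≤ LL h := by linarith [LL_ge h]
  have h6 : (2 ^ h : ℝ) ^ 10 * Ts h ≤ X := by
    refine le_trans ?_ hX
    unfold Ts
    push_cast
    rw [← pow_mul, ← pow_add]
    apply pow_le_pow_right₀ (by norm_num)
    have h4 := em_le h hh
    have h5 : 8 * em h * uu h ≤ 8 * (10 * h) * (100000 * h ^ 2) := by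
      unfold uu
      gcongr
    have h6 : 8 * (10 * h) * (100000 * h ^ 2) = 8000000 * h ^ 3 := by ring
    have h7 : h ^ 1 ≤ h ^ 4 := Nat.pow_le_pow_right (by omega) (by norm_num)
    have h8 : h ^ 3 ≤ h ^ 4 := Nat.pow_le_pow_right (by omega) (by norm_num)
    rw [h6] at h5
    rw [pow_one] at h7
    unfold xx
    omega
  rw [cube]
  generalize LL h = L at h1 h5
  have hg : (0 : ℝ) < 2 ^ h := by positivity
  generalize (2 : ℝ) ^ h = g at h1 h2 h3 hg h6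
  have hT : (0 : ℝ) ≤ Ts h := Nat.cast_nonneg _
  generalize (Ts h : ℝ) = T at h6 hT
  have e1 : (2 * g) ^ 2 * (g * (64 * (em h : ℝ)) * (16 * g * T * L ^ 16)) ≤
      (2 * g) ^ 2 * (g * (64 * g) * (16 * g * T * g)) := by
    gcongr
  refine e1.trans ?_
  rw [le_div_iff₀ (by positivity)]
  refine le_trans ?_ h6
  calc (2 * g) ^ 2 * (g * (64 * g) * (16 * g * T * g)) * (4 * g ^ 3) = 16384 * (g ^ 9 * T) := by ring
    _ ≤ g * (g ^ 9 * T) := by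
      apply mul_le_mul_of_nonneg_right _ (by positivity)
      exact le_trans (by norm_num) h3
    _ = g ^ 10 * T := by ring

theorem prod_eq (h : ℕ) : (2 ^ h * Ts h * (8 * 2 ^ h * Ts h) ^ 2 : ℝ) = 2 ^ (6 + 3 * h + 24 * em h * uu h) := by
  rw [arg_eq]
  unfold Ts
  push_cast
  rw [← pow_mul, ← pow_add, ← pow_add]
  congr 1
  ring

theorem exp3 (h : ℕ) (hh : 1024 ≤ h) :
    (2 + 2 * h + h + 64 * em h + (h + 2) * (4 * (32 * em h)) ^ 2 + (6 + 3 * h + 24 * em h * uu h) +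
      4 * h * (2 * (32 * em h))) + (3 * h + 2) ≤ (uu h - h - 2) * (32 * em h) := by
  have h1 := em_le h hh
  have h2 := em_ge h
  have hu : uu h = 100000 * h ^ 2 := rfl
  have h3 : h + 2 ≤ uu h := by
    rw [hu]
    have : h ^ 1 ≤ h ^ 2 := Nat.pow_le_pow_right (by omega) (by norm_num)
    rw [pow_one] at this
    omega
  obtain ⟨v, hv⟩ := Nat.exists_eq_add_of_le h3
  have h4 : uu h - h - 2 = v := by omega
  rw [h4]
  generalize em h = m at h1 h2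
  generalize uu h = u at hu h3 hv
  have a1 : 16384 * ((h + 2) * m ^ 2) ≤ 491520 * (h ^ 2 * m) := by
    calc 16384 * ((h + 2) * m ^ 2) = 16384 * ((h + 2) * m * m) := by ring
      _ ≤ 16384 * ((3 * h) * (10 * h) * m) := by
        gcongr
        omega
      _ = 491520 * (h ^ 2 * m) := by ring
  have a2 : 1024 * h ≤ h ^ 2 := by
    rw [pow_two]
    exact Nat.mul_le_mul_right _ hh
  have a3 : 1024 * (h * m) ≤ h ^ 2 * m := by
    calc 1024 * (h * m) = (1024 * h) * m := by ring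
      _ ≤ h ^ 2 * m := Nat.mul_le_mul_right _ a2
  have a4 : m ≤ h * m := Nat.le_mul_of_pos_left _ (by omega)
  have a5 : m * u = 100000 * (h ^ 2 * m) := by
    rw [hu]
    ring
  have a6 : m * u = m * h + 2 * m + m * v := by
    rw [hv]
    ring
  have e1 : (2 + 2 * h + h + 64 * m + (h + 2) * (4 * (32 * m)) ^ 2 + (6 + 3 * h + 24 * m * u) +
      4 * h * (2 * (32 * m))) + (3 * h + 2) = 10 + 9 * h + 64 * m + 16384 * ((h + 2) * m ^ 2) + 24 * (m * u) +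
      256 * (h * m) := by ring
  have e2 : v * (32 * m) = 32 * (m * v) := by ring
  have e3 : m * h = h * m := by ring
  rw [e1, e2]
  rw [e3] at a6
  omega

theorem term3 (h : ℕ) (hh : 1024 ≤ h) (X : ℝ) (hX : 0 ≤ X) :
    (2 * 2 ^ h : ℝ) ^ 2 * ((6 * h) * (4 ^ (32 * em h) * (X * (4 * 2 ^ h : ℝ) ^ ((4 * (32 * em h)) ^ 2) *
      (2 ^ h * Ts h * (8 * 2 ^ h * Ts h) ^ 2) *
      (64 * ((2 : ℝ) ^ h) ^ 3 * LL h ^ 17) ^ (2 * (32 * em h)) / (Yy h : ℝ) ^ (32 * em h)))) ≤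
      X / (4 * 2 ^ (3 * h)) := by
  have h1 := LL17 h hh
  have h5 : 0 ≤ LL h := by linarith [LL_ge h]
  have h6 : (6 * h : ℝ) ≤ 2 ^ h := by
    have : 6 * h ≤ 2 ^ h := le_trans (by omega) (ten_le h hh)
    exact_mod_cast this
  have hY : (Yy h : ℝ) = 2 ^ (uu h - h - 2) := by
    unfold Yy
    push_cast
    rfl
  have h7 : 64 * ((2 : ℝ) ^ h) ^ 3 * LL h ^ 17 ≤ 2 ^ (4 * h) := by
    calc 64 * ((2 : ℝ) ^ h) ^ 3 * LL h ^ 17 = ((2 : ℝ) ^ h) ^ 3 * (64 * LL h ^ 17) := by ring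
      _ ≤ ((2 : ℝ) ^ h) ^ 3 * 2 ^ h := by gcongr
      _ = 2 ^ (4 * h) := by
        rw [← pow_succ, ← pow_mul]
        congr 1
        ring
  have h8 : (4 * 2 ^ h : ℝ) = 2 ^ (h + 2) := by
    rw [pow_add]
    ring
  rw [hY, prod_eq, h8]
  have e1 : (2 * 2 ^ h : ℝ) ^ 2 * ((6 * h) * (4 ^ (32 * em h) * (X * (2 ^ (h + 2)) ^ ((4 * (32 * em h)) ^ 2) *
      2 ^ (6 + 3 * h + 24 * em h * uu h) *
      (64 * ((2 : ℝ) ^ h) ^ 3 * LL h ^ 17) ^ (2 * (32 * em h)) / (2 ^ (uu h - h - 2)) ^ (32 * em h)))) ≤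
      (2 * 2 ^ h : ℝ) ^ 2 * (2 ^ h * (4 ^ (32 * em h) * (X * (2 ^ (h + 2)) ^ ((4 * (32 * em h)) ^ 2) *
      2 ^ (6 + 3 * h + 24 * em h * uu h) *
      (2 ^ (4 * h)) ^ (2 * (32 * em h)) / (2 ^ (uu h - h - 2)) ^ (32 * em h)))) := by
    gcongr
  refine e1.trans ?_
  have e2 : (2 * 2 ^ h : ℝ) ^ 2 * (2 ^ h * (4 ^ (32 * em h) * (X * (2 ^ (h + 2)) ^ ((4 * (32 * em h)) ^ 2) *
      2 ^ (6 + 3 * h + 24 * em h * uu h) *
      (2 ^ (4 * h)) ^ (2 * (32 * em h)) / (2 ^ (uu h - h - 2)) ^ (32 * em h)))) =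
      X * 2 ^ (2 + 2 * h + h + 64 * em h + (h + 2) * (4 * (32 * em h)) ^ 2 +
        (6 + 3 * h + 24 * em h * uu h) + 4 * h * (2 * (32 * em h))) / 2 ^ ((uu h - h - 2) * (32 * em h)) := by
    rw [show (4 : ℝ) ^ (32 * em h) = 2 ^ (64 * em h) by
      rw [show (4 : ℝ) = 2 ^ 2 by norm_num, ← pow_mul]
      congr 1
      ring]
    rw [← pow_mul, ← pow_mul, ← pow_mul]
    rw [show (2 * 2 ^ h : ℝ) ^ 2 = 2 ^ (2 + 2 * h) by
      rw [mul_pow, ← pow_mul, pow_add]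
      congr 2
      ring]
    simp only [pow_add]
    ring
  rw [e2, div_le_div_iff₀ (by positivity) (by positivity), mul_assoc]
  apply mul_le_mul_of_nonneg_left _ hX
  rw [show (4 * 2 ^ (3 * h) : ℝ) = 2 ^ (3 * h + 2) by
    rw [pow_add]
    ring]
  rw [← pow_add]
  exact pow_le_pow_right₀ (by norm_num) (exp3 h hh)

theorem exp4 (h : ℕ) (hh : 1024 ≤ h) :
    (2 + 2 * h + h + 64 * em h + (6 + 3 * h + 24 * em h * uu h) * (2 * (32 * em h))) + (2 + 3 * h) ≤ xx h := by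
  have h1 := em_le h hh
  have hu : uu h = 100000 * h ^ 2 := rfl
  rw [hu]
  unfold xx
  generalize em h = m at h1
  have h2 : (2 + 2 * h + h + 64 * m + (6 + 3 * h + 24 * m * (100000 * h ^ 2)) * (2 * (32 * m))) + (2 + 3 * h) ≤
      (2 + 2 * h + h + 64 * (10 * h) + (6 + 3 * h + 24 * (10 * h) * (100000 * h ^ 2)) * (2 * (32 * (10 * h)))) +
      (2 + 3 * h) := by gcongr
  refine h2.trans ?_
  have e1 : (2 + 2 * h + h + 64 * (10 * h) + (6 + 3 * h + 24 * (10 * h) * (100000 * h ^ 2)) *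
      (2 * (32 * (10 * h)))) + (2 + 3 * h) = 4 + 4486 * h + 1920 * h ^ 2 + 15360000000 * h ^ 4 := by ring
  rw [e1]
  have h7 : h ^ 1 ≤ h ^ 4 := Nat.pow_le_pow_right (by omega) (by norm_num)
  have h8 : h ^ 2 ≤ h ^ 4 := Nat.pow_le_pow_right (by omega) (by norm_num)
  rw [pow_one] at h7
  omega

theorem term4 (h : ℕ) (hh : 1024 ≤ h) (X : ℝ) (hX : 2 ^ xx h ≤ X) :
    (2 * 2 ^ h : ℝ) ^ 2 * ((6 * h) * (4 ^ (32 * em h) *
      (2 ^ h * Ts h * (8 * 2 ^ h * Ts h) ^ 2) ^ (2 * (32 * em h)))) ≤ X / (4 * 2 ^ (3 * h)) := by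
  have h6 : (6 * h : ℝ) ≤ 2 ^ h := by
    have : 6 * h ≤ 2 ^ h := le_trans (by omega) (ten_le h hh)
    exact_mod_cast this
  rw [prod_eq]
  have e1 : (2 * 2 ^ h : ℝ) ^ 2 * ((6 * h) * (4 ^ (32 * em h) *
      (2 ^ (6 + 3 * h + 24 * em h * uu h)) ^ (2 * (32 * em h)))) ≤
      (2 * 2 ^ h : ℝ) ^ 2 * (2 ^ h * (4 ^ (32 * em h) *
      (2 ^ (6 + 3 * h + 24 * em h * uu h)) ^ (2 * (32 * em h)))) := by
    gcongr
  refine e1.trans ?_
  rw [le_div_iff₀ (by positivity)]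
  refine le_trans ?_ hX
  have e2 : (2 * 2 ^ h : ℝ) ^ 2 * (2 ^ h * (4 ^ (32 * em h) *
      (2 ^ (6 + 3 * h + 24 * em h * uu h)) ^ (2 * (32 * em h)))) * (4 * 2 ^ (3 * h)) =
      2 ^ ((2 + 2 * h + h + 64 * em h + (6 + 3 * h + 24 * em h * uu h) * (2 * (32 * em h))) + (2 + 3 * h)) := by
    rw [show (4 : ℝ) ^ (32 * em h) = 2 ^ (64 * em h) by
      rw [show (4 : ℝ) = 2 ^ 2 by norm_num, ← pow_mul]
      congr 1
      ring]
    rw [show (4 * 2 ^ (3 * h) : ℝ) = 2 ^ (2 + 3 * h) by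
      rw [pow_add]
      ring]
    rw [← pow_mul]
    rw [show (2 * 2 ^ h : ℝ) ^ 2 = 2 ^ (2 + 2 * h) by
      rw [mul_pow, ← pow_mul, pow_add]
      congr 2
      ring]
    simp only [pow_add]
    ring
  rw [e2]
  exact pow_le_pow_right₀ (by norm_num) (exp4 h hh)

end Pool.Agent.K93.SD.PAR

namespace Pool.Agent.K93.SD

open PAR in
/-- **PAR** -/
theorem t_PAR : S_PAR := by
  refine ⟨1024, by norm_num, ?_⟩
  intro h X hh hX
  have hX' : (2 : ℝ) ^ xx h ≤ (X : ℝ) := by exact_mod_cast hX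
  have hX0 : (0 : ℝ) ≤ (X : ℝ) := Nat.cast_nonneg X
  have t1 := term1 h hh X hX0
  have t2 := term2 h hh X hX'
  have t3 := term3 h hh X hX0
  have t4 := term4 h hh X hX'
  unfold LL at t1 t2 t3
  have e : (X : ℝ) / 2 ^ (3 * h) = X / (4 * 2 ^ (3 * h)) + X / (4 * 2 ^ (3 * h)) + (X / (4 * 2 ^ (3 * h)) + X / (4 * 2 ^ (3 * h))) := by
    have : (2 : ℝ) ^ (3 * h) ≠ 0 := by positivity
    field_simp
    ring
  rw [e]
  rw [mul_add]
  refine add_le_add ?_ ?_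
  · rw [mul_add, mul_add]
    exact add_le_add t1 t2
  · rw [mul_add, mul_add, mul_add]
    exact add_le_add t3 t4

end Pool.Agent.K93.SD
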