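import Pool.Agent.K93.SD.Stm

/-!
# Zeros of the gcd recursion with `n^2 - 1`: part REC

A short gap between two consecutive zeros gives a reversed walk.
-/

set_option autoImplicit false

namespace Pool.Agent.K93.SD

namespace REC

/-- the jump -/
def gg (a : ℕ → ℤ) (i : ℕ) : ℕ := Int.gcd (a (i - 1)) ((i : ℤ) ^ 2 - 1)

lemma step_abs {a : ℕ → ℤ} {n : ℕ} (ha : IsFrom a n) (i : ℕ) (hi : n < i) :
    a i = |a (i - 1) - (gg a i : ℤ)| := ha i hi

lemma nonneg {a : ℕ → ℤ} {n : ℕ} (ha : IsFrom a n) (i : ℕ) (hi : n < i) : 0 ≤ a i := by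
  rw [step_abs ha i hi]
  exact abs_nonneg _

lemma gg_pos {a : ℕ → ℤ} (i : ℕ) (h : a (i - 1) ≠ 0) : 1 ≤ gg a i :=
  Int.gcd_pos_of_ne_zero_left _ h

lemma gg_le {a : ℕ → ℤ} (i : ℕ) (h : 0 < a (i - 1)) : (gg a i : ℤ) ≤ a (i - 1) :=
  Int.le_of_dvd h (Int.gcd_dvd_left _ _)

lemma step {a : ℕ → ℤ} {n : ℕ} (ha : IsFrom a n) (i : ℕ) (hi : n < i) (h : 0 < a (i - 1)) :
    a i = a (i - 1) - gg a i := by
  rw [step_abs ha i hi, abs_of_nonneg]
  have := gg_le i h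
  linarith

lemma after_zero {a : ℕ → ℤ} (n : ℕ) (ha : IsFrom a n) (h : a n = 0) :
    a (n + 1) = (n : ℤ) ^ 2 + 2 * n := by
  have h1 : (gg a (n + 1) : ℤ) = (n : ℤ) ^ 2 + 2 * n := by
    unfold gg
    rw [Nat.add_sub_cancel, h, Int.gcd_zero_left, Int.natCast_natAbs, abs_of_nonneg]
    · push_cast
      ring
    · push_cast
      nlinarith [Int.natCast_nonneg n]
  rw [step_abs ha (n + 1) (by omega), Nat.add_sub_cancel, h, h1, zero_sub, abs_neg, abs_of_nonneg]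
  positivity

lemma split (g A B : ℕ) (hg : 0 < g) (h : g ∣ A * B) : g / Nat.gcd g A ∣ B := by
  have hd : 0 < Nat.gcd g A := Nat.gcd_pos_of_pos_left _ hg
  have h1 : Nat.Coprime (g / Nat.gcd g A) (A / Nat.gcd g A) := Nat.coprime_div_gcd_div_gcd hd
  apply h1.dvd_of_dvd_mul_left
  have h2 : A / Nat.gcd g A * B = A * B / Nat.gcd g A := by
    rw [mul_comm A B, Nat.mul_div_assoc B (Nat.gcd_dvd_right g A), mul_comm]
  rw [h2]
  exact Nat.div_dvd_div (Nat.gcd_dvd_left g A) h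

/-- the arithmetic of one reversed step -/
lemma dvds (k s g μ j t : ℕ) (A A1 : ℤ) (hg : 0 < g) (hks : s + 2 ≤ k)
    (hV : (g : ℤ) ∣ ((k - s : ℕ) : ℤ) ^ 2 - 1) (hA : (g : ℤ) ∣ A) (ht : (t : ℤ) = A - A1)
    (hμ : (μ : ℤ) * A1 = j * ((k : ℤ) ^ 2 - 1)) :
    ((Nat.gcd g (k - s - 1) : ℕ) : ℤ) ∣ (k : ℤ) - s - 1 ∧
    ((g / Nat.gcd g (k - s - 1) : ℕ) : ℤ) ∣ (k : ℤ) - s + 1 ∧
    ((Nat.gcd g (k - s - 1) : ℕ) : ℤ) ∣ μ * t + j * (s * (s + 2)) ∧
    ((g / Nat.gcd g (k - s - 1) : ℕ) : ℤ) ∣ μ * t + j * (s * (s - 2)) := by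
  have hk1 : ((k - s - 1 : ℕ) : ℤ) = (k : ℤ) - s - 1 := by omega
  have hk2 : ((k - s + 1 : ℕ) : ℤ) = (k : ℤ) - s + 1 := by omega
  have hk0 : ((k - s : ℕ) : ℤ) = (k : ℤ) - s := by omega
  have hV' : g ∣ (k - s - 1) * (k - s + 1) := by
    rw [← Int.natCast_dvd_natCast]
    push_cast [hk1, hk2]
    rw [hk0] at hV
    have : ((k : ℤ) - s - 1) * ((k : ℤ) - s + 1) = ((k : ℤ) - s) ^ 2 - 1 := by ring
    rw [this]
    exact hV
  have e1 : ((Nat.gcd g (k - s - 1) : ℕ) : ℤ) ∣ (k : ℤ) - s - 1 := by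
    rw [← hk1]
    exact Int.natCast_dvd_natCast.2 (Nat.gcd_dvd_right _ _)
  have f1 : ((g / Nat.gcd g (k - s - 1) : ℕ) : ℤ) ∣ (k : ℤ) - s + 1 := by
    rw [← hk2]
    exact Int.natCast_dvd_natCast.2 (split g _ _ hg hV')
  have e2 : ((Nat.gcd g (k - s - 1) : ℕ) : ℤ) ∣ A :=
    (Int.natCast_dvd_natCast.2 (Nat.gcd_dvd_left _ _)).trans hA
  have f2 : ((g / Nat.gcd g (k - s - 1) : ℕ) : ℤ) ∣ A :=
    (Int.natCast_dvd_natCast.2 (Nat.div_dvd_of_dvd (Nat.gcd_dvd_left _ _))).trans hA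
  refine ⟨e1, f1, ?_, ?_⟩
  · have : (μ : ℤ) * t + j * (s * (s + 2)) = μ * A - j * ((k + s + 1) * ((k : ℤ) - s - 1)) := by
      rw [ht]
      linear_combination -hμ
    rw [this]
    exact dvd_sub (e2.mul_left _) ((e1.mul_left _).mul_left _)
  · have : (μ : ℤ) * t + j * (s * (s - 2)) = μ * A - j * ((k + s - 1) * ((k : ℤ) - s + 1)) := by
      rw [ht]
      linear_combination -hμ
    rw [this]
    exact dvd_sub (f2.mul_left _) ((f1.mul_left _).mul_left _)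

lemma arith0 (n G : ℤ) (hG : 1 ≤ G) (hn : 1000 * G ^ 4 ≤ n) :
    1000 ≤ n ∧ 2 * (n * G) + G ^ 2 + 1 ≤ n ^ 2 ∧
    2 * G * n + 2 * G * (2 * n * G + G ^ 2) ≤ n ^ 2 := by
  have h1 : G ≤ G ^ 2 := by nlinarith
  have h2 : G ^ 2 ≤ G ^ 3 := by nlinarith [sq_nonneg G]
  have h3 : G ^ 3 ≤ G ^ 4 := by nlinarith [pow_pos (lt_of_lt_of_le one_pos hG) 3]
  have hn0 : 1000 ≤ n := by linarith
  have h5 : (1000 * G ^ 4) * n ≤ n * n := mul_le_mul_of_nonneg_right hn (by linarith)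
  have h13 : G ^ 2 * n ≤ G ^ 4 * n := mul_le_mul_of_nonneg_right (by linarith) (by linarith)
  have h14 : G * n ≤ G ^ 4 * n := mul_le_mul_of_nonneg_right (by linarith) (by linarith)
  have h15 : G ^ 4 * 1 ≤ G ^ 4 * n := mul_le_mul_of_nonneg_left (by linarith) (by positivity)
  refine ⟨hn0, ?_, ?_⟩
  · have : n ^ 2 = n * n := sq n
    rw [this]
    linarith [mul_comm n G]
  · have : n ^ 2 = n * n := sq n
    rw [this]
    have h16 : 2 * G * n + 2 * G * (2 * n * G + G ^ 2) = 2 * (G * n) + 4 * (G ^ 2 * n) + 2 * G ^ 3 := by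
      ring
    rw [h16]
    linarith

lemma arith1 (n G : ℤ) (hG : 1 ≤ G) (hn : 1000 * G ^ 4 ≤ n) :
    G * (n ^ 2 + 2 * n * G + G ^ 2) < (2 * G + 1) * (n ^ 2 + 2 * n) := by
  obtain ⟨h1, h2, -⟩ := arith0 n G hG hn
  have h3 : 0 ≤ G * (n ^ 2 - (2 * (n * G) + G ^ 2 + 1)) := mul_nonneg (by linarith) (by linarith)
  have h4 : 0 ≤ G * n := mul_nonneg (by linarith) (by linarith)
  have h5 : 0 ≤ n ^ 2 := sq_nonneg n
  have h6 : (2 * G + 1) * (n ^ 2 + 2 * n) - G * (n ^ 2 + 2 * n * G + G ^ 2) =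
    G * (n ^ 2 - (2 * (n * G) + G ^ 2 + 1)) + G + n ^ 2 + 4 * (G * n) + 2 * n := by ring
  linarith

lemma arith2 (n G μ V a1 : ℤ) (hG : 1 ≤ G) (hn : 1000 * G ^ 4 ≤ n) (h0 : 1 ≤ μ) (h1 : μ ≤ 2 * G)
    (hV : n ^ 2 ≤ V) (hV' : V - a1 ≤ 2 * n * G + G ^ 2) : μ * n ≤ μ * a1 - (μ - 1) * V := by
  obtain ⟨h2, -, h3⟩ := arith0 n G hG hn
  have h9 : μ * (V - a1) ≤ μ * (2 * n * G + G ^ 2) := mul_le_mul_of_nonneg_left hV' (by linarith)
  have h4 : 0 ≤ 2 * n * G + G ^ 2 := by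
    have := mul_nonneg (by linarith : 0 ≤ n) (by linarith : 0 ≤ G)
    nlinarith [sq_nonneg G]
  have h10 : μ * (2 * n * G + G ^ 2) ≤ 2 * G * (2 * n * G + G ^ 2) :=
    mul_le_mul_of_nonneg_right h1 h4
  have h11 : μ * n ≤ 2 * G * n := mul_le_mul_of_nonneg_right h1 (by linarith)
  have h12 : μ * a1 - (μ - 1) * V = V - μ * (V - a1) := by ring
  rw [h12]
  linarith

lemma Vub (k n G : ℤ) (hk : 0 ≤ k) (h : k ≤ n + G) :
    k ^ 2 - 1 ≤ n ^ 2 + 2 * n * G + G ^ 2 := by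
  have h1 : k ^ 2 ≤ (n + G) ^ 2 := pow_le_pow_left₀ hk h 2
  linarith [add_sq n G]

lemma Vlb (k n : ℤ) (hn : 0 ≤ n) (h : n + 2 ≤ k) : n ^ 2 ≤ k ^ 2 - 1 := by
  have h1 : (n + 2) ^ 2 ≤ k ^ 2 := pow_le_pow_left₀ (by omega) h 2
  have h2 : (n + 2) ^ 2 = n ^ 2 + 4 * n + 4 := by ring
  linarith

end REC

open REC in
theorem t_REC : S_REC := by
  intro a n n' G ha hG hn hnn hz hz' hne hgap
  have hG4 : 1 ≤ G ^ 4 := Nat.one_le_pow _ _ hG
  have hn1 : 1000 ≤ n := by omega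
  have hpos : ∀ i, n + 1 ≤ i → i < n' → 0 < a i := fun i h1 h2 =>
    lt_of_le_of_ne (nonneg ha i (by omega)) (hne i (by omega) h2).symm
  have haz : a (n + 1) = (n : ℤ) ^ 2 + 2 * n := after_zero n ha hz
  have hazpos : 0 < a (n + 1) := by
    rw [haz]
    positivity
  have hn'2 : n + 2 ≤ n' := by
    by_contra h
    obtain rfl : n' = n + 1 := by omega
    omega
  have hst : ∀ i, n + 2 ≤ i → i ≤ n' → a i = a (i - 1) - gg a i := fun i h1 h2 =>
    step ha i (by omega) (hpos (i - 1) (by omega) (by omega))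
  have hgp : ∀ i, n + 2 ≤ i → i ≤ n' → 1 ≤ gg a i := fun i h1 h2 =>
    gg_pos i (hpos (i - 1) (by omega) (by omega)).ne'
  have hanti : ∀ i i', n + 1 ≤ i → i ≤ i' → i' ≤ n' → a i' ≤ a i := by
    intro i i' h1 h2
    induction i', h2 using Nat.le_induction with
    | base => intro _; exact le_refl _
    | succ m hm ih =>
      intro hm'
      have h3 := ih (by omega)
      have h4 := hst (m + 1) (by omega) hm'
      rw [Nat.add_sub_cancel] at h4
      omega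
  have hex : ∃ k, n + 2 ≤ k ∧ k ≤ n' ∧ a (n + 1) ≤ (G : ℤ) * gg a k := by
    by_contra hcon
    push Not at hcon
    have h1 : ∀ m, n + 1 + m ≤ n' → ((G : ℤ) - m) * a (n + 1) ≤ G * a (n + 1 + m) := by
      intro m
      induction m with
      | zero => intro _; simp
      | succ m ih =>
        intro hm
        have h2 := ih (by omega)
        have h3 := hst (n + 1 + (m + 1)) (by omega) hm
        have h4 := hcon (n + 1 + (m + 1)) (by omega) hm
        have h5 : n + 1 + (m + 1) - 1 = n + 1 + m := by omega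
        rw [h5] at h3
        rw [h3]
        push_cast
        nlinarith
    have h2 := h1 (n' - (n + 1)) (by omega)
    have h3 : n + 1 + (n' - (n + 1)) = n' := by omega
    rw [h3, hz', mul_zero] at h2
    have h4 : (1 : ℤ) ≤ (G : ℤ) - ((n' - (n + 1) : ℕ) : ℤ) := by omega
    nlinarith
  obtain ⟨k, hk1, hk2, hk3⟩ := hex
  have hg1 : 1 ≤ gg a k := hgp k hk1 hk2
  have hkp : 0 < a (k - 1) := hpos (k - 1) (by omega) (by omega)
  have hkG : k ≤ n + G := by omega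
  -- the two quotients
  have hkn : (n : ℤ) + 2 ≤ k := by exact_mod_cast hk1
  have hkG' : (k : ℤ) ≤ n + G := by exact_mod_cast hkG
  have hn0 : (1000 : ℤ) ≤ n := by exact_mod_cast hn1
  have hVk : (0 : ℤ) < (k : ℤ) ^ 2 - 1 := by nlinarith
  have hg0 : (0 : ℤ) < gg a k := by exact_mod_cast hg1
  obtain ⟨μ', hμ'⟩ : (gg a k : ℤ) ∣ (k : ℤ) ^ 2 - 1 := Int.gcd_dvd_right _ _
  obtain ⟨j', hj'⟩ : (gg a k : ℤ) ∣ a (k - 1) := Int.gcd_dvd_left _ _
  have hμ0 : 0 < μ' := by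
    rw [hμ'] at hVk
    exact pos_of_mul_pos_right hVk hg0.le
  have hj0 : 0 < j' := by
    rw [hj'] at hkp
    exact pos_of_mul_pos_right hkp hg0.le
  obtain ⟨μ, rfl⟩ : ∃ μ : ℕ, μ' = μ := ⟨μ'.toNat, by omega⟩
  obtain ⟨j, rfl⟩ : ∃ j : ℕ, j' = j := ⟨j'.toNat, by omega⟩
  have hle1 : a (k - 1) ≤ a (n + 1) := hanti (n + 1) (k - 1) (le_refl _) (by omega) (by omega)
  have hjμ : j < μ := by
    have h1 : (gg a k : ℤ) * j < gg a k * μ := by
      rw [← hj', ← hμ']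
      refine lt_of_le_of_lt hle1 ?_
      rw [haz]
      have h2 : ((n : ℤ) + 2) ^ 2 ≤ k ^ 2 := pow_le_pow_left₀ (by omega) hkn 2
      have h3 : ((n : ℤ) + 2) ^ 2 = n ^ 2 + 4 * n + 4 := by ring
      linarith
    exact_mod_cast lt_of_mul_lt_mul_left h1 hg0.le
  have hG0 : (1 : ℤ) ≤ G := by exact_mod_cast hG
  have hnG4 : 1000 * (G : ℤ) ^ 4 ≤ n := by exact_mod_cast hn
  have hVub : (k : ℤ) ^ 2 - 1 ≤ n ^ 2 + 2 * n * G + G ^ 2 :=
    Vub k n G (by omega) hkG'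
  have hμG : μ ≤ 2 * G := by
    by_contra hcon
    have hc : (2 * (G : ℤ) + 1) ≤ μ := by exact_mod_cast (by omega : 2 * G + 1 ≤ μ)
    have h1 : (μ : ℤ) * a (n + 1) ≤ G * ((k : ℤ) ^ 2 - 1) := by
      rw [hμ']
      calc (μ : ℤ) * a (n + 1) ≤ μ * (G * gg a k) := mul_le_mul_of_nonneg_left hk3 hμ0.le
        _ = G * (gg a k * μ) := by ring
    have h2 : (2 * (G : ℤ) + 1) * a (n + 1) ≤ G * (n ^ 2 + 2 * n * G + G ^ 2) := by
      have h3 : (2 * (G : ℤ) + 1) * a (n + 1) ≤ μ * a (n + 1) :=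
        mul_le_mul_of_nonneg_right hc hazpos.le
      have h4 : (G : ℤ) * ((k : ℤ) ^ 2 - 1) ≤ G * (n ^ 2 + 2 * n * G + G ^ 2) :=
        mul_le_mul_of_nonneg_left hVub (by omega)
      linarith
    rw [haz] at h2
    exact absurd h2 (not_le.2 (arith1 n G hG0 hnG4))
  have hμA : (μ : ℤ) * a (k - 1) = j * ((k : ℤ) ^ 2 - 1) := by
    rw [hj', hμ']
    ring
  -- the reversed walk
  have hT : ∀ s, 1 ≤ s → s ≤ k - n - 1 →
      (((a (k - s) - a (k - 1)).toNat : ℕ) : ℤ) = a (k - s) - a (k - 1) := by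
    intro s h1 h2
    apply Int.toNat_of_nonneg
    have := hanti (k - s) (k - 1) (by omega) (by omega) (by omega)
    omega
  have hgd : ∀ s, 1 ≤ s → s ≤ k - n - 2 → (gg a (k - s) : ℤ) ∣ a (k - s) := by
    intro s h1 h2
    rw [hst (k - s) (by omega) (by omega)]
    exact dvd_sub (Int.gcd_dvd_left _ _) (dvd_refl _)
  have hD : ∀ s, 1 ≤ s → s ≤ k - n - 2 → _ := fun s h1 h2 =>
    dvds k s (gg a (k - s)) μ j (a (k - s) - a (k - 1)).toNat (a (k - s)) (a (k - 1))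
      (hgp (k - s) (by omega) (by omega)) (by omega) (Int.gcd_dvd_right _ _) (hgd s h1 h2)
      (hT s h1 (by omega)) hμA
  have hT1 : (a (k - 1) - a (k - 1)).toNat = 0 := by simp
  have hef : ∀ s, Nat.gcd (gg a (k - s)) (k - s - 1) *
      (gg a (k - s) / Nat.gcd (gg a (k - s)) (k - s - 1)) = gg a (k - s) := fun s =>
    Nat.mul_div_cancel' (Nat.gcd_dvd_left _ _)
  have hstep : ∀ s, 1 ≤ s → s ≤ k - n - 2 → (a (k - (s + 1)) - a (k - 1)).toNat =
      (a (k - s) - a (k - 1)).toNat + Nat.gcd (gg a (k - s)) (k - s - 1) *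
      (gg a (k - s) / Nat.gcd (gg a (k - s)) (k - s - 1)) := by
    intro s h1 h2
    have h3 := hT s h1 (by omega)
    have h4 := hT (s + 1) (by omega) (by omega)
    have h5 := hst (k - s) (by omega) (by omega)
    have h6 : k - s - 1 = k - (s + 1) := by omega
    rw [hef s]
    rw [h6] at h5
    omega
  refine ⟨k, μ, j, k - n - 2, fun s => (a (k - s) - a (k - 1)).toNat,
    fun s => Nat.gcd (gg a (k - s)) (k - s - 1),
    fun s => gg a (k - s) / Nat.gcd (gg a (k - s)) (k - s - 1),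
    by omega, hk2, by exact_mod_cast hj0, hjμ, hμG, by omega, ⟨hT1, ?_, ?_, ?_, ?_, ?_, ?_, ?_, ?_⟩, ?_⟩
  · intro hR
    have h1 := hstep 1 (le_refl _) hR
    obtain ⟨-, -, h2, h3⟩ := hD 1 (le_refl _) hR
    show (a (k - (1 + 1)) - a (k - 1)).toNat ≤ 3 * j * j
    rw [h1, hT1, zero_add]
    rw [hT1] at h2 h3
    push_cast at h2 h3
    have hj0' : 0 < j := by exact_mod_cast hj0
    have h4 : Nat.gcd (gg a (k - 1)) (k - 1 - 1) ≤ 3 * j := by
      apply Nat.le_of_dvd (by omega)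
      rw [← Int.natCast_dvd_natCast]
      have : (μ : ℤ) * 0 + j * (1 * (1 + 2)) = ((3 * j : ℕ) : ℤ) := by push_cast; ring
      rw [← this]
      exact_mod_cast h2
    have h5 : gg a (k - 1) / Nat.gcd (gg a (k - 1)) (k - 1 - 1) ≤ j := by
      apply Nat.le_of_dvd hj0'
      rw [← Int.natCast_dvd_natCast, ← dvd_neg]
      have : (μ : ℤ) * 0 + j * (1 * (1 - 2)) = -((j : ℕ) : ℤ) := by ring
      rw [← this]
      exact_mod_cast h3
    exact Nat.mul_le_mul h4 h5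
  · intro s h1 h2
    exact Nat.gcd_pos_of_pos_left _ (hgp (k - s) (by omega) (by omega))
  · intro s h1 h2
    have h3 : 0 < gg a (k - s) := hgp (k - s) (by omega) (by omega)
    exact Nat.div_pos (Nat.le_of_dvd h3 (Nat.gcd_dvd_left _ _)) (Nat.gcd_pos_of_pos_left _ h3)
  · intro s h1 h2
    exact hstep s h1 h2
  · intro s h1 h2
    have h3 := (hD s h1 h2).2.2.1
    rw [← Int.natCast_dvd_natCast]
    unfold AA
    push_cast
    exact h3
  · intro s h1 h2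
    have h3 := (hD s h1 h2).2.2.2
    unfold BB
    rcases Nat.lt_or_ge s 2 with h4 | h4
    · obtain rfl : s = 1 := by omega
      show _ ∣ μ * (a (k - 1) - a (k - 1)).toNat + j * (1 * 1) - 2 * j * 1
      rw [hT1]
      have : μ * 0 + j * (1 * 1) - 2 * j * 1 = 0 := by omega
      rw [this]
      exact dvd_zero _
    · rw [← Int.natCast_dvd_natCast]
      have h5 : 2 * j * s ≤ μ * (a (k - s) - a (k - 1)).toNat + j * (s * s) := by
        have h7 : 2 * j * s ≤ j * (s * s) := by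
          calc 2 * j * s = j * (2 * s) := by ring
            _ ≤ j * (s * s) := Nat.mul_le_mul_left _ (Nat.mul_le_mul_right _ h4)
        exact h7.trans (Nat.le_add_left _ _)
      have h6 : ((μ * (a (k - s) - a (k - 1)).toNat + j * (s * s) - 2 * j * s : ℕ) : ℤ) =
          μ * ((a (k - s) - a (k - 1)).toNat : ℕ) + j * (s * (s - 2)) := by
        rw [Nat.cast_sub h5]
        push_cast
        ring
      show _ ∣ ((μ * (a (k - s) - a (k - 1)).toNat + j * (s * s) - 2 * j * s : ℕ) : ℤ)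
      rw [h6]
      exact h3
  · intro s h1 h2
    exact (hD s h1 h2).1
  · intro s h1 h2
    exact (hD s h1 h2).2.1
  · have h1 : k - n - 2 + 1 = k - n - 1 := by omega
    have h2 := hT (k - n - 1) (by omega) (le_refl _)
    have h3 : k - (k - n - 1) = n + 1 := by omega
    show n ≤ (a (k - (k - n - 2 + 1)) - a (k - 1)).toNat
    rw [h1]
    rw [h3] at h2 ⊢
    have h4 : (n : ℤ) ≤ a (n + 1) - a (k - 1) := by
      have hμ1 : (1 : ℤ) ≤ μ := by omega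
      have hμG' : (μ : ℤ) ≤ 2 * G := by exact_mod_cast hμG
      have hj1 : (j : ℤ) ≤ μ - 1 := by omega
      have h5 : (μ : ℤ) * n ≤ μ * (a (n + 1) - a (k - 1)) := by
        rw [mul_sub, hμA]
        have h6 : (j : ℤ) * ((k : ℤ) ^ 2 - 1) ≤ (μ - 1) * ((k : ℤ) ^ 2 - 1) :=
          mul_le_mul_of_nonneg_right hj1 hVk.le
        have h7 : (n : ℤ) ^ 2 ≤ (k : ℤ) ^ 2 - 1 := Vlb k n (by omega) hkn
        have h8 : (k : ℤ) ^ 2 - 1 - a (n + 1) ≤ 2 * n * G + G ^ 2 := by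
          rw [haz]
          linarith
        have h9 := arith2 n G μ ((k : ℤ) ^ 2 - 1) (a (n + 1)) hG0 hnG4 hμ1 hμG' h7 h8
        linarith
      exact le_of_mul_le_mul_left h5 (by omega)
    omega

end Pool.Agent.K93.SD
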