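import Pool.Agent.K93.SD.Stm
import Pool.Agent.N333.GR.Dbl

/-!
# Project SD (helper93), part RUN (helper94): growth of the number of jumps without bad runs
(adapted from `N333/GR/Run.lean`)
-/

set_option autoImplicit false

namespace Pool.Agent.K93.SD.RUN

open Finset Pool.Agent.K93.SD

/-- telescoping -/
theorem T_eq {k μ j R : ℕ} {T e f : ℕ → ℕ} (hW : Walk k μ j R T e f) {p : ℕ} (hp : 1 ≤ p) (m : ℕ)
    (hm : p + m ≤ R + 1) : T (p + m) = T p + ∑ x ∈ range m, e (p + x) * f (p + x) := by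
  induction m with
  | zero => simp
  | succ m ih =>
    have h1 := ih (by omega)
    have h2 := hW.step (p + m) (by omega) (by omega)
    rw [sum_range_succ, ← add_assoc, ← add_assoc]
    omega

theorem T_mono {k μ j R : ℕ} {T e f : ℕ → ℕ} (hW : Walk k μ j R T e f) {p x : ℕ} (hp : 1 ≤ p) (hpx : p ≤ x)
    (hx : x ≤ R + 1) : T p ≤ T x := by
  obtain ⟨m, rfl⟩ := Nat.exists_eq_add_of_le hpx
  rw [T_eq hW hp m hx]
  exact Nat.le_add_right _ _

/-- the value of `T` at the next element -/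
theorem gap {k μ j R G : ℕ} {T e f : ℕ → ℕ} (hW : Walk k μ j R T e f) (hRG : R ≤ G) {p q E : ℕ} (hp : 1 ≤ p)
    (hpq : p < q) (hq : q ≤ R) (hE : ∀ x, p < x → x < q → e x * f x ≤ E) :
    T p + e p * f p ≤ T q ∧ T q ≤ T p + e p * f p + G * E := by
  obtain ⟨m, hm⟩ : ∃ m, q = p + (m + 1) := ⟨q - p - 1, by omega⟩
  have h1 := T_eq hW hp (m + 1) (by omega)
  rw [← hm, sum_range_succ'] at h1
  rw [add_zero] at h1
  have h2 : ∑ x ∈ range m, e (p + (x + 1)) * f (p + (x + 1)) ≤ ∑ _x ∈ range m, E := by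
    refine sum_le_sum fun x hx => ?_
    rw [mem_range] at hx
    exact hE (p + (x + 1)) (by omega) (by omega)
  rw [sum_const, card_range, smul_eq_mul] at h2
  have h3 : m * E ≤ G * E := Nat.mul_le_mul_right _ (by omega)
  constructor
  · omega
  · omega

/-- a common divisor of two numbers with small nonzero difference is small -/
theorem gcd_le {x y : ℤ} {u v B : ℕ} (hu : (u : ℤ) ∣ x) (hv : (v : ℤ) ∣ y) (hne : x - y ≠ 0)
    (hB : |x - y| ≤ B) : Nat.gcd u v ≤ B := by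
  have h1 : ((Nat.gcd u v : ℕ) : ℤ) ∣ x - y :=
    dvd_sub ((Int.natCast_dvd_natCast.2 (Nat.gcd_dvd_left u v)).trans hu)
      ((Int.natCast_dvd_natCast.2 (Nat.gcd_dvd_right u v)).trans hv)
  have h2 : ((Nat.gcd u v : ℕ) : ℤ) ≤ |x - y| :=
    Int.le_of_dvd (abs_pos.2 hne) ((dvd_abs _ _).2 h1)
  exact_mod_cast h2.trans hB

/-- the gcd of `e n` and `f n'` for `n < n'` -/
theorem gcd_ef {k μ j R G : ℕ} {T e f : ℕ → ℕ} (hW : Walk k μ j R T e f) (hRG : R ≤ G) (hμ : 1 ≤ μ)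
    (hμG : μ ≤ 2 * G) {n n' : ℕ} (hn : 1 ≤ n) (hnn : n < n') (hn' : n' ≤ R) :
    Nat.gcd (e n) (f n') ≤ 4 * G := by
  by_cases h2 : n' = n + 2
  · subst h2
    obtain ⟨d, hd⟩ : ∃ d, d = Nat.gcd (e n) (f (n + 2)) := ⟨_, rfl⟩
    rw [← hd]
    have hde : d ∣ e n := hd ▸ Nat.gcd_dvd_left _ _
    have hdf : d ∣ f (n + 2) := hd ▸ Nat.gcd_dvd_right _ _
    have a1 : (d : ℤ) ∣ ((AA μ j n (T n) : ℕ) : ℤ) :=
      Int.natCast_dvd_natCast.2 (hde.trans (hW.eT n hn (by omega)))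
    have a2 : (d : ℤ) ∣ ((BB μ j (n + 2) (T (n + 2)) : ℕ) : ℤ) :=
      Int.natCast_dvd_natCast.2 (hdf.trans (hW.fT (n + 2) (by omega) hn'))
    have hBB : ((BB μ j (n + 2) (T (n + 2)) : ℕ) : ℤ) = μ * T (n + 2) + j * ((n + 2) * n) := by
      have h3 : BB μ j (n + 2) (T (n + 2)) = μ * T (n + 2) + j * ((n + 2) * n) := by
        unfold BB
        have h4 : μ * T (n + 2) + j * ((n + 2) * (n + 2)) =
            μ * T (n + 2) + j * ((n + 2) * n) + 2 * j * (n + 2) := by ring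
        rw [h4, Nat.add_sub_cancel]
      rw [h3]
      push_cast
      ring
    have hAA : ((AA μ j n (T n) : ℕ) : ℤ) = μ * T n + j * (n * (n + 2)) := by
      unfold AA
      push_cast
      ring
    rw [hAA] at a1
    rw [hBB] at a2
    have hs1 := hW.step n hn (by omega)
    have hs2 := hW.step (n + 1) (by omega) (by omega)
    have a3 : (d : ℤ) ∣ (μ : ℤ) * (e n * f n + e (n + 1) * f (n + 1)) := by
      have h3 := dvd_sub a2 a1
      have h4 : ((T (n + 2) : ℕ) : ℤ) = T n + e n * f n + e (n + 1) * f (n + 1) := by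
        rw [show n + 2 = n + 1 + 1 from rfl, hs2, hs1]
        push_cast
        ring
      rw [h4] at h3
      have h5 : (μ : ℤ) * (e n * f n + e (n + 1) * f (n + 1)) =
          μ * (T n + e n * f n + e (n + 1) * f (n + 1)) + j * ((n + 2) * n) -
            (μ * T n + j * (n * (n + 2))) := by ring
      rw [h5]
      exact h3
    have a4 : (d : ℤ) ∣ (μ : ℤ) * (e (n + 1) * f (n + 1)) := by
      have h3 : (d : ℤ) ∣ (μ : ℤ) * (e n * f n) :=
        Dvd.dvd.mul_left (Dvd.dvd.mul_right (Int.natCast_dvd_natCast.2 hde) _) _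
      have h4 := dvd_sub a3 h3
      have h5 : (μ : ℤ) * (e (n + 1) * f (n + 1)) =
          μ * (e n * f n + e (n + 1) * f (n + 1)) - μ * (e n * f n) := by ring
      rw [h5]
      exact h4
    have a5 : (d : ℤ) ∣ (k : ℤ) - n - 1 := (Int.natCast_dvd_natCast.2 hde).trans (hW.eK n hn (by omega))
    have c1 : IsCoprime (d : ℤ) (e (n + 1) : ℤ) := by
      obtain ⟨x, hx⟩ := a5
      obtain ⟨y, hy⟩ := hW.eK (n + 1) (by omega) (by omega)
      refine ⟨x, -y, ?_⟩
      push_cast at hy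
      have h3 : x * (d : ℤ) + -y * (e (n + 1) : ℤ) = 1 := by linarith
      exact h3
    have c2 : IsCoprime (d : ℤ) (f (n + 1) : ℤ) := by
      obtain ⟨x, hx⟩ := a5
      obtain ⟨y, hy⟩ := hW.fK (n + 1) (by omega) (by omega)
      refine ⟨-x, y, ?_⟩
      push_cast at hy
      have h3 : -x * (d : ℤ) + y * (f (n + 1) : ℤ) = 1 := by linarith
      exact h3
    have a6 : (d : ℤ) ∣ (μ : ℤ) := by
      have h3 : (d : ℤ) ∣ ((e (n + 1) : ℤ) * f (n + 1)) * μ := by
        rw [mul_comm]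
        exact a4
      exact (c1.mul_right c2).dvd_of_dvd_mul_left h3
    have a7 : d ≤ μ := Nat.le_of_dvd (by omega) (Int.natCast_dvd_natCast.1 a6)
    omega
  · refine gcd_le (hW.eK n hn (by omega)) (hW.fK n' (by omega) hn') ?_ ?_
    · intro h3
      apply h2
      omega
    · rw [abs_le]
      constructor
      · push_cast
        omega
      · push_cast
        omega

open Classical in
theorem step (hDBL : Pool.Agent.N333.GR.S_DBL) {k μ j G R Y T0 Ts r D D' : ℕ} {T e f : ℕ → ℕ}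
    (hW : Walk k μ j R T e f) (hRG : R ≤ G) (hμ : 1 ≤ μ) (hμG : μ ≤ 2 * G)
    (hTs : ∀ n, 1 ≤ n → n ≤ R → T n ≤ Ts) (hr : 2 ≤ r) (hY : 1 ≤ Y) (hG : 1 ≤ G) (hD' : G < D')
    (hDD : 2 * G * Y * D' ≤ D) (hB : ¬ BadRun μ j G Y T0 Ts D r k) (hrJ : r ≤ (J R T0 D T e f).card) :
    J R T0 D T e f ⊆ J R T0 D' T e f ∧ 9 * (J R T0 D T e f).card ≤ 8 * (J R T0 D' T e f).card := by
  have hDle : D' ≤ D := by
    have h1 : 1 ≤ 2 * G * Y := by
      have : 0 < 2 * G * Y := by positivity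
      omega
    calc D' = 1 * D' := (one_mul _).symm
      _ ≤ (2 * G * Y) * D' := Nat.mul_le_mul_right _ h1
      _ ≤ D := hDD
  have hsub : J R T0 D T e f ⊆ J R T0 D' T e f := by
    intro x hx
    unfold J at hx ⊢
    rw [mem_filter] at hx ⊢
    exact ⟨hx.1, hx.2.1, hDle.trans hx.2.2⟩
  refine ⟨hsub, ?_⟩
  have hJm : ∀ (D x : ℕ), x ∈ J R T0 D T e f ↔ (1 ≤ x ∧ x ≤ R) ∧ T0 ≤ T x ∧ D ≤ e x * f x := by
    intro D x
    unfold J
    rw [mem_filter, mem_Icc]
  -- the enumeration of `J`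
  obtain ⟨F, hF⟩ : ∃ F : ℕ → ℕ, F = fun i => if h : i < (J R T0 D T e f).card then
    (J R T0 D T e f).orderEmbOfFin rfl ⟨i, h⟩ else 0 := ⟨_, rfl⟩
  have hFv : ∀ i (h : i < (J R T0 D T e f).card), F i = (J R T0 D T e f).orderEmbOfFin rfl ⟨i, h⟩ := by
    intro i h
    rw [hF]
    exact dif_pos h
  have hFm : ∀ i, i < (J R T0 D T e f).card → F i ∈ J R T0 D T e f := by
    intro i h
    rw [hFv i h]
    exact orderEmbOfFin_mem _ _ _
  have hFlt : ∀ i i', i < i' → i' < (J R T0 D T e f).card → F i < F i' := by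
    intro i i' hii h
    rw [hFv i (by omega), hFv i' h]
    refine ((J R T0 D T e f).orderEmbOfFin rfl).lt_iff_lt.2 ?_
    rw [Fin.mk_lt_mk]
    exact hii
  have hFl : ∀ i, i + 1 < (J R T0 D T e f).card → F i < F (i + 1) :=
    fun i h => hFlt i (i + 1) (Nat.lt_succ_self i) h
  have hFn : ∀ i x, i + 1 < (J R T0 D T e f).card → F i < x → x < F (i + 1) → x ∉ J R T0 D T e f := by
    intro i x h h1 h2 hx
    have h3 : x ∈ Set.range ((J R T0 D T e f).orderEmbOfFin rfl) := by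
      rw [range_orderEmbOfFin]
      exact hx
    obtain ⟨⟨l, hl⟩, rfl⟩ := h3
    rw [hFv i (by omega)] at h1
    rw [hFv (i + 1) h] at h2
    have h4 := ((J R T0 D T e f).orderEmbOfFin rfl).lt_iff_lt.1 h1
    have h5 := ((J R T0 D T e f).orderEmbOfFin rfl).lt_iff_lt.1 h2
    rw [Fin.mk_lt_mk] at h4 h5
    omega
  refine hDBL _ _ F r hr hrJ hsub hFm hFl hFn ?_
  intro i0 hi0
  -- neighbours
  have hnb : ∀ i, i + 1 < r → F (i0 + i) < F (i0 + (i + 1)) := by
    intro i hi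
    have := hFl (i0 + i) (by omega)
    rwa [add_assoc] at this
  have hin : ∀ i, i + 1 < r → ∀ x, F (i0 + i) < x → x < F (i0 + (i + 1)) →
      (1 ≤ x ∧ x ≤ R) ∧ T0 ≤ T x ∧ x ∉ J R T0 D T e f := by
    intro i hi x h1 h2
    obtain ⟨⟨a1, a2⟩, a3, a4⟩ := (hJm D _).1 (hFm (i0 + i) (by omega))
    obtain ⟨⟨b1, b2⟩, b3, b4⟩ := (hJm D _).1 (hFm (i0 + (i + 1)) (by omega))
    refine ⟨⟨by omega, by omega⟩, a3.trans (T_mono hW a1 h1.le (by omega)), ?_⟩
    exact hFn (i0 + i) x (by omega) h1 (by rwa [add_assoc])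
  have hD1 : 1 ≤ D := by omega
  obtain ⟨A, hA⟩ : ∃ A : Finset ℕ, A = (range (r - 1)).filter (fun i => Y * (T (F (i0 + (i + 1))) -
    (T (F (i0 + i)) + e (F (i0 + i)) * f (F (i0 + i)))) <
      e (F (i0 + (i + 1))) * f (F (i0 + (i + 1)))) := ⟨_, rfl⟩
  have hAr : 2 * A.card < r := by
    by_contra hcon
    push Not at hcon
    apply hB
    refine ⟨fun i => F (i0 + i), fun i => T (F (i0 + i)), fun i => e (F (i0 + i)),
      fun i => f (F (i0 + i)), ?_, ?_, ?_, ?_⟩
    · intro i hi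
      have hm := hFm (i0 + i) (by omega)
      obtain ⟨⟨a1, a2⟩, a3, a4⟩ := (hJm D _).1 hm
      refine ⟨a1, a2.trans hRG, a3, hTs _ a1 a2, hW.epos _ a1 a2, hW.fpos _ a1 a2, a4, hW.eT _ a1 a2,
        hW.fT _ a1 a2, hW.eK _ a1 a2, hW.fK _ a1 a2, ?_⟩
      refine gcd_le (hW.eK _ a1 a2) (hW.fK _ a1 a2) ?_ ?_
      · omega
      · rw [abs_le]
        constructor
        · push_cast
          omega
        · push_cast
          omega
    · intro i i' hii hi'
      obtain ⟨⟨a1, a2⟩, -, -⟩ := (hJm D _).1 (hFm (i0 + i) (by omega))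
      obtain ⟨⟨b1, b2⟩, -, -⟩ := (hJm D _).1 (hFm (i0 + i') (by omega))
      have hlt : F (i0 + i) < F (i0 + i') := hFlt _ _ (by omega) (by omega)
      refine ⟨?_, gcd_ef hW hRG hμ hμG a1 hlt b2, ?_, ?_⟩
      · refine gcd_le (hW.eK _ a1 a2) (hW.eK _ b1 b2) ?_ ?_
        · omega
        · rw [abs_le]
          constructor
          · push_cast
            omega
          · push_cast
            omega
      · refine gcd_le (hW.fK _ a1 a2) (hW.eK _ b1 b2) ?_ ?_
        · omega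
        · rw [abs_le]
          constructor
          · push_cast
            omega
          · push_cast
            omega
      · refine gcd_le (hW.fK _ a1 a2) (hW.fK _ b1 b2) ?_ ?_
        · omega
        · rw [abs_le]
          constructor
          · push_cast
            omega
          · push_cast
            omega
    · intro i hi
      obtain ⟨⟨a1, a2⟩, a3, a4⟩ := (hJm D _).1 (hFm (i0 + i) (by omega))
      obtain ⟨⟨b1, b2⟩, b3, b4⟩ := (hJm D _).1 (hFm (i0 + (i + 1)) (by omega))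
      obtain ⟨g1, g2⟩ := gap hW hRG (E := D) a1 (hnb i hi) b2 (fun x h1 h2 => by
        obtain ⟨h3, h4, h5⟩ := hin i hi x h1 h2
        by_contra h6
        exact h5 ((hJm D x).2 ⟨h3, h4, by omega⟩))
      refine ⟨hnb i hi, g1, ?_⟩
      have h7 : G * D ≤ G * (e (F (i0 + (i + 1))) * f (F (i0 + (i + 1)))) := Nat.mul_le_mul_left _ b4
      show T (F (i0 + (i + 1))) ≤ T (F (i0 + i)) + e (F (i0 + i)) * f (F (i0 + i)) +
        G * (e (F (i0 + (i + 1))) * f (F (i0 + (i + 1))))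
      omega
    · rw [hA] at hcon
      exact hcon
  have hsplit : (range (r - 1)).card = A.card + ((range (r - 1)).filter (fun i => ¬ (Y *
      (T (F (i0 + (i + 1))) - (T (F (i0 + i)) + e (F (i0 + i)) * f (F (i0 + i)))) <
        e (F (i0 + (i + 1))) * f (F (i0 + (i + 1)))))).card := by
    rw [hA]
    exact (card_filter_add_card_filter_not _).symm
  rw [card_range] at hsplit
  have hle : ((range (r - 1)).filter (fun i => ¬ (Y *
      (T (F (i0 + (i + 1))) - (T (F (i0 + i)) + e (F (i0 + i)) * f (F (i0 + i)))) <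
        e (F (i0 + (i + 1))) * f (F (i0 + (i + 1)))))).card ≤
      ((range (r - 1)).filter (fun i => ∃ x ∈ J R T0 D' T e f, F (i0 + i) < x ∧
        x < F (i0 + i + 1))).card := by
    refine card_le_card ?_
    intro i hi
    rw [mem_filter, mem_range] at hi ⊢
    obtain ⟨hi1, hi2⟩ := hi
    have hi3 : i + 1 < r := by omega
    refine ⟨hi1, ?_⟩
    by_contra hcon
    push Not at hcon
    apply hi2
    obtain ⟨⟨a1, a2⟩, a3, a4⟩ := (hJm D _).1 (hFm (i0 + i) (by omega))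
    obtain ⟨⟨b1, b2⟩, b3, b4⟩ := (hJm D _).1 (hFm (i0 + (i + 1)) (by omega))
    obtain ⟨g1, g2⟩ := gap hW hRG (E := D') a1 (hnb i hi3) b2 (fun x h1 h2 => by
      obtain ⟨h3, h4, h5⟩ := hin i hi3 x h1 h2
      by_contra h6
      have h7 := hcon x ((hJm D' x).2 ⟨h3, h4, by omega⟩) h1
      rw [add_assoc] at h7
      omega)
    have h0 : 0 < G * D' := Nat.mul_pos (by omega) (by omega)
    have h8 : T (F (i0 + (i + 1))) - (T (F (i0 + i)) + e (F (i0 + i)) * f (F (i0 + i))) <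
        2 * (G * D') := by omega
    have h9 : Y * (T (F (i0 + (i + 1))) - (T (F (i0 + i)) + e (F (i0 + i)) * f (F (i0 + i)))) <
        Y * (2 * (G * D')) := Nat.mul_lt_mul_of_pos_left h8 hY
    have h10 : Y * (2 * (G * D')) = 2 * G * Y * D' := by ring
    omega
  omega

end Pool.Agent.K93.SD.RUN

namespace Pool.Agent.K93.SD

theorem t_RUN : S_RUN := by
  intro k μ j G R Y T0 Ts r K T e f D hW hRG hμ hμG hTs hr hY hG hD hDD hB hr0
  have key : ∀ i, i ≤ K → r ≤ (J R T0 (D i) T e f).card ∧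
      9 ^ i * (J R T0 (D 0) T e f).card ≤ 8 ^ i * (J R T0 (D i) T e f).card := by
    intro i
    induction i with
    | zero => intro _; exact ⟨hr0, by simp⟩
    | succ i ih =>
      intro hk
      obtain ⟨h1, h2⟩ := ih (by omega)
      obtain ⟨h3, h4⟩ := RUN.step Pool.Agent.N333.GR.Dbl.t_DBL hW hRG hμ hμG hTs hr hY hG (hD (i + 1) hk)
        (hDD i (by omega)) (hB i (by omega)) h1
      refine ⟨h1.trans (Finset.card_le_card h3), ?_⟩
      calc 9 ^ (i + 1) * (J R T0 (D 0) T e f).card = 9 * (9 ^ i * (J R T0 (D 0) T e f).card) := by ring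
        _ ≤ 9 * (8 ^ i * (J R T0 (D i) T e f).card) := Nat.mul_le_mul_left _ h2
        _ = 8 ^ i * (9 * (J R T0 (D i) T e f).card) := by ring
        _ ≤ 8 ^ i * (8 * (J R T0 (D (i + 1)) T e f).card) := Nat.mul_le_mul_left _ h4
        _ = 8 ^ (i + 1) * (J R T0 (D (i + 1)) T e f).card := by ring
  refine (key K le_rfl).2.trans (Nat.mul_le_mul_left _ ?_)
  unfold J
  refine (Finset.card_filter_le _ _).trans ?_
  rw [Nat.card_Icc]
  omega

end Pool.Agent.K93.SD
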