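import Pool.Agent.K93.SD.Stm
import Pool.Agent.H359R2.Tau

/-! SIV: second moment of the divisor function in short intervals -/

set_option autoImplicit false

namespace Pool.Agent.K93.SD

open Finset

namespace SIV

theorem card_mult (a H m : ℕ) (hm : 1 ≤ m) (hmH : m ≤ H) :
    (((Ico a (a + H)).filter (fun n => m ∣ n)).card : ℝ) ≤ 2 * H / m := by
  have h1 : ((Ico a (a + H)).filter (fun n => m ∣ n)).card ≤ (range (H / m + 1)).card := by
    refine Finset.card_le_card_of_injOn (fun x => (x - a) / m) ?_ ?_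
    · intro x hx
      rw [Finset.mem_coe, mem_filter, mem_Ico] at hx
      rw [Finset.mem_coe, mem_range]
      have h2 : (x - a) / m ≤ H / m := Nat.div_le_div_right (by omega)
      show (x - a) / m < H / m + 1
      omega
    · intro x hx y hy hxy
      rw [Finset.mem_coe, mem_filter, mem_Ico] at hx hy
      obtain ⟨⟨hx1, _⟩, u, hu⟩ := hx
      obtain ⟨⟨hy1, _⟩, v, hv⟩ := hy
      have key : ∀ x y u v : ℕ, a ≤ x → a ≤ y → x = m * u → y = m * v →
          (x - a) / m = (y - a) / m → ¬ u < v := by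
        intro x y u v hx hy hxu hyv h huv
        have h3 : m * (u + 1) ≤ m * v := Nat.mul_le_mul_left _ huv
        have h4 : (x - a) + m ≤ y - a := by
          rw [mul_add, mul_one] at h3
          omega
        have h5 : ((x - a) + m) / m ≤ (y - a) / m := Nat.div_le_div_right h4
        rw [Nat.add_div_right _ (by omega)] at h5
        omega
      have hxy' : (x - a) / m = (y - a) / m := hxy
      have k1 := key x y u v hx1 hy1 hu hv hxy'
      have k2 := key y x v u hy1 hx1 hv hu hxy'.symm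
      have huv : u = v := by omega
      rw [hu, hv, huv]
  rw [card_range] at h1
  have h2 : (((Ico a (a + H)).filter (fun n => m ∣ n)).card : ℝ) ≤ ((H / m + 1 : ℕ) : ℝ) := by
    exact_mod_cast h1
  have h3 : ((H / m : ℕ) : ℝ) ≤ (H : ℝ) / m := Nat.cast_div_le
  have hm0 : (0 : ℝ) < m := by exact_mod_cast hm
  have h4 : (1 : ℝ) ≤ (H : ℝ) / m := by
    rw [le_div_iff₀ hm0, one_mul]
    exact_mod_cast hmH
  refine h2.trans ?_
  push_cast
  have h5 : 2 * (H : ℝ) / m = (H : ℝ) / m + (H : ℝ) / m := by ring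
  rw [h5]
  linarith

end SIV

theorem t_SIV : S_SIV := by
  intro a H U ha haU hU
  have hH1 : 1 ≤ H := by
    rcases Nat.eq_zero_or_pos H with h | h
    · subst h
      simp at hU
      omega
    · exact h
  have h1 : ∀ n ∈ Ico a (a + H), (tau n : ℝ) ^ 2 ≤
      4 * ∑ m ∈ Icc 1 H, if m ∣ n then (tau m : ℝ) ^ 4 else 0 := by
    intro n hn
    rw [mem_Ico] at hn
    obtain ⟨m, hmn, hmm, ht⟩ := H359R2.exists_small_divisor n (by omega)
    have hm0 : 1 ≤ m := Nat.pos_of_dvd_of_pos hmn (by omega)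
    have hmH : m ≤ H := by
      by_contra hcon
      push Not at hcon
      have h2 : H * H < m * m := Nat.mul_lt_mul'' hcon hcon
      have h3 : U ≤ H * H := by rw [← sq]; exact hU
      omega
    have ht' : (tau n : ℝ) ≤ 2 * (tau m : ℝ) ^ 2 := by
      have h2 : tau n ≤ 2 * tau m ^ 2 := ht
      exact_mod_cast h2
    have h2 : (tau n : ℝ) ^ 2 ≤ (2 * (tau m : ℝ) ^ 2) ^ 2 := pow_le_pow_left₀ (by positivity) ht' 2
    have h3 : (tau m : ℝ) ^ 4 ≤ ∑ m ∈ Icc 1 H, if m ∣ n then (tau m : ℝ) ^ 4 else 0 := by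
      have h4 := Finset.single_le_sum (f := fun m => if m ∣ n then (tau m : ℝ) ^ 4 else 0)
        (s := Icc 1 H) (fun i _ => by split_ifs <;> positivity) (mem_Icc.2 ⟨hm0, hmH⟩)
      simpa only [hmn, if_true] using h4
    nlinarith
  have h2 : ∑ n ∈ Ico a (a + H), (tau n : ℝ) ^ 2 ≤
      4 * ∑ m ∈ Icc 1 H, (tau m : ℝ) ^ 4 * (2 * H / m) := by
    refine (Finset.sum_le_sum h1).trans ?_
    rw [← Finset.mul_sum, Finset.sum_comm]
    refine mul_le_mul_of_nonneg_left (Finset.sum_le_sum fun m hm => ?_) (by norm_num)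
    rw [mem_Icc] at hm
    rw [← Finset.sum_filter, Finset.sum_const, nsmul_eq_mul, mul_comm]
    exact mul_le_mul_of_nonneg_left (SIV.card_mult a H m hm.1 hm.2) (by positivity)
  have h3 : ∑ m ∈ Icc 1 H, (tau m : ℝ) ^ 4 * (2 * H / m) = 2 * H * H359R2.tsm 4 H := by
    unfold H359R2.tsm
    rw [Finset.mul_sum]
    refine Finset.sum_congr rfl fun m _ => ?_
    show (tau m : ℝ) ^ 4 * (2 * H / m) = 2 * H * ((tau m : ℝ) ^ 4 / m)
    ring
  rw [h3] at h2
  have h4 := H359R2.tsm_le 4 H
  have hH0 : (0 : ℝ) < H := by exact_mod_cast hH1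
  have h5 : Real.log H ≤ Real.log U := by
    refine Real.log_le_log hH0 ?_
    exact_mod_cast (by omega : H ≤ U)
  have h6 : 0 ≤ Real.log H := Real.log_natCast_nonneg H
  have h7 : (1 + Real.log H) ^ (2 ^ 4) ≤ (1 + Real.log U) ^ 16 :=
    pow_le_pow_left₀ (by linarith) (by linarith) 16
  have h8 : H359R2.tsm 4 H ≤ (1 + Real.log U) ^ 16 := h4.trans h7
  have h9 := mul_le_mul_of_nonneg_left h8 (by positivity : (0 : ℝ) ≤ 8 * H)
  linarith

end Pool.Agent.K93.SD
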