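import Pool.Agent.K93.SD.Stm

/-! Project SD, task TOP (helper37): from the parameter `h` to the final form. -/

set_option autoImplicit false

namespace Pool.Agent.K93.SD

namespace TOP

lemma ncard_le (a : ℕ → ℤ) (X : ℕ) : {n : ℕ | 1 ≤ n ∧ n ≤ X ∧ a n = 0}.ncard ≤ X := by
  have h1 : {n : ℕ | 1 ≤ n ∧ n ≤ X ∧ a n = 0} ⊆ ((Finset.Icc 1 X : Finset ℕ) : Set ℕ) := by
    intro n hn
    rw [Finset.mem_coe, Finset.mem_Icc]
    exact ⟨hn.1, hn.2.1⟩
  have h2 := Set.ncard_le_ncard h1 (Finset.finite_toSet _)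
  rw [Set.ncard_coe_finset, Nat.card_Icc, Nat.add_sub_cancel] at h2
  exact h2

lemma le_xx (h : ℕ) (hh : 1 ≤ h) : h ≤ xx h := by
  unfold xx
  have h1 : h ≤ h ^ 4 := Nat.le_self_pow (by norm_num) h
  nlinarith

lemma num {l h : ℝ} (h0 : 0 ≤ l) (hh : 1 ≤ h) (hl : l ≤ 100000000000 * (h + 1) ^ 4 * Real.log 2) :
    l ^ (1 / 4 : ℝ) ≤ 2000 * h := by
  have hlog21 : Real.log 2 ≤ 1 := by
    have := Real.log_two_lt_d9
    linarith
  have h6 : (h + 1) ^ 4 ≤ (2 * h) ^ 4 := pow_le_pow_left₀ (by linarith) (by linarith) 4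
  have h2 : l ≤ (2000 * h) ^ 4 := by
    calc l ≤ 100000000000 * (h + 1) ^ 4 * Real.log 2 := hl
      _ ≤ 100000000000 * (h + 1) ^ 4 * 1 := mul_le_mul_of_nonneg_left hlog21 (by positivity)
      _ ≤ 100000000000 * (2 * h) ^ 4 := by linarith
      _ ≤ (2000 * h) ^ 4 := by
        have : 0 ≤ h ^ 4 := by positivity
        nlinarith
  have h4 := Real.rpow_le_rpow h0 h2 (by norm_num : (0 : ℝ) ≤ 1 / 4)
  refine h4.trans (le_of_eq ?_)
  rw [← Real.rpow_natCast, ← Real.rpow_mul (by positivity)]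
  norm_num

lemma exp_bd {c l C X N : ℝ} {h : ℕ} (hX : 0 ≤ X) (hC : 0 ≤ C) (h4 : c * l ≤ h * Real.log 2)
    (h1 : N ≤ 8 * X / 2 ^ h) : N ≤ (8 + C) * X * Real.exp (-(c * l)) := by
  have hE := Real.exp_pos (-(c * l))
  have h5 : 1 / (2 : ℝ) ^ h ≤ Real.exp (-(c * l)) := by
    have h6 : 1 / (2 : ℝ) ^ h = Real.exp (-(h * Real.log 2)) := by
      rw [Real.exp_neg, mul_comm, Real.exp_mul, Real.exp_log (by norm_num), Real.rpow_natCast, one_div]
    rw [h6]
    exact Real.exp_le_exp.2 (by linarith)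
  calc N ≤ 8 * X / 2 ^ h := h1
    _ = 8 * X * (1 / (2 : ℝ) ^ h) := by ring
    _ ≤ 8 * X * Real.exp (-(c * l)) := mul_le_mul_of_nonneg_left h5 (by positivity)
    _ ≤ (8 + C) * X * Real.exp (-(c * l)) := by
      apply mul_le_mul_of_nonneg_right _ hE.le
      exact mul_le_mul_of_nonneg_right (by linarith) hX

lemma small_bd {c l L X N : ℝ} (hX : 0 ≤ X) (hc : 0 ≤ c) (hl : l ≤ L) (h1 : N ≤ X) :
    N ≤ (8 + Real.exp (c * L)) * X * Real.exp (-(c * l)) := by
  have h3 : 1 ≤ Real.exp (c * L) * Real.exp (-(c * l)) := by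
    rw [← Real.exp_add]
    apply Real.one_le_exp
    have := mul_le_mul_of_nonneg_left hl hc
    linarith
  calc N ≤ X * 1 := by rw [mul_one]; exact h1
    _ ≤ X * (Real.exp (c * L) * Real.exp (-(c * l))) := mul_le_mul_of_nonneg_left h3 hX
    _ ≤ (8 + Real.exp (c * L)) * X * Real.exp (-(c * l)) := by
      have : 0 ≤ 8 * X * Real.exp (-(c * l)) := by positivity
      linarith

end TOP

open TOP

theorem t_TOP (hz : S_ZER) : S_TOP := by
  classical
  obtain ⟨h₀, hh₀, H⟩ := hz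
  have hlog2 : 0 < Real.log 2 := Real.log_pos (by norm_num)
  have hlog21 : Real.log 2 ≤ 1 := by
    have := Real.log_two_lt_d9
    linarith
  have hc : 0 < Real.log 2 / 2000 := by positivity
  refine ⟨Real.log 2 / 2000, 8 + Real.exp (Real.log 2 / 2000 * ((xx h₀ : ℝ) * Real.log 2) ^ (1 / 4 : ℝ)),
    hc, by positivity, fun a ha X hX => ?_⟩
  set c : ℝ := Real.log 2 / 2000 with hcdef
  have hX0 : (0 : ℝ) < X := by
    have : 0 < X := by omega
    exact_mod_cast this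
  have hE := Real.exp_pos (-(c * Real.log X ^ (1 / 4 : ℝ)))
  have hE2 := Real.exp_pos (c * ((xx h₀ : ℝ) * Real.log 2) ^ (1 / 4 : ℝ))
  have hlX : 0 ≤ Real.log X := Real.log_natCast_nonneg X
  by_cases hbig : 2 ^ xx h₀ ≤ X
  · have h0X : h₀ ≤ X := by
      have h1 := le_xx h₀ hh₀
      have h2 : xx h₀ < 2 ^ xx h₀ := Nat.lt_two_pow_self
      omega
    obtain ⟨h, hle, hPh, hlt⟩ : ∃ h, h₀ ≤ h ∧ 2 ^ xx h ≤ X ∧ X < 2 ^ xx (h + 1) := by
      refine ⟨Nat.findGreatest (fun h => 2 ^ xx h ≤ X) X, ?_, ?_, ?_⟩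
      · exact Nat.le_findGreatest h0X hbig
      · exact Nat.findGreatest_spec (P := fun h => 2 ^ xx h ≤ X) h0X hbig
      · by_contra hcon
        push Not at hcon
        have h1 := le_xx (Nat.findGreatest (fun h => 2 ^ xx h ≤ X) X + 1) (by omega)
        have h2 : xx (Nat.findGreatest (fun h => 2 ^ xx h ≤ X) X + 1) <
            2 ^ xx (Nat.findGreatest (fun h => 2 ^ xx h ≤ X) X + 1) := Nat.lt_two_pow_self
        have h3 := Nat.le_findGreatest (P := fun h => 2 ^ xx h ≤ X)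
          (m := Nat.findGreatest (fun h => 2 ^ xx h ≤ X) X + 1) (n := X) (by omega) hcon
        omega
    have h1 := H h X hle hPh a ha
    have hh1 : (1 : ℝ) ≤ h := by
      have : 1 ≤ h := hh₀.trans hle
      exact_mod_cast this
    have h2 : Real.log X ^ (1 / 4 : ℝ) ≤ 2000 * h := by
      apply num hlX hh1
      have h3 : (X : ℝ) ≤ (2 : ℝ) ^ xx (h + 1) := by exact_mod_cast hlt.le
      have h4 := Real.log_le_log hX0 h3
      rw [Real.log_pow] at h4
      have h5 : ((xx (h + 1) : ℕ) : ℝ) = 100000000000 * ((h : ℝ) + 1) ^ 4 := by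
        unfold xx
        push_cast
        ring
      rw [h5] at h4
      exact h4
    have h4 : c * Real.log X ^ (1 / 4 : ℝ) ≤ h * Real.log 2 := by
      calc c * Real.log X ^ (1 / 4 : ℝ) ≤ c * (2000 * h) := mul_le_mul_of_nonneg_left h2 hc.le
        _ = h * Real.log 2 := by rw [hcdef]; ring
    exact exp_bd hX0.le hE2.le h4 h1
  · push Not at hbig
    have h1 : Real.log X ≤ (xx h₀ : ℝ) * Real.log 2 := by
      have h3 : (X : ℝ) ≤ (2 : ℝ) ^ xx h₀ := by exact_mod_cast hbig.le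
      have h4 := Real.log_le_log hX0 h3
      rwa [Real.log_pow] at h4
    have h2 := Real.rpow_le_rpow hlX h1 (by norm_num : (0 : ℝ) ≤ 1 / 4)
    have h4 : ({n : ℕ | 1 ≤ n ∧ n ≤ X ∧ a n = 0}.ncard : ℝ) ≤ X := by exact_mod_cast ncard_le a X
    exact small_bd hX0.le hc.le h2 h4

end Pool.Agent.K93.SD
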