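import Pool.Agent.K93.SD.Stm

/-!
# SD/WT: the weight of a step
-/

set_option autoImplicit false

namespace Pool.Agent.K93.SD

open Finset

namespace WT

/-- the sum over the pairs of divisors -/
noncomputable def g (μ j n P Q D t' t : ℕ) : ℝ :=
  ∑ x ∈ Pr μ j n P Q D t' t, (1 / ((x.1 * x.2 : ℕ) : ℝ))

/-- the number of pairs -/
noncomputable def ta (μ j n t : ℕ) : ℝ := (tau (AA μ j n t) : ℝ) * tau (BB μ j n t)

theorem ta_nonneg (μ j n t : ℕ) : 0 ≤ ta μ j n t := by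
  unfold ta
  positivity

theorem g_nonneg (μ j n P Q D t' t : ℕ) : 0 ≤ g μ j n P Q D t' t := by
  unfold g
  exact sum_nonneg fun x _ => by positivity

theorem card_le (μ j n P Q D t' t : ℕ) : ((Pr μ j n P Q D t' t).card : ℝ) ≤ ta μ j n t := by
  unfold ta tau
  have h : (Pr μ j n P Q D t' t).card ≤ (AA μ j n t).divisors.card * (BB μ j n t).divisors.card := by
    unfold Pr
    refine (card_filter_le _ _).trans ?_
    rw [card_product]
  exact_mod_cast h

theorem g_le {μ j n P Q D t' t : ℕ} {c : ℝ} (hc : 0 ≤ c)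
    (h : ∀ x ∈ Pr μ j n P Q D t' t, (1 / ((x.1 * x.2 : ℕ) : ℝ)) ≤ c) :
    g μ j n P Q D t' t ≤ c * ta μ j n t := by
  unfold g
  refine (sum_le_card_nsmul _ _ c h).trans ?_
  rw [nsmul_eq_mul, mul_comm]
  exact mul_le_mul_of_nonneg_left (card_le μ j n P Q D t' t) hc

theorem near {μ j n P Q D t' t : ℕ} (hD : 1 ≤ D) :
    g μ j n P Q D t' t ≤ 1 / D * ta μ j n t := by
  have hD0 : (0 : ℝ) < D := by exact_mod_cast hD
  refine g_le (by positivity) fun x hx => ?_
  unfold Pr at hx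
  rw [mem_filter] at hx
  have h1 : (D : ℝ) ≤ ((x.1 * x.2 : ℕ) : ℝ) := by exact_mod_cast hx.2.1
  exact one_div_le_one_div_of_le hD0 h1

theorem far {μ j n P Q D t' t w : ℕ} (hD : 1 ≤ D) (hP : 1 ≤ P) (hw : 1 ≤ w) (ht : t' + w ≤ t) :
    g μ j n P Q D t' t ≤ (Q : ℝ) / (P * w) * ta μ j n t := by
  have hP0 : (0 : ℝ) < P := by exact_mod_cast hP
  have hw0 : (0 : ℝ) < w := by exact_mod_cast hw
  refine g_le (by positivity) fun x hx => ?_
  unfold Pr at hx
  rw [mem_filter] at hx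
  have h0 : 0 < x.1 * x.2 := by omega
  have h0' : (0 : ℝ) < ((x.1 * x.2 : ℕ) : ℝ) := by exact_mod_cast h0
  have h1 : P * w ≤ Q * (x.1 * x.2) := (Nat.mul_le_mul_left P (by omega)).trans hx.2.2
  have h1' : (P : ℝ) * w ≤ Q * ((x.1 * x.2 : ℕ) : ℝ) := by exact_mod_cast h1
  rw [div_le_div_iff₀ h0' (by positivity)]
  linarith

end WT

open WT in
theorem t_WT (hAB : S_AB) : S_WT := by
  intro G μ j n P Q D Ts t' hn hnG hj hμ hTs hP hQ hD ht' hQD hbig
  have hG : 1 ≤ G := hn.trans hnG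
  have hTs1 : 1 ≤ Ts := by nlinarith
  have hGr : (1 : ℝ) ≤ G := by exact_mod_cast hG
  have hTr : (1 : ℝ) ≤ Ts := by exact_mod_cast hTs1
  have hPr : (0 : ℝ) < P := by exact_mod_cast hP
  have hQr : (0 : ℝ) < Q := by exact_mod_cast hQ
  have hDr : (0 : ℝ) < D := by exact_mod_cast hD
  obtain ⟨L, hL⟩ : ∃ L : ℝ, L = 1 + Real.log (8 * G * Ts) := ⟨_, rfl⟩
  have hlogT : 0 ≤ Real.log Ts := Real.log_nonneg hTr
  have hlog : Real.log Ts ≤ Real.log (8 * G * Ts) :=
    Real.log_le_log (by linarith) (by nlinarith [mul_le_mul_of_nonneg_right hGr (by linarith : (0 : ℝ) ≤ Ts)])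
  have hL1 : 1 ≤ L := by rw [hL]; linarith
  have hLT : Real.log Ts ≤ L - 1 := by rw [hL]; linarith
  rw [← hL]
  have hL0 : 0 < L := by linarith
  rcases Nat.lt_or_ge Ts t' with hlt | hle
  · rw [Icc_eq_empty (by omega), sum_empty]
    positivity
  -- the first window
  obtain ⟨q, hq⟩ : ∃ q : ℕ, q = Q * D / P := ⟨_, rfl⟩
  obtain ⟨W0, hW0⟩ : ∃ W0 : ℕ, W0 = q + 1 := ⟨_, rfl⟩
  have hPQD : P ≤ Q * D := by
    by_contra hcon
    push Not at hcon
    have h1 : Q ^ 2 * D ^ 2 < P ^ 2 := by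
      rw [← mul_pow]
      exact Nat.pow_lt_pow_left hcon (by norm_num)
    have h2 : 1 * P ^ 2 ≤ 8 * G * Ts * P ^ 2 :=
      Nat.mul_le_mul_right _ (by nlinarith)
    omega
  have hq1 : 1 ≤ q := by
    rw [hq]
    exact (Nat.one_le_div_iff (by omega)).2 hPQD
  have hqP : q * P ≤ Q * D := by
    rw [hq]
    exact Nat.div_mul_le_self _ _
  have hqT : q ≤ Ts := by
    rw [hq]
    exact Nat.div_le_of_le_mul hQD
  have hW0P : Q * D < P * W0 := by
    rw [hW0, hq]
    exact Nat.lt_mul_div_succ _ (by omega)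
  have hW01 : 1 ≤ W0 := by omega
  have hW0T : W0 ≤ 2 * Ts := by omega
  have hW0sq : 8 * G * Ts ≤ W0 ^ 2 := by
    have h1 : 8 * G * Ts * P ^ 2 ≤ W0 ^ 2 * P ^ 2 := by
      refine hbig.trans ?_
      rw [← mul_pow, ← mul_pow]
      exact Nat.pow_le_pow_left (by rw [mul_comm W0 P]; exact hW0P.le) 2
    exact Nat.le_of_mul_le_mul_right h1 (by positivity)
  have hW0r : (W0 : ℝ) ≤ 2 * (Q * D / P) := by
    have h1 : (q : ℝ) ≤ Q * D / P := by
      rw [le_div_iff₀ hPr]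
      exact_mod_cast hqP
    have h2 : (1 : ℝ) ≤ q := by exact_mod_cast hq1
    rw [hW0]
    push_cast
    linarith
  obtain ⟨K, hK⟩ : ∃ K : ℝ, K = G * ((Q : ℝ) / P) * L ^ 16 := ⟨_, rfl⟩
  have hK0 : 0 ≤ K := by rw [hK]; positivity
  -- the truncated function
  obtain ⟨f, hf⟩ : ∃ f : ℕ → ℝ, f = fun t => if t ≤ Ts then g μ j n P Q D t' t else 0 := ⟨_, rfl⟩
  have hf0 : ∀ t, 0 ≤ f t := by
    intro t
    rw [hf]
    simp only
    split_ifs
    · exact g_nonneg _ _ _ _ _ _ _ _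
    · exact le_rfl
  have hfg : ∀ t, f t ≤ g μ j n P Q D t' t := by
    intro t
    rw [hf]
    simp only
    split_ifs
    · exact le_rfl
    · exact g_nonneg _ _ _ _ _ _ _ _
  have hmain : ∀ i : ℕ, ∑ t ∈ Ico t' (t' + 2 ^ i * W0), f t ≤ (32 + 16 * i) * K := by
    intro i
    induction i with
    | zero =>
      rw [pow_zero, one_mul]
      have h1 : ∑ t ∈ Ico t' (t' + W0), f t ≤ ∑ t ∈ Ico t' (t' + W0), 1 / D * ta μ j n t :=
        sum_le_sum fun t _ => (hfg t).trans (near hD)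
      rw [← mul_sum] at h1
      have h2 := hAB G μ j n Ts t' W0 hn hnG hj hμ hTs ht' hle hW0T hW0sq
      rw [← hL] at h2
      refine h1.trans ?_
      have h3 : 1 / (D : ℝ) * ∑ t ∈ Ico t' (t' + W0), ta μ j n t ≤ 1 / D * (16 * G * W0 * L ^ 16) :=
        mul_le_mul_of_nonneg_left h2 (by positivity)
      refine h3.trans ?_
      have h4 : 1 / (D : ℝ) * (16 * G * W0 * L ^ 16) ≤
          1 / D * (16 * G * (2 * (Q * D / P)) * L ^ 16) := by gcongr
      refine h4.trans (le_of_eq ?_)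
      rw [hK]
      push_cast
      field_simp
      ring
    | succ i ih =>
      have hw1 : 1 ≤ 2 ^ i * W0 := Nat.one_le_iff_ne_zero.2 (by positivity)
      have e : t' + 2 ^ (i + 1) * W0 = t' + 2 ^ i * W0 + 2 ^ i * W0 := by ring
      rw [e, ← sum_Ico_consecutive f (show t' ≤ t' + 2 ^ i * W0 by omega)
        (show t' + 2 ^ i * W0 ≤ t' + 2 ^ i * W0 + 2 ^ i * W0 by omega)]
      have hwin : ∑ t ∈ Ico (t' + 2 ^ i * W0) (t' + 2 ^ i * W0 + 2 ^ i * W0), f t ≤ 16 * K := by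
        rcases Nat.lt_or_ge Ts (t' + 2 ^ i * W0) with h1 | h1
        · have h2 : ∑ t ∈ Ico (t' + 2 ^ i * W0) (t' + 2 ^ i * W0 + 2 ^ i * W0), f t = 0 := by
            refine sum_eq_zero fun t ht => ?_
            rw [mem_Ico] at ht
            rw [hf]
            exact if_neg (by omega)
          rw [h2]
          positivity
        · obtain ⟨w, hw⟩ : ∃ w : ℕ, w = 2 ^ i * W0 := ⟨_, rfl⟩
          rw [← hw] at h1 hw1 ⊢
          have hwr : (0 : ℝ) < w := by exact_mod_cast hw1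
          have hwW : W0 ≤ w := by
            rw [hw]
            exact Nat.le_mul_of_pos_left _ (by positivity)
          have h2 := hAB G μ j n Ts (t' + w) w hn hnG hj hμ hTs (by omega) h1 (by omega)
            (hW0sq.trans (Nat.pow_le_pow_left hwW 2))
          rw [← hL] at h2
          have h3 : ∑ t ∈ Ico (t' + w) (t' + w + w), f t ≤
              ∑ t ∈ Ico (t' + w) (t' + w + w), (Q : ℝ) / (P * w) * ta μ j n t := by
            refine sum_le_sum fun t ht => (hfg t).trans ?_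
            rw [mem_Ico] at ht
            exact far hD hP hw1 ht.1
          rw [← mul_sum] at h3
          refine h3.trans ?_
          have h4 : (Q : ℝ) / (P * w) * ∑ t ∈ Ico (t' + w) (t' + w + w), ta μ j n t ≤
              (Q : ℝ) / (P * w) * (16 * G * w * L ^ 16) :=
            mul_le_mul_of_nonneg_left h2 (by positivity)
          refine h4.trans (le_of_eq ?_)
          rw [hK]
          field_simp
      push_cast
      linarith
  -- conclusion
  have hlg : (Nat.log 2 Ts : ℝ) ≤ 2 * Real.log Ts := by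
    have h1 : 2 ^ Nat.log 2 Ts ≤ Ts := Nat.pow_log_le_self 2 (by omega)
    have h2 : ((2 : ℝ) ^ Nat.log 2 Ts) ≤ Ts := by exact_mod_cast h1
    have h3 := Real.log_le_log (by positivity) h2
    rw [Real.log_pow] at h3
    have h4 := Real.log_two_gt_d9
    have h5 : (0 : ℝ) ≤ Nat.log 2 Ts := Nat.cast_nonneg _
    nlinarith
  have h1 : Ts < 2 ^ (Nat.log 2 Ts + 1) := Nat.lt_pow_succ_log_self (by norm_num) Ts
  have h2 := hmain (Nat.log 2 Ts + 1)
  have h3 : ∑ t ∈ Icc t' Ts, g μ j n P Q D t' t = ∑ t ∈ Icc t' Ts, f t := by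
    refine sum_congr rfl fun t ht => ?_
    rw [mem_Icc] at ht
    rw [hf]
    exact (if_pos ht.2).symm
  have h4 : ∑ t ∈ Icc t' Ts, f t ≤ ∑ t ∈ Ico t' (t' + 2 ^ (Nat.log 2 Ts + 1) * W0), f t := by
    refine sum_le_sum_of_subset_of_nonneg ?_ fun t _ _ => hf0 t
    intro t ht
    rw [mem_Icc] at ht
    rw [mem_Ico]
    refine ⟨ht.1, ?_⟩
    have h5 : 2 ^ (Nat.log 2 Ts + 1) * 1 ≤ 2 ^ (Nat.log 2 Ts + 1) * W0 := Nat.mul_le_mul_left _ hW01
    omega
  show ∑ t ∈ Icc t' Ts, g μ j n P Q D t' t ≤ _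
  rw [h3]
  refine h4.trans (h2.trans ?_)
  have h6 : (32 + 16 * ((Nat.log 2 Ts + 1 : ℕ) : ℝ)) ≤ 64 * L := by
    push_cast
    linarith
  have h7 : (32 + 16 * ((Nat.log 2 Ts + 1 : ℕ) : ℝ)) * K ≤ 64 * L * K := mul_le_mul_of_nonneg_right h6 hK0
  refine h7.trans (le_of_eq ?_)
  rw [hK]
  ring

end Pool.Agent.K93.SD
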