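import Pool.Agent.K93.SD.Stm

/-! (ZER) the number of zeros up to `X` (helper54). -/

set_option autoImplicit false

namespace Pool.Agent.K93.SD

open Finset

namespace ZER

/-- the small zeros -/
theorem small (h X : ℕ) (hh : 1 ≤ h) (hX : 2 ^ xx h ≤ X) :
    2 ^ h * (1000 * (2 ^ h) ^ 4 + Ts h + 1) ≤ X := by
  refine le_trans ?_ hX
  have h1 : 1000 * (2 ^ h) ^ 4 ≤ 2 ^ (10 + h * 4) := by
    rw [pow_add, pow_mul]
    gcongr
    norm_num
  have e : Ts h = 2 ^ (8 * em h * uu h) := rfl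
  have h2 : 2 ^ (10 + h * 4) ≤ 2 ^ (10 + h * 4 + 8 * em h * uu h) :=
    Nat.pow_le_pow_right (by norm_num) (by omega)
  have h3 : 2 ^ (8 * em h * uu h) ≤ 2 ^ (10 + h * 4 + 8 * em h * uu h) :=
    Nat.pow_le_pow_right (by norm_num) (by omega)
  have h4 : 1 ≤ 2 ^ (10 + h * 4 + 8 * em h * uu h) := Nat.one_le_two_pow
  have h5 : 1000 * (2 ^ h) ^ 4 + Ts h + 1 ≤ 2 ^ 2 * 2 ^ (10 + h * 4 + 8 * em h * uu h) := by
    rw [e]
    omega
  calc 2 ^ h * (1000 * (2 ^ h) ^ 4 + Ts h + 1) ≤
        2 ^ h * (2 ^ 2 * 2 ^ (10 + h * 4 + 8 * em h * uu h)) := Nat.mul_le_mul_left _ h5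
    _ = 2 ^ (h + (2 + (10 + h * 4 + 8 * em h * uu h))) := by
        rw [pow_add 2 h, pow_add 2 2]
    _ ≤ 2 ^ xx h := by
      apply Nat.pow_le_pow_right (by norm_num)
      have h6 : em h ≤ 10 * h := by unfold em; omega
      have h7 : 8 * em h * uu h ≤ 8000000 * h ^ 3 := by
        unfold uu
        calc 8 * em h * (100000 * h ^ 2) ≤ 8 * (10 * h) * (100000 * h ^ 2) := by gcongr
          _ = 8000000 * h ^ 3 := by ring
      have h8 : h ^ 3 ≤ h ^ 4 := Nat.pow_le_pow_right hh (by norm_num)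
      have h9 : h ≤ h ^ 4 := by
        calc h = h ^ 1 := (pow_one h).symm
          _ ≤ h ^ 4 := Nat.pow_le_pow_right hh (by norm_num)
      unfold xx
      omega

/-- zeros with a long gap after them -/
theorem sparse (G X : ℕ) (hG : 1 ≤ G) (A : Finset ℕ) (hA : ∀ n ∈ A, n ≤ X)
    (hs : ∀ n ∈ A, ∀ m ∈ A, n < m → n + G < m) : A.card ≤ X / G + 1 := by
  have h1 : A.card ≤ (range (X / G + 1)).card := by
    refine Finset.card_le_card_of_injOn (fun n => n / G) ?_ ?_
    · intro n hn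
      rw [coe_range, Set.mem_Iio]
      exact Nat.lt_succ_of_le (Nat.div_le_div_right (hA n hn))
    · intro n hn m hm hnm
      simp only at hnm
      by_contra hne
      rcases Nat.lt_or_gt_of_ne hne with h | h
      · have := hs n hn m hm h
        have h2 : (n + G) / G ≤ m / G := Nat.div_le_div_right this.le
        rw [Nat.add_div_right _ (by omega)] at h2
        omega
      · have := hs m hm n hn h
        have h2 : (m + G) / G ≤ n / G := Nat.div_le_div_right this.le
        rw [Nat.add_div_right _ (by omega)] at h2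
        omega
  rwa [card_range] at h1

end ZER

open Classical in
theorem t_ZER (hR : S_REC) (hE : S_EXC) : S_ZER := by
  obtain ⟨h₀, hh₀, hE⟩ := hE
  refine ⟨h₀, hh₀, fun h X hh hX a ha => ?_⟩
  have hh1 : 1 ≤ h := hh₀.trans hh
  obtain ⟨E, hEc, hEk⟩ := hE h (2 * X) hh (hX.trans (by omega))
  have hsm := ZER.small h X hh1 hX
  set G := 2 ^ h with hG
  set N0 := 1000 * G ^ 4 + Ts h + 1 with hN0
  have hG1 : 1 ≤ G := Nat.one_le_two_pow
  have hGX : G ≤ X := le_trans (Nat.le_mul_of_pos_right _ (by omega)) hsm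
  set Z : Finset ℕ := (Icc 1 X).filter fun n => a n = 0 with hZ
  have hZeq : {n : ℕ | 1 ≤ n ∧ n ≤ X ∧ a n = 0} = (Z : Set ℕ) := by
    ext n
    rw [Set.mem_ofPred_eq, Finset.mem_coe, hZ, mem_filter, mem_Icc, and_assoc]
  rw [hZeq, Set.ncard_coe_finset]
  set A := Z.filter fun n => ∀ m, n < m → m ≤ n + G → a m ≠ 0 with hA
  set B := Z.filter fun n => N0 < n ∧ ∃ m, n < m ∧ m ≤ n + G ∧ a m = 0 with hB
  have hsub : Z ⊆ Icc 1 N0 ∪ (A ∪ B) := by
    intro n hn
    have hn' := hn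
    rw [hZ, mem_filter, mem_Icc] at hn'
    rw [mem_union, mem_union, mem_Icc]
    by_cases h1 : n ≤ N0
    · exact Or.inl ⟨hn'.1.1, h1⟩
    · right
      by_cases h2 : ∃ m, n < m ∧ m ≤ n + G ∧ a m = 0
      · right
        rw [hB, mem_filter]
        exact ⟨hn, by omega, h2⟩
      · left
        rw [hA, mem_filter]
        push Not at h2
        exact ⟨hn, h2⟩
  have hcA : A.card ≤ X / G + 1 := by
    apply ZER.sparse G X hG1 A
    · intro n hn
      rw [hA, mem_filter, hZ, mem_filter, mem_Icc] at hn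
      exact hn.1.1.2
    · intro n hn m hm hnm
      rw [hA, mem_filter] at hn hm
      rw [hZ, mem_filter, mem_Icc] at hm
      by_contra hcon
      exact hn.2 m hnm (by omega) hm.1.2
  have hkey : ∀ n ∈ B, ∃ k, k ∈ E ∧ n < k ∧ ∀ m, n < m → a m = 0 → k ≤ m := by
    intro n hn
    rw [hB, mem_filter, hZ, mem_filter, mem_Icc] at hn
    obtain ⟨⟨⟨hn1, hnX⟩, han⟩, hnN, hex0⟩ := hn
    have hex : ∃ m, n < m ∧ a m = 0 := by
      obtain ⟨m, h1, _, h3⟩ := hex0
      exact ⟨m, h1, h3⟩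
    set n' := Nat.find hex with hn'
    obtain ⟨h1, h2⟩ := Nat.find_spec hex
    rw [← hn'] at h1 h2
    have hmin : ∀ m, n < m → a m = 0 → n' ≤ m := fun m h3 h4 => Nat.find_min' hex ⟨h3, h4⟩
    have hn'G : n' ≤ n + G := by
      obtain ⟨m, h3, h4, h5⟩ := hex0
      exact (hmin m h3 h5).trans h4
    obtain ⟨k, μ, j, R, T, e, f, hk1, hk2, hj1, hjμ, hμ, hRG, hW, hT⟩ :=
      hR a n n' G (fun i hi => ha i (by omega)) hG1 (by omega) h1 han h2
        (fun m h3 h4 h5 => by
          have := hmin m h3 h5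
          omega) hn'G
    refine ⟨k, ?_, by omega, fun m h3 h4 => hk2.trans (hmin m h3 h4)⟩
    by_contra hkE
    have := hEk k (by omega) (by omega) hkE μ j R T e f hj1 hjμ hμ hRG hW
    omega
  have hcB : B.card ≤ E.card := by
    choose! κ hκ using hkey
    refine Finset.card_le_card_of_injOn κ (fun n hn => (hκ n hn).1) ?_
    intro n hn m hm hnm
    by_contra hne
    have hn0 : a n = 0 := by
      have := hn
      rw [Finset.mem_coe, hB, mem_filter, hZ, mem_filter] at this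
      exact this.1.2
    have hm0 : a m = 0 := by
      have := hm
      rw [Finset.mem_coe, hB, mem_filter, hZ, mem_filter] at this
      exact this.1.2
    rcases Nat.lt_or_gt_of_ne hne with h1 | h1
    · have h2 := (hκ n hn).2.2 m h1 hm0
      have h3 := (hκ m hm).2.1
      omega
    · have h2 := (hκ m hm).2.2 n h1 hn0
      have h3 := (hκ n hn).2.1
      omega
  have hcard : Z.card ≤ N0 + (X / G + 1 + E.card) := by
    refine (Finset.card_le_card hsub).trans ((Finset.card_union_le _ _).trans ?_)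
    rw [Nat.card_Icc, Nat.add_sub_cancel]
    exact Nat.add_le_add_left ((Finset.card_union_le _ _).trans (Nat.add_le_add hcA hcB)) _
  have hGR : (0 : ℝ) < 2 ^ h := by positivity
  have c1 : (N0 : ℝ) ≤ X / 2 ^ h := by
    rw [le_div_iff₀ hGR]
    have : ((2 ^ h * N0 : ℕ) : ℝ) ≤ X := by exact_mod_cast hsm
    push_cast at this
    linarith
  have c2 : ((X / G : ℕ) : ℝ) ≤ X / 2 ^ h := by
    refine Nat.cast_div_le.trans ?_
    rw [hG]
    push_cast
    exact le_rfl
  have c3 : (1 : ℝ) ≤ X / 2 ^ h := by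
    rw [le_div_iff₀ hGR, one_mul]
    exact_mod_cast hGX
  have c4 : (E.card : ℝ) ≤ 2 * (X / 2 ^ h) := by
    refine hEc.trans ?_
    push_cast
    rw [mul_div_assoc]
    refine mul_le_mul_of_nonneg_left ?_ (by norm_num)
    exact div_le_div_of_nonneg_left (Nat.cast_nonneg X) hGR (pow_le_pow_right₀ (by norm_num) (by omega))
  have hcR : (Z.card : ℝ) ≤ (N0 : ℝ) + (((X / G : ℕ) : ℝ) + 1 + (E.card : ℝ)) := by
    exact_mod_cast hcard
  have h8 : (8 : ℝ) * X / 2 ^ h = 8 * (X / 2 ^ h) := by ring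
  rw [h8]
  linarith

end Pool.Agent.K93.SD
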