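import Pool.Agent.K93.SD.T_AB
import Pool.Agent.K93.SD.T_ALL
import Pool.Agent.K93.SD.T_BIG
import Pool.Agent.K93.SD.T_CNT
import Pool.Agent.K93.SD.T_CRT
import Pool.Agent.K93.SD.T_EXC
import Pool.Agent.K93.SD.T_LEAP
import Pool.Agent.K93.SD.T_PAR
import Pool.Agent.K93.SD.T_REC
import Pool.Agent.K93.SD.T_RUN
import Pool.Agent.K93.SD.T_SIV
import Pool.Agent.K93.SD.T_TOP
import Pool.Agent.K93.SD.T_TPA
import Pool.Agent.K93.SD.T_WT
import Pool.Agent.K93.SD.T_ZER

/-!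
# The gcd recursion with `n^2 - 1`: few zeros, and slow descents from almost all starting points

For `p = 2` the number of zeros of the recursion up to `X` is `O(X exp (-c (log X)^(1/4)))`, for every initial value; and for
all but `O(X exp (-c (log X)^(1/4)))` of the integers `n ≤ X` the recursion started with a zero at `n` has no further zero up
to `n + exp (c (log X)^(1/4))`.

Proof. A short gap contains a jump at a time `k` by `(k^2 - 1) / μ` with a small `μ`. In reversed time from `k` the sum `T` of the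
jumps grows from `0` to a power of `k` in few steps, and the jump at the time `k - s` is a product `e f` with `e ∣ k - s - 1`,
`f ∣ k - s + 1`, `e ∣ μ T + j s (s + 2)`, `f ∣ μ T + j s (s - 2)`, where these two numbers are positive. Jumps much larger than
the present value of `T` are rare (second moments of the divisor function). Between two successive jumps of size at least `D` there is
mostly a jump of size at least `D / Y`: otherwise there is a long run of jumps with small sums in between for half of the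
neighbours, and such runs are rare (Chinese remainder theorem, and moments of the divisor function in short intervals).
So the number of jumps grows geometrically from level to level.
-/

set_option autoImplicit false

namespace Pool.Agent.K93.SD.Main

open Pool.Agent.K93.SD

/-- There are `c, C > 0` such that for all `X ≥ 2`:
(1) every sequence with `a n = |a (n-1) - gcd (a (n-1), n^2 - 1)|` for all `n ≥ 2` (any initial value `a 1`; for `a 1 = 1` this is `a_2`)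
has at most `C X exp (-c (log X)^(1/4))` zeros `n ≤ X`;
(2) for all but `C X exp (-c (log X)^(1/4))` of the `n ≤ X`, every sequence with `a n = 0` which satisfies the
recursion after `n` has no zero `n'` with `n < n' ≤ n + exp (c (log X)^(1/4))`. -/
theorem main :
    ∃ c C : ℝ, 0 < c ∧ 0 < C ∧
      (∀ a : ℕ → ℤ, (∀ n : ℕ, 2 ≤ n → a n = |a (n - 1) - ((Int.gcd (a (n - 1)) ((n : ℤ) ^ 2 - 1) : ℕ) : ℤ)|) →
        ∀ X : ℕ, 2 ≤ X → ({n : ℕ | 1 ≤ n ∧ n ≤ X ∧ a n = 0}.ncard : ℝ) ≤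
          C * X * Real.exp (-(c * Real.log X ^ (1 / 4 : ℝ)))) ∧
      ∀ X : ℕ, 2 ≤ X →
        ({n : ℕ | 1 ≤ n ∧ n ≤ X ∧ ¬ ∀ a : ℕ → ℤ,
          (∀ i : ℕ, n < i → a i = |a (i - 1) - ((Int.gcd (a (i - 1)) ((i : ℤ) ^ 2 - 1) : ℕ) : ℤ)|) → a n = 0 →
          ∀ n' : ℕ, n < n' → (n' : ℝ) ≤ n + Real.exp (c * Real.log X ^ (1 / 4 : ℝ)) → a n' ≠ 0}.ncard : ℝ) ≤
          C * X * Real.exp (-(c * Real.log X ^ (1 / 4 : ℝ))) := by
  have hCRT : S_CRT := t_CRT
  have hAB : S_AB := t_AB t_SIV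
  have hCNT : S_CNT := t_CNT hCRT (t_WT hAB)
  have hEXC : S_EXC := t_EXC (t_LEAP hAB hCRT) hCNT t_BIG t_RUN t_PAR
  obtain ⟨c₁, C₁, hc₁, hC₁, h₁⟩ := t_TOP (t_ZER t_REC hEXC)
  obtain ⟨c₂, C₂, hc₂, hC₂, h₂⟩ := t_TPA (t_ALL t_REC hEXC)
  obtain ⟨c, hc⟩ : ∃ c, c = min c₁ c₂ := ⟨_, rfl⟩
  have hcc₁ : c ≤ c₁ := by rw [hc]; exact min_le_left _ _
  have hcc₂ : c ≤ c₂ := by rw [hc]; exact min_le_right _ _
  have hpow : ∀ (X : ℕ), 0 ≤ Real.log X ^ (1 / 4 : ℝ) := fun X => Real.rpow_nonneg (Real.log_natCast_nonneg X) _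
  refine ⟨c, max C₁ C₂, by rw [hc]; exact lt_min hc₁ hc₂, lt_max_of_lt_left hC₁, fun a ha X hX => ?_, fun X hX => ?_⟩
  · refine (h₁ a ha X hX).trans ?_
    have h3 := mul_le_mul_of_nonneg_right hcc₁ (hpow X)
    have h4 : Real.exp (-(c₁ * Real.log X ^ (1 / 4 : ℝ))) ≤ Real.exp (-(c * Real.log X ^ (1 / 4 : ℝ))) :=
      Real.exp_le_exp.2 (by linarith)
    gcongr
    exact le_max_left _ _
  · have h3 := mul_le_mul_of_nonneg_right hcc₂ (hpow X)
    have h4 : Real.exp (-(c₂ * Real.log X ^ (1 / 4 : ℝ))) ≤ Real.exp (-(c * Real.log X ^ (1 / 4 : ℝ))) :=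
      Real.exp_le_exp.2 (by linarith)
    have h5 : Real.exp (c * Real.log X ^ (1 / 4 : ℝ)) ≤ Real.exp (c₂ * Real.log X ^ (1 / 4 : ℝ)) :=
      Real.exp_le_exp.2 h3
    have h6 : ({n : ℕ | 1 ≤ n ∧ n ≤ X ∧ ¬ ∀ a : ℕ → ℤ,
          (∀ i : ℕ, n < i → a i = |a (i - 1) - ((Int.gcd (a (i - 1)) ((i : ℤ) ^ 2 - 1) : ℕ) : ℤ)|) → a n = 0 →
          ∀ n' : ℕ, n < n' → (n' : ℝ) ≤ n + Real.exp (c * Real.log X ^ (1 / 4 : ℝ)) → a n' ≠ 0}.ncard : ℝ) ≤
        ({n : ℕ | 1 ≤ n ∧ n ≤ X ∧ ∃ (a : ℕ → ℤ) (n' : ℕ), IsFrom a n ∧ a n = 0 ∧ n < n' ∧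
          (n' : ℝ) ≤ n + Real.exp (c₂ * Real.log X ^ (1 / 4 : ℝ)) ∧ a n' = 0}.ncard : ℝ) := by
      norm_cast
      refine Set.ncard_le_ncard ?_ ((Set.finite_Icc 1 X).subset fun n hn => ⟨hn.1, hn.2.1⟩)
      rintro n ⟨g1, g2, g3⟩
      refine ⟨g1, g2, ?_⟩
      push Not at g3
      obtain ⟨a, g4, g5, n', g6, g7, g8⟩ := g3
      exact ⟨a, n', g4, g5, g6, g7.trans (by linarith), g8⟩
    refine (h6.trans (h₂ X hX)).trans ?_
    gcongr
    exact le_max_right _ _

end Pool.Agent.K93.SD.Main
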