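import Mathlib

/-!
# Zeros of the gcd recursion with `n^2 - 1`: project SD (helper93), statements of the parts

Reversed time: from a very large jump at time `k` (`a (k-1) = j V(k) / μ`, `V(x) = x^2 - 1`, `j < μ ≤ 2 G`) put
`T s = a (k-s) - a (k-1)` (`s ≥ 1`). Then `T 1 = 0`, `T (s+1) = T s + e s * f s` with `e s ∣ k-s-1`, `f s ∣ k-s+1`,
`e s ∣ μ T s + j s (s+2)`, `f s ∣ μ T s + j s (s-2)`.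
-/

set_option autoImplicit false

namespace Pool.Agent.K93.SD

open Finset

/-- number of divisors -/
def tau (n : ℕ) : ℕ := n.divisors.card

/-- `μ t + j n (n+2)` -/
def AA (μ j n t : ℕ) : ℕ := μ * t + j * (n * (n + 2))

/-- `μ t + j n (n-2)` (natural subtraction; it is `0` for `n = 1`, `t = 0`) -/
def BB (μ j n t : ℕ) : ℕ := μ * t + j * (n * n) - 2 * j * n

/-- the reversed walk, steps `1, …, R` -/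
structure Walk (k μ j R : ℕ) (T e f : ℕ → ℕ) : Prop where
  start : T 1 = 0
  first : 1 ≤ R → T 2 ≤ 3 * j * j
  epos : ∀ n, 1 ≤ n → n ≤ R → 1 ≤ e n
  fpos : ∀ n, 1 ≤ n → n ≤ R → 1 ≤ f n
  step : ∀ n, 1 ≤ n → n ≤ R → T (n + 1) = T n + e n * f n
  eT : ∀ n, 1 ≤ n → n ≤ R → e n ∣ AA μ j n (T n)
  fT : ∀ n, 1 ≤ n → n ≤ R → f n ∣ BB μ j n (T n)
  eK : ∀ n, 1 ≤ n → n ≤ R → (e n : ℤ) ∣ (k : ℤ) - n - 1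
  fK : ∀ n, 1 ≤ n → n ≤ R → (f n : ℤ) ∣ (k : ℤ) - n + 1

/-- the steps up to `R` with `T n ≥ T0` and a jump of size at least `D` -/
def J (R T0 D : ℕ) (T e f : ℕ → ℕ) : Finset ℕ := (Icc 1 R).filter (fun n => T0 ≤ T n ∧ D ≤ e n * f n)

/-- a leap at the step `n`: from a value `t < B` by a jump of size at least `Λ B` -/
def Leap (μ j n B Λ k : ℕ) : Prop := ∃ t e f : ℕ, 1 ≤ t ∧ t < B ∧ 1 ≤ e ∧ 1 ≤ f ∧ Λ * B ≤ e * f ∧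
  e ∣ AA μ j n t ∧ f ∣ BB μ j n t ∧ (e : ℤ) ∣ (k : ℤ) - n - 1 ∧ (f : ℤ) ∣ (k : ℤ) - n + 1

open Classical in
/-- `r` successive jumps of size at least `D` such that the sums in between are small for at least half of the pairs
of neighbours -/
def BadRun (μ j G Y T0 Ts D r k : ℕ) : Prop :=
  ∃ n t e f : ℕ → ℕ,
    (∀ i, i < r → 1 ≤ n i ∧ n i ≤ G ∧ T0 ≤ t i ∧ t i ≤ Ts ∧ 1 ≤ e i ∧ 1 ≤ f i ∧ D ≤ e i * f i ∧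
      e i ∣ AA μ j (n i) (t i) ∧ f i ∣ BB μ j (n i) (t i) ∧
      (e i : ℤ) ∣ (k : ℤ) - n i - 1 ∧ (f i : ℤ) ∣ (k : ℤ) - n i + 1 ∧ Nat.gcd (e i) (f i) ≤ 4 * G) ∧
    (∀ i i', i < i' → i' < r → Nat.gcd (e i) (e i') ≤ 4 * G ∧ Nat.gcd (e i) (f i') ≤ 4 * G ∧
      Nat.gcd (f i) (e i') ≤ 4 * G ∧ Nat.gcd (f i) (f i') ≤ 4 * G) ∧
    (∀ i, i + 1 < r → n i < n (i + 1) ∧ t i + e i * f i ≤ t (i + 1) ∧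
      t (i + 1) ≤ t i + e i * f i + G * (e (i + 1) * f (i + 1))) ∧
    r ≤ 2 * ((range (r - 1)).filter
      (fun i => Y * (t (i + 1) - (t i + e i * f i)) < e (i + 1) * f (i + 1))).card

/-- the recursion of the problem for `p = 2`, with an arbitrary initial value `a 1` -/
def IsSeq (a : ℕ → ℤ) : Prop :=
  ∀ n : ℕ, 2 ≤ n → a n = |a (n - 1) - ((Int.gcd (a (n - 1)) ((n : ℤ) ^ 2 - 1) : ℕ) : ℤ)|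

/-- the recursion holds after the index `n` -/
def IsFrom (a : ℕ → ℤ) (n : ℕ) : Prop :=
  ∀ i : ℕ, n < i → a i = |a (i - 1) - ((Int.gcd (a (i - 1)) ((i : ℤ) ^ 2 - 1) : ℕ) : ℤ)|

/-- **REC** a short gap between zeros gives a reversed walk -/
def S_REC : Prop := ∀ (a : ℕ → ℤ) (n n' G : ℕ), IsFrom a n → 1 ≤ G → 1000 * G ^ 4 ≤ n → n < n' → a n = 0 → a n' = 0 →
  (∀ k, n < k → k < n' → a k ≠ 0) → n' ≤ n + G →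
  ∃ (k μ j R : ℕ) (T e f : ℕ → ℕ), n + 1 < k ∧ k ≤ n' ∧ 1 ≤ j ∧ j < μ ∧ μ ≤ 2 * G ∧ R ≤ G ∧
    Walk k μ j R T e f ∧ n ≤ T (R + 1)

/-- **SIV** the second moment of the divisor function in short intervals -/
def S_SIV : Prop := ∀ a H U : ℕ, 1 ≤ a → a + H ≤ U → U ≤ H ^ 2 →
  ∑ n ∈ Ico a (a + H), (tau n : ℝ) ^ 2 ≤ 8 * H * (1 + Real.log U) ^ 16

/-- **AB** -/
def S_AB : Prop := ∀ G μ j n Ts t' W : ℕ, 1 ≤ n → n ≤ G → j < μ → μ ≤ 2 * G → 4 * G ^ 2 ≤ Ts → 1 ≤ t' → t' ≤ Ts →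
  W ≤ 2 * Ts → 8 * G * Ts ≤ W ^ 2 →
  ∑ t ∈ Ico t' (t' + W), (tau (AA μ j n t) : ℝ) * tau (BB μ j n t) ≤ 16 * G * W * (1 + Real.log (8 * G * Ts)) ^ 16

/-- the pairs of divisors at the value `t` -/
def Pr (μ j n P Q D t' t : ℕ) : Finset (ℕ × ℕ) :=
  ((AA μ j n t).divisors ×ˢ (BB μ j n t).divisors).filter
    (fun x => D ≤ x.1 * x.2 ∧ P * (t - t') ≤ Q * (x.1 * x.2))

/-- **WT** the weight of a step -/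
def S_WT : Prop := ∀ G μ j n P Q D Ts t' : ℕ, 1 ≤ n → n ≤ G → j < μ → μ ≤ 2 * G → 4 * G ^ 2 ≤ Ts → 1 ≤ P → 1 ≤ Q →
  1 ≤ D → 1 ≤ t' → Q * D ≤ P * Ts → 8 * G * Ts * P ^ 2 ≤ Q ^ 2 * D ^ 2 →
  ∑ t ∈ Icc t' Ts, ∑ x ∈ Pr μ j n P Q D t' t, (1 / ((x.1 * x.2 : ℕ) : ℝ)) ≤
    64 * G * ((Q : ℝ) / P) * (1 + Real.log (8 * G * Ts)) ^ 17

open Classical in
/-- **CRT** -/
def S_CRT : Prop := ∀ (H X : ℕ) (c : List (ℤ × ℕ)), 1 ≤ H → c.Pairwise (fun p q => Nat.gcd p.2 q.2 ≤ H) →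
  (∀ p ∈ c, 0 < p.2) →
  (((Icc 1 X).filter (fun k : ℕ => ∀ p ∈ c, (p.2 : ℤ) ∣ (k : ℤ) - p.1)).card : ℝ) ≤
    (X : ℝ) * (H : ℝ) ^ (c.length ^ 2) / ((c.map Prod.snd).prod : ℕ) + 1

open Classical in
/-- **LEAP** leaps are rare -/
def S_LEAP : Prop := ∀ G μ j n B Λ X : ℕ, 1 ≤ n → n ≤ G → j < μ → μ ≤ 2 * G → 8 * G ^ 2 ≤ B → 1 ≤ Λ →
  (((Icc 1 X).filter (fun k : ℕ => Leap μ j n B Λ k)).card : ℝ) ≤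
    256 * G * X * (1 + Real.log (8 * G * B)) ^ 16 / Λ + 16 * G * B * (1 + Real.log (8 * G * B)) ^ 16

open Classical in
/-- **CNT** the number of `k ≤ X` with a bad run of length `2 b` at the level `D` -/
def S_CNT : Prop := ∀ (μ j G Y T0 Ts D b X : ℕ), 1 ≤ G → j < μ → μ ≤ 2 * G → 2 ≤ Y → 1 ≤ T0 → 4 * G ^ 2 ≤ Ts →
  1 ≤ D → 1 ≤ b → G * D ≤ Ts → 8 * G * Ts * Y ^ 2 ≤ D ^ 2 →
  (((Icc 1 X).filter (fun k : ℕ => BadRun μ j G Y T0 Ts D (2 * b) k)).card : ℝ) ≤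
    4 ^ b * ((X : ℝ) * (4 * G : ℝ) ^ ((4 * b) ^ 2) * (G * Ts * (8 * G * Ts) ^ 2) *
      (64 * (G : ℝ) ^ 3 * (1 + Real.log (8 * G * Ts)) ^ 17) ^ (2 * b) / (Y : ℝ) ^ b +
      (G * Ts * (8 * G * Ts) ^ 2) ^ (2 * b))

/-- **BIG** many big jumps while `T` grows from `T0` to `(4 Λ) ^ M T0`, if there are no leaps -/
def S_BIG : Prop := ∀ (k μ j G R T0 D Λ M : ℕ) (T e f : ℕ → ℕ), Walk k μ j R T e f → R ≤ G → 1 ≤ Λ →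
  3 * j * j < T0 → 2 * G * D ≤ T0 →
  (∀ m n, m < M → 1 ≤ n → n ≤ R → 1 ≤ T n → T n < (4 * Λ) ^ m * T0 → e n * f n < Λ * ((4 * Λ) ^ m * T0)) →
  (4 * Λ) ^ M * T0 < T (R + 1) → M ≤ (J R T0 D T e f).card

/-- **RUN** without bad runs the number of jumps grows by the factor `9/8` from level to level -/
def S_RUN : Prop := ∀ (k μ j G R Y T0 Ts r K : ℕ) (T e f D : ℕ → ℕ), Walk k μ j R T e f → R ≤ G → 1 ≤ μ → μ ≤ 2 * G →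
  (∀ n, 1 ≤ n → n ≤ R → T n ≤ Ts) → 2 ≤ r → 1 ≤ Y → 1 ≤ G → (∀ i, i ≤ K → G < D i) →
  (∀ i, i < K → 2 * G * Y * D (i + 1) ≤ D i) →
  (∀ i, i < K → ¬ BadRun μ j G Y T0 Ts (D i) r k) → r ≤ (J R T0 (D 0) T e f).card →
  9 ^ K * (J R T0 (D 0) T e f).card ≤ 8 ^ K * G

/-- the parameters -/
def em (h : ℕ) : ℕ := 6 * h + 4
def uu (h : ℕ) : ℕ := 100000 * h ^ 2
def Tz (h : ℕ) : ℕ := 2 ^ (6 * em h * uu h)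
def Ts (h : ℕ) : ℕ := 2 ^ (8 * em h * uu h)
def Dk (h i : ℕ) : ℕ := 2 ^ ((6 * em h - 2 - i) * uu h)
def Yy (h : ℕ) : ℕ := 2 ^ (uu h - h - 2)
def La (h : ℕ) : ℕ := 2 ^ (20 * h)
/-- the exponent of `X` -/
def xx (h : ℕ) : ℕ := 100000000000 * h ^ 4

/-- **PAR** -/
def S_PAR : Prop := ∃ h₀ : ℕ, 1 ≤ h₀ ∧ ∀ h X : ℕ, h₀ ≤ h → 2 ^ xx h ≤ X →
  (2 * 2 ^ h : ℝ) ^ 2 * (2 ^ h * (64 * em h) * (256 * 2 ^ h * X * (1 + Real.log (8 * 2 ^ h * Ts h)) ^ 16 / La h +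
      16 * 2 ^ h * Ts h * (1 + Real.log (8 * 2 ^ h * Ts h)) ^ 16) +
    (6 * h) * (4 ^ (32 * em h) * ((X : ℝ) * (4 * 2 ^ h : ℝ) ^ ((4 * (32 * em h)) ^ 2) *
      (2 ^ h * Ts h * (8 * 2 ^ h * Ts h) ^ 2) *
      (64 * ((2 : ℝ) ^ h) ^ 3 * (1 + Real.log (8 * 2 ^ h * Ts h)) ^ 17) ^ (2 * (32 * em h)) / (Yy h : ℝ) ^ (32 * em h) +
      (2 ^ h * Ts h * (8 * 2 ^ h * Ts h) ^ 2) ^ (2 * (32 * em h))))) ≤ X / 2 ^ (3 * h)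

/-- **EXC** the exceptional set -/
def S_EXC : Prop := ∃ h₀ : ℕ, 1 ≤ h₀ ∧ ∀ h X : ℕ, h₀ ≤ h → 2 ^ xx h ≤ X → ∃ E : Finset ℕ, (E.card : ℝ) ≤ X / 2 ^ (3 * h) ∧
  ∀ k, 1 ≤ k → k ≤ X → k ∉ E → ∀ (μ j R : ℕ) (T e f : ℕ → ℕ), 1 ≤ j → j < μ → μ ≤ 2 * 2 ^ h → R ≤ 2 ^ h →
    Walk k μ j R T e f → T (R + 1) ≤ Ts h

/-- **ZER** the number of zeros up to `X` in terms of `h` -/
def S_ZER : Prop := ∃ h₀ : ℕ, 1 ≤ h₀ ∧ ∀ h X : ℕ, h₀ ≤ h → 2 ^ xx h ≤ X → ∀ a : ℕ → ℤ, IsSeq a →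
  ({n : ℕ | 1 ≤ n ∧ n ≤ X ∧ a n = 0}.ncard : ℝ) ≤ 8 * X / 2 ^ h

/-- **ALL** almost all descents last at least `2 ^ h` steps -/
def S_ALL : Prop := ∃ h₀ : ℕ, 1 ≤ h₀ ∧ ∀ h X : ℕ, h₀ ≤ h → 2 ^ xx h ≤ X →
  ({n : ℕ | 1 ≤ n ∧ n ≤ X ∧ ∃ (a : ℕ → ℤ) (n' : ℕ), IsFrom a n ∧ a n = 0 ∧ n < n' ∧ n' ≤ n + 2 ^ h ∧ a n' = 0}.ncard : ℝ) ≤
    8 * X / 2 ^ h

/-- **TPA** -/
def S_TPA : Prop := ∃ c C : ℝ, 0 < c ∧ 0 < C ∧ ∀ X : ℕ, 2 ≤ X →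
  ({n : ℕ | 1 ≤ n ∧ n ≤ X ∧ ∃ (a : ℕ → ℤ) (n' : ℕ), IsFrom a n ∧ a n = 0 ∧ n < n' ∧
    (n' : ℝ) ≤ n + Real.exp (c * Real.log X ^ (1 / 4 : ℝ)) ∧ a n' = 0}.ncard : ℝ) ≤
      C * X * Real.exp (-(c * Real.log X ^ (1 / 4 : ℝ)))

/-- **TOP** -/
def S_TOP : Prop := ∃ c C : ℝ, 0 < c ∧ 0 < C ∧ ∀ a : ℕ → ℤ, IsSeq a → ∀ X : ℕ, 2 ≤ X →
  ({n : ℕ | 1 ≤ n ∧ n ≤ X ∧ a n = 0}.ncard : ℝ) ≤ C * X * Real.exp (-(c * Real.log X ^ (1 / 4 : ℝ)))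

end Pool.Agent.K93.SD
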