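import Pool.Agent.K93.SD.Stm

/-! AB: second moments of the numbers of divisors of `AA` and `BB` -/

set_option autoImplicit false

namespace Pool.Agent.K93.SD

open Finset

namespace AB

theorem one (h : S_SIV) {G μ Ts t' W a0 : ℕ} {F : ℕ → ℕ} (hμ1 : 1 ≤ μ) (hμ : μ ≤ 2 * G)
    (hF : ∀ t, t' ≤ t → F t = a0 + μ * (t - t')) (ha0 : 1 ≤ a0)
    (hU : a0 + μ * W ≤ 8 * G * Ts) (hW : 8 * G * Ts ≤ W ^ 2) :
    ∑ t ∈ Ico t' (t' + W), (tau (F t) : ℝ) ^ 2 ≤
      16 * G * W * (1 + Real.log (8 * G * Ts)) ^ 16 := by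
  have h1 := h a0 (μ * W) (8 * G * Ts) ha0 hU (by
    have h2 : W ^ 2 ≤ (μ * W) ^ 2 := Nat.pow_le_pow_left (Nat.le_mul_of_pos_left W hμ1) 2
    omega)
  have hinj : Set.InjOn F (Ico t' (t' + W) : Finset ℕ) := by
    intro x hx y hy hxy
    rw [Finset.mem_coe, mem_Ico] at hx hy
    rw [hF x hx.1, hF y hy.1] at hxy
    have h2 : μ * (x - t') = μ * (y - t') := by omega
    have h3 := Nat.eq_of_mul_eq_mul_left hμ1 h2
    omega
  have hsub : (Ico t' (t' + W)).image F ⊆ Ico a0 (a0 + μ * W) := by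
    intro x hx
    rw [mem_image] at hx
    obtain ⟨t, ht, rfl⟩ := hx
    rw [mem_Ico] at ht ⊢
    rw [hF t ht.1]
    have h2 : μ * (t - t') < μ * W := Nat.mul_lt_mul_of_pos_left (by omega) hμ1
    omega
  have h2 : ∑ t ∈ Ico t' (t' + W), (tau (F t) : ℝ) ^ 2 ≤
      ∑ n ∈ Ico a0 (a0 + μ * W), (tau n : ℝ) ^ 2 := by
    rw [← Finset.sum_image (f := fun n => (tau n : ℝ) ^ 2) hinj]
    exact Finset.sum_le_sum_of_subset_of_nonneg hsub fun i _ _ => by positivity
  refine h2.trans (h1.trans ?_)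
  have hL : 0 ≤ 1 + Real.log ((8 * G * Ts : ℕ) : ℝ) := by
    have := Real.log_natCast_nonneg (8 * G * Ts)
    linarith
  have h3 : (8 : ℝ) * ((μ * W : ℕ) : ℝ) ≤ 16 * G * W := by
    have h4 : 8 * (μ * W) ≤ 16 * G * W := by
      have := Nat.mul_le_mul_right W hμ
      calc 8 * (μ * W) ≤ 8 * (2 * G * W) := Nat.mul_le_mul_left _ this
        _ = 16 * G * W := by ring
    exact_mod_cast h4
  have h4 := mul_le_mul_of_nonneg_right h3 (pow_nonneg hL 16)
  push_cast at h4 ⊢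
  exact h4

end AB

theorem t_AB (h : S_SIV) : S_AB := by
  intro G μ j n Ts t' W hn hnG hj hμ hTs ht' ht'Ts hW hW2
  have hμ1 : 1 ≤ μ := by omega
  have hG : 1 ≤ G := by omega
  -- bounds
  have hjn : j * (n * (n + 2)) ≤ 6 * G ^ 3 := by
    have h1 : n * (n + 2) ≤ G * (3 * G) := Nat.mul_le_mul hnG (by omega)
    have h2 : j * (n * (n + 2)) ≤ 2 * G * (G * (3 * G)) := Nat.mul_le_mul (by omega) h1
    calc j * (n * (n + 2)) ≤ 2 * G * (G * (3 * G)) := h2
      _ = 6 * G ^ 3 := by ring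
  have hG3 : 4 * G ^ 3 ≤ G * Ts := by
    calc 4 * G ^ 3 = G * (4 * G ^ 2) := by ring
      _ ≤ G * Ts := Nat.mul_le_mul_left _ hTs
  have hμt : μ * t' ≤ 2 * (G * Ts) := by
    calc μ * t' ≤ 2 * G * Ts := Nat.mul_le_mul hμ ht'Ts
      _ = 2 * (G * Ts) := by ring
  have hμW : μ * W ≤ 4 * (G * Ts) := by
    calc μ * W ≤ 2 * G * (2 * Ts) := Nat.mul_le_mul hμ hW
      _ = 4 * (G * Ts) := by ring
  have hU : AA μ j n t' + μ * W ≤ 8 * G * Ts := by
    unfold AA
    have : 8 * G * Ts = 8 * (G * Ts) := by ring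
    omega
  have hmul : ∀ t, t' ≤ t → μ * t = μ * t' + μ * (t - t') := by
    intro t ht
    rw [← mul_add]
    congr 1
    omega
  have hμt1 : μ ≤ μ * t' := Nat.le_mul_of_pos_right μ ht'
  -- the first function
  have hA := AB.one h (F := AA μ j n) (t' := t') (a0 := AA μ j n t') hμ1 hμ
    (fun t ht => by unfold AA; rw [hmul t ht]; ring) (by unfold AA; omega) hU hW2
  -- the second function
  have hsub : 2 * j * n + 1 ≤ μ * t' + j * (n * n) := by
    rcases Nat.lt_or_ge n 2 with h2 | h2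
    · have h3 : n = 1 := by omega
      subst h3
      simp only [mul_one]
      omega
    · have h3 : j * (2 * n) ≤ j * (n * n) := Nat.mul_le_mul_left _ (Nat.mul_le_mul_right _ h2)
      have h4 : 2 * j * n = j * (2 * n) := by ring
      omega
  have hB := AB.one h (F := BB μ j n) (t' := t') (a0 := BB μ j n t') hμ1 hμ
    (fun t ht => by
      unfold BB
      rw [hmul t ht]
      omega) (by unfold BB; omega) (by
      have h3 : BB μ j n t' ≤ AA μ j n t' := by
        unfold BB AA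
        have h4 : j * (n * n) ≤ j * (n * (n + 2)) :=
          Nat.mul_le_mul_left _ (Nat.mul_le_mul_left _ (by omega))
        omega
      omega) hW2
  have hsum : ∑ t ∈ Ico t' (t' + W), (tau (AA μ j n t) : ℝ) * tau (BB μ j n t) ≤
      1 / 2 * ((∑ t ∈ Ico t' (t' + W), (tau (AA μ j n t) : ℝ) ^ 2) +
        ∑ t ∈ Ico t' (t' + W), (tau (BB μ j n t) : ℝ) ^ 2) := by
    rw [← Finset.sum_add_distrib, Finset.mul_sum]
    refine Finset.sum_le_sum fun t _ => ?_
    nlinarith [sq_nonneg ((tau (AA μ j n t) : ℝ) - tau (BB μ j n t))]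
  linarith

end Pool.Agent.K93.SD
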